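import Mathlib

/-!
# Matrices over integral group rings: involution, trace, external products
-/

open MonoidAlgebra

set_option linter.unusedSectionVars false

namespace Pool.Agent.Helper183_TG

section groupring

variable {Γ Γ' : Type} [Group Γ] [Group Γ']

/-- The involution `Σ n_g g ↦ Σ n_g g⁻¹` of the integral group ring. -/
noncomputable def gst (x : MonoidAlgebra ℤ Γ) : MonoidAlgebra ℤ Γ := mapDomain (fun g => g⁻¹) x

/-- The trace `Σ n_g g ↦ n_1` (the von Neumann trace) on the integral group ring. -/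
def gtr (x : MonoidAlgebra ℤ Γ) : ℤ := x.coeff 1

theorem gst_zero : gst (0 : MonoidAlgebra ℤ Γ) = 0 := mapDomain_zero _
theorem gst_add (x y : MonoidAlgebra ℤ Γ) : gst (x + y) = gst x + gst y := mapDomain_add _ _ _
theorem gst_single (g : Γ) (r : ℤ) : gst (single g r) = single g⁻¹ r := mapDomain_single
theorem gst_one : gst (1 : MonoidAlgebra ℤ Γ) = 1 := by
  rw [one_def, gst_single, inv_one]

theorem gst_sum {ι : Type} (s : Finset ι) (f : ι → MonoidAlgebra ℤ Γ) :
    gst (∑ i ∈ s, f i) = ∑ i ∈ s, gst (f i) := by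
  classical
  induction s using Finset.induction_on with
  | empty => simp [gst_zero]
  | insert i s hi ih => rw [Finset.sum_insert hi, Finset.sum_insert hi, gst_add, ih]

theorem gst_mul (x y : MonoidAlgebra ℤ Γ) : gst (x * y) = gst y * gst x := by
  induction x using induction_linear with
  | zero => simp [gst_zero]
  | add a b ha hb => rw [add_mul, gst_add, ha, hb, gst_add, mul_add]
  | single g r =>
    induction y using induction_linear with
    | zero => simp [gst_zero]
    | add a b ha hb => rw [mul_add, gst_add, ha, hb, gst_add, add_mul]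
    | single h s =>
      rw [single_mul_single, gst_single, gst_single, gst_single, single_mul_single, mul_inv_rev,
        mul_comm s r]

theorem gst_neg (x : MonoidAlgebra ℤ Γ) : gst (-x) = -gst x := by
  have h : gst (-x) + gst x = 0 := by rw [← gst_add, neg_add_cancel, gst_zero]
  exact eq_neg_of_add_eq_zero_left h

theorem gtr_add (x y : MonoidAlgebra ℤ Γ) : gtr (x + y) = gtr x + gtr y := rfl
theorem gtr_zero : gtr (0 : MonoidAlgebra ℤ Γ) = 0 := rfl

theorem gtr_sum {ι : Type} (s : Finset ι) (f : ι → MonoidAlgebra ℤ Γ) :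
    gtr (∑ i ∈ s, f i) = ∑ i ∈ s, gtr (f i) := by
  classical
  induction s using Finset.induction_on with
  | empty => simp [gtr_zero]
  | insert i s hi ih => rw [Finset.sum_insert hi, Finset.sum_insert hi, gtr_add, ih]

theorem gtr_mul_comm (x y : MonoidAlgebra ℤ Γ) : gtr (x * y) = gtr (y * x) := by
  classical
  induction x using induction_linear with
  | zero => simp
  | add a b ha hb => rw [add_mul, gtr_add, ha, hb, mul_add, gtr_add]
  | single g r =>
    induction y using induction_linear with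
    | zero => simp
    | add a b ha hb => rw [mul_add, gtr_add, ha, hb, add_mul, gtr_add]
    | single h s =>
      rw [single_mul_single, single_mul_single, gtr, gtr, coeff_single, coeff_single,
        Finsupp.single_apply, Finsupp.single_apply, mul_comm s r]
      have : g * h = 1 ↔ h * g = 1 := by
        rw [mul_eq_one_iff_eq_inv, mul_eq_one_iff_inv_eq, eq_comm]
      simp only [this]

/-- The inclusion of the group ring of the first factor. -/
noncomputable def i1 : MonoidAlgebra ℤ Γ →+* MonoidAlgebra ℤ (Γ × Γ') :=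
  mapDomainRingHom ℤ (MonoidHom.inl Γ Γ')

/-- The inclusion of the group ring of the second factor. -/
noncomputable def i2 : MonoidAlgebra ℤ Γ' →+* MonoidAlgebra ℤ (Γ × Γ') :=
  mapDomainRingHom ℤ (MonoidHom.inr Γ Γ')

theorem i1_single (g : Γ) (r : ℤ) :
    (i1 (single g r) : MonoidAlgebra ℤ (Γ × Γ')) = single (g, 1) r := mapDomain_single
theorem i2_single (g : Γ') (r : ℤ) :
    (i2 (single g r) : MonoidAlgebra ℤ (Γ × Γ')) = single (1, g) r := mapDomain_single

theorem i1_i2_comm (x : MonoidAlgebra ℤ Γ) (y : MonoidAlgebra ℤ Γ') :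
    (i1 x * i2 y : MonoidAlgebra ℤ (Γ × Γ')) = i2 y * i1 x := by
  induction x using induction_linear with
  | zero => simp
  | add a b ha hb => rw [map_add, add_mul, mul_add, ha, hb]
  | single g r =>
    induction y using induction_linear with
    | zero => simp
    | add a b ha hb => rw [map_add, mul_add, add_mul, ha, hb]
    | single h s =>
      rw [i1_single, i2_single, single_mul_single, single_mul_single, mul_comm s r]
      simp

theorem coeff_i1_i2 (x : MonoidAlgebra ℤ Γ) (y : MonoidAlgebra ℤ Γ') (w : Γ) (w' : Γ') :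
    (i1 x * i2 y : MonoidAlgebra ℤ (Γ × Γ')).coeff (w, w') = x.coeff w * y.coeff w' := by
  classical
  induction x using induction_linear with
  | zero => simp
  | add a b ha hb =>
    rw [map_add, add_mul, coeff_add, Finsupp.add_apply, ha, hb, coeff_add, Finsupp.add_apply,
      add_mul]
  | single g r =>
    induction y using induction_linear with
    | zero => simp
    | add a b ha hb =>
      rw [map_add, mul_add, coeff_add, Finsupp.add_apply, ha, hb, coeff_add, Finsupp.add_apply,
        mul_add]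
    | single h s =>
      rw [i1_single, i2_single, single_mul_single, coeff_single, coeff_single, coeff_single,
        Finsupp.single_apply, Finsupp.single_apply, Finsupp.single_apply]
      by_cases h1 : g = w <;> by_cases h2 : h = w' <;> simp [h1, h2]

theorem gtr_i1_i2 (x : MonoidAlgebra ℤ Γ) (y : MonoidAlgebra ℤ Γ') :
    gtr (i1 x * i2 y : MonoidAlgebra ℤ (Γ × Γ')) = gtr x * gtr y := coeff_i1_i2 x y 1 1

theorem gst_i1 (x : MonoidAlgebra ℤ Γ) :
    gst (i1 x : MonoidAlgebra ℤ (Γ × Γ')) = i1 (gst x) := by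
  induction x using induction_linear with
  | zero => simp [gst_zero]
  | add a b ha hb => rw [map_add, gst_add, ha, hb, gst_add, map_add]
  | single g r => rw [i1_single, gst_single, gst_single, i1_single]; simp

theorem gst_i2 (x : MonoidAlgebra ℤ Γ') :
    gst (i2 x : MonoidAlgebra ℤ (Γ × Γ')) = i2 (gst x) := by
  induction x using induction_linear with
  | zero => simp [gst_zero]
  | add a b ha hb => rw [map_add, gst_add, ha, hb, gst_add, map_add]
  | single g r => rw [i2_single, gst_single, gst_single, i2_single]; simp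

end groupring

section matrices

variable {Γ Γ' : Type} [Group Γ] [Group Γ'] {c c' : Type} [Fintype c] [DecidableEq c]
  [Fintype c'] [DecidableEq c']

/-- The adjoint of a matrix over the integral group ring. -/
noncomputable def adj (P : Matrix c c (MonoidAlgebra ℤ Γ)) : Matrix c c (MonoidAlgebra ℤ Γ) :=
  fun a b => gst (P b a)

theorem adj_add (P R : Matrix c c (MonoidAlgebra ℤ Γ)) : adj (P + R) = adj P + adj R := by
  ext1 a b; exact gst_add _ _

theorem adj_mul (P R : Matrix c c (MonoidAlgebra ℤ Γ)) : adj (P * R) = adj R * adj P := by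
  refine Matrix.ext fun a b => ?_
  show gst ((P * R) b a) = _
  rw [Matrix.mul_apply, Matrix.mul_apply, gst_sum]
  exact Finset.sum_congr rfl fun i _ => gst_mul _ _

theorem adj_one : adj (1 : Matrix c c (MonoidAlgebra ℤ Γ)) = 1 := by
  refine Matrix.ext fun a b => ?_
  show gst ((1 : Matrix c c (MonoidAlgebra ℤ Γ)) b a) = _
  rw [Matrix.one_apply, Matrix.one_apply]
  by_cases h : a = b
  · subst h; simp [gst_one]
  · rw [if_neg h, if_neg (Ne.symm h), gst_zero]

/-- The external product of two matrices. -/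
noncomputable def K (P : Matrix c c (MonoidAlgebra ℤ Γ)) (P' : Matrix c' c' (MonoidAlgebra ℤ Γ')) :
    Matrix (c × c') (c × c') (MonoidAlgebra ℤ (Γ × Γ')) :=
  fun a b => i1 (P a.1 b.1) * i2 (P' a.2 b.2)

theorem K_mul (P R : Matrix c c (MonoidAlgebra ℤ Γ)) (P' R' : Matrix c' c' (MonoidAlgebra ℤ Γ')) :
    K P P' * K R R' = K (P * R) (P' * R') := by
  refine Matrix.ext fun a b => ?_
  rw [Matrix.mul_apply]
  show ∑ d : c × c', (i1 (P a.1 d.1) * i2 (P' a.2 d.2)) * (i1 (R d.1 b.1) * i2 (R' d.2 b.2))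
    = i1 ((P * R) a.1 b.1) * i2 ((P' * R') a.2 b.2)
  rw [Matrix.mul_apply, Matrix.mul_apply, map_sum, map_sum, Finset.sum_mul_sum,
    Fintype.sum_prod_type]
  refine Finset.sum_congr rfl fun d _ => Finset.sum_congr rfl fun d' _ => ?_
  rw [map_mul, map_mul, mul_assoc, ← mul_assoc (i2 (P' a.2 d')), ← i1_i2_comm, mul_assoc,
    mul_assoc]

theorem K_add_left (P R : Matrix c c (MonoidAlgebra ℤ Γ)) (P' : Matrix c' c' (MonoidAlgebra ℤ Γ')) :
    K (P + R) P' = K P P' + K R P' := by
  refine Matrix.ext fun a b => ?_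
  show i1 (P a.1 b.1 + R a.1 b.1) * i2 (P' a.2 b.2) = _
  rw [map_add, add_mul]; rfl

theorem K_add_right (P : Matrix c c (MonoidAlgebra ℤ Γ))
    (P' R' : Matrix c' c' (MonoidAlgebra ℤ Γ')) : K P (P' + R') = K P P' + K P R' := by
  refine Matrix.ext fun a b => ?_
  show i1 (P a.1 b.1) * i2 (P' a.2 b.2 + R' a.2 b.2) = _
  rw [map_add, mul_add]; rfl

theorem K_zero_left (P' : Matrix c' c' (MonoidAlgebra ℤ Γ')) :
    K (0 : Matrix c c (MonoidAlgebra ℤ Γ)) P' = 0 := by
  refine Matrix.ext fun a b => ?_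
  show i1 (0 : MonoidAlgebra ℤ Γ) * i2 (P' a.2 b.2) = 0
  rw [map_zero, zero_mul]

theorem K_zero_right (P : Matrix c c (MonoidAlgebra ℤ Γ)) :
    K P (0 : Matrix c' c' (MonoidAlgebra ℤ Γ')) = 0 := by
  refine Matrix.ext fun a b => ?_
  show i1 (P a.1 b.1) * i2 (0 : MonoidAlgebra ℤ Γ') = 0
  rw [map_zero, mul_zero]

theorem K_one : K (1 : Matrix c c (MonoidAlgebra ℤ Γ)) (1 : Matrix c' c' (MonoidAlgebra ℤ Γ'))
    = 1 := by
  refine Matrix.ext fun a b => ?_
  show i1 ((1 : Matrix c c (MonoidAlgebra ℤ Γ)) a.1 b.1)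
    * i2 ((1 : Matrix c' c' (MonoidAlgebra ℤ Γ')) a.2 b.2) = _
  rw [Matrix.one_apply, Matrix.one_apply, Matrix.one_apply]
  by_cases h1 : a.1 = b.1 <;> by_cases h2 : a.2 = b.2
  · rw [if_pos h1, if_pos h2, if_pos (Prod.ext h1 h2), map_one, map_one, mul_one]
  · have h3 : ¬ a = b := fun h => h2 (congrArg Prod.snd h)
    rw [if_neg h2, if_neg h3, map_zero, mul_zero]
  · have h3 : ¬ a = b := fun h => h1 (congrArg Prod.fst h)
    rw [if_neg h1, if_neg h3, map_zero, zero_mul]
  · have h3 : ¬ a = b := fun h => h1 (congrArg Prod.fst h)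
    rw [if_neg h1, if_neg h3, map_zero, zero_mul]

theorem adj_K (P : Matrix c c (MonoidAlgebra ℤ Γ)) (P' : Matrix c' c' (MonoidAlgebra ℤ Γ')) :
    adj (K P P') = K (adj P) (adj P') := by
  refine Matrix.ext fun a b => ?_
  show gst (i1 (P b.1 a.1) * i2 (P' b.2 a.2)) = i1 (gst (P b.1 a.1)) * i2 (gst (P' b.2 a.2))
  rw [gst_mul, gst_i1, gst_i2, i1_i2_comm]

theorem K_pow_left (P : Matrix c c (MonoidAlgebra ℤ Γ)) (n : ℕ) :
    (K P (1 : Matrix c' c' (MonoidAlgebra ℤ Γ'))) ^ n = K (P ^ n) 1 := by
  induction n with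
  | zero => rw [pow_zero, pow_zero, K_one]
  | succ n ih => rw [pow_succ, ih, K_mul, pow_succ, one_mul]

theorem K_pow_right (P' : Matrix c' c' (MonoidAlgebra ℤ Γ')) (n : ℕ) :
    (K (1 : Matrix c c (MonoidAlgebra ℤ Γ)) P') ^ n = K 1 (P' ^ n) := by
  induction n with
  | zero => rw [pow_zero, pow_zero, K_one]
  | succ n ih => rw [pow_succ, ih, K_mul, pow_succ, one_mul]

theorem K_add_pow (P : Matrix c c (MonoidAlgebra ℤ Γ)) (P' : Matrix c' c' (MonoidAlgebra ℤ Γ'))
    (n : ℕ) : (K P 1 + K 1 P') ^ n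
      = ∑ m ∈ Finset.range (n + 1), (n.choose m) • K (P ^ m) (P' ^ (n - m)) := by
  have hc : Commute (K P (1 : Matrix c' c' (MonoidAlgebra ℤ Γ')))
      (K (1 : Matrix c c (MonoidAlgebra ℤ Γ)) P') := by
    show _ * _ = _ * _
    rw [K_mul, K_mul, one_mul, one_mul, mul_one, mul_one]
  rw [hc.add_pow]
  refine Finset.sum_congr rfl fun m _ => ?_
  rw [K_pow_left, K_pow_right, K_mul, one_mul, mul_one, nsmul_eq_mul]
  exact (Nat.cast_commute _ _).symm.eq

/-- The weighted trace `Σ_a w(a) tr(P_aa)`. -/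
noncomputable def wtr (w : c → ℤ) (P : Matrix c c (MonoidAlgebra ℤ Γ)) : ℤ :=
  ∑ a, w a * gtr (P a a)

theorem wtr_add (w : c → ℤ) (P R : Matrix c c (MonoidAlgebra ℤ Γ)) :
    wtr w (P + R) = wtr w P + wtr w R := by
  unfold wtr
  rw [← Finset.sum_add_distrib]
  refine Finset.sum_congr rfl fun a _ => ?_
  rw [Matrix.add_apply, gtr_add]; ring

theorem wtr_zero (w : c → ℤ) : wtr w (0 : Matrix c c (MonoidAlgebra ℤ Γ)) = 0 := by
  unfold wtr
  exact Finset.sum_eq_zero fun a _ => by rw [Matrix.zero_apply, gtr_zero, mul_zero]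

theorem wtr_nsmul (w : c → ℤ) (n : ℕ) (P : Matrix c c (MonoidAlgebra ℤ Γ)) :
    wtr w (n • P) = n * wtr w P := by
  induction n with
  | zero => simp [wtr_zero]
  | succ n ih => rw [succ_nsmul, wtr_add, ih]; push_cast; ring

theorem wtr_sum (w : c → ℤ) {ι : Type} (s : Finset ι) (f : ι → Matrix c c (MonoidAlgebra ℤ Γ)) :
    wtr w (∑ i ∈ s, f i) = ∑ i ∈ s, wtr w (f i) := by
  classical
  induction s using Finset.induction_on with
  | empty => simp [wtr_zero]
  | insert i s hi ih => rw [Finset.sum_insert hi, Finset.sum_insert hi, wtr_add, ih]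

end matrices

end Pool.Agent.Helper183_TG
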