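import Pool.Agent.Helper183_TG.Ecx

/-!
# Asphericity

The cellular chain complex of the universal cover as a complex of free abelian groups, and its
contractibility; it is inherited by products.
-/

open MonoidAlgebra

set_option linter.unusedSectionVars false

namespace Pool.Agent.Helper183_TG

namespace ECx

variable {Γ Γ' : Type} [Group Γ] [Group Γ']

/-- The cellular chain group of the universal cover: the free abelian group on the cells, which are
the pairs (cell, group element). -/
abbrev UC (E : ECx Γ) : Type := (E.cell × Γ) →₀ ℤ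

/-- The boundary of the cell `(b, g)` of the universal cover: the sum of all
`(bd a b)(h) · (a, h g)`. -/
noncomputable def ub (E : ECx Γ) (c : E.cell × Γ) : E.UC :=
  ∑ a, (E.bd a c.1).coeff.mapDomain (fun h => (a, h * c.2))

/-- The boundary operator of the universal cover. -/
noncomputable def ud (E : ECx Γ) : E.UC →+ E.UC :=
  (Finsupp.linearCombination ℤ E.ub).toAddMonoidHom

/-- The augmentation: the sum of the coefficients at the vertices. -/
noncomputable def aug (E : ECx Γ) : E.UC →+ ℤ :=
  (Finsupp.linearCombination ℤ (fun c => if E.deg c.1 = 0 then (1 : ℤ) else 0)).toAddMonoidHom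

/-- The augmented cellular chain complex of the universal cover is contractible as a complex of
abelian groups: there are a 0-chain `v` of augmentation `1` and a homotopy `s` of degree one with
`∂s + s∂ = 1 - ε(·)v`.  As the chain groups are free, this says that the universal cover has the
homology of a point; for the cellular chain complex of a simply connected space it says that the
space is contractible. -/
def Aspherical (E : ECx Γ) : Prop :=
  (∀ x, E.aug (E.ud x) = 0) ∧
  ∃ (s : E.UC →+ E.UC) (v : E.UC),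
    (∀ c d, s (Finsupp.single c 1) d ≠ 0 → E.deg d.1 = E.deg c.1 + 1) ∧
    (∀ d, v d ≠ 0 → E.deg d.1 = 0) ∧ E.aug v = 1 ∧
    ∀ x, E.ud (s x) + s (E.ud x) = x - E.aug x • v

theorem ub_apply (E : ECx Γ) (b : E.cell) (g : Γ) (a : E.cell) (k : Γ) :
    E.ub (b, g) (a, k) = (E.bd a b).coeff (k * g⁻¹) := by
  classical
  unfold ub
  rw [Finsupp.finsetSum_apply, Finset.sum_eq_single a]
  · have hinj : Function.Injective (fun h : Γ => (a, h * g)) := by
      intro h h' hh
      exact mul_right_cancel (Prod.mk.inj hh).2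
    have h1 := Finsupp.mapDomain_apply hinj (E.bd a b).coeff (k * g⁻¹)
    rw [inv_mul_cancel_right] at h1
    exact h1
  · intro a' _ ha'
    apply Finsupp.mapDomain_of_notMem_range
    rintro ⟨h, hh⟩
    exact ha' (Prod.mk.inj hh).1
  · intro h; exact absurd (Finset.mem_univ a) h

theorem ud_single (E : ECx Γ) (c : E.cell × Γ) (r : ℤ) :
    E.ud (Finsupp.single c r) = r • E.ub c := Finsupp.linearCombination_single ℤ r c

theorem aug_single (E : ECx Γ) (c : E.cell × Γ) (r : ℤ) :
    E.aug (Finsupp.single c r) = if E.deg c.1 = 0 then r else 0 := by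
  have h : E.aug (Finsupp.single c r) = r • (if E.deg c.1 = 0 then (1 : ℤ) else 0) :=
    Finsupp.linearCombination_single ℤ r c
  rw [h]
  split <;> simp

/-- The sign operator. -/
noncomputable def sg (E : ECx Γ) : E.UC →+ E.UC :=
  (Finsupp.linearCombination ℤ
    (fun c => (Finsupp.single c ((-1 : ℤ) ^ (E.deg c.1)) : E.UC))).toAddMonoidHom

theorem sg_single (E : ECx Γ) (c : E.cell × Γ) (r : ℤ) :
    E.sg (Finsupp.single c r) = Finsupp.single c ((-1 : ℤ) ^ (E.deg c.1) * r) := by
  have h : E.sg (Finsupp.single c r)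
      = r • (Finsupp.single c ((-1 : ℤ) ^ (E.deg c.1)) : E.UC) :=
    Finsupp.linearCombination_single ℤ r c
  rw [h, Finsupp.smul_single, smul_eq_mul, mul_comm]

theorem sg_apply (E : ECx Γ) (x : E.UC) (c : E.cell × Γ) :
    E.sg x c = (-1 : ℤ) ^ (E.deg c.1) * x c := by
  classical
  induction x using Finsupp.induction_linear with
  | zero => simp
  | add a b ha hb => rw [map_add, Finsupp.add_apply, ha, hb, Finsupp.add_apply]; ring
  | single d r =>
    rw [sg_single, Finsupp.single_apply, Finsupp.single_apply]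
    by_cases h : d = c
    · subst h; simp
    · simp [h]

/-- The external product of chains. -/
noncomputable def tp (E : ECx Γ) (F : ECx Γ') (x : E.UC) (y : F.UC) : (E.prod F).UC :=
  Finsupp.equivMapDomain (Equiv.prodProdProdComm E.cell Γ F.cell Γ')
    (finsuppTensorFinsupp' ℤ (E.cell × Γ) (F.cell × Γ') (x ⊗ₜ[ℤ] y))

theorem tp_apply (E : ECx Γ) (F : ECx Γ') (x : E.UC) (y : F.UC) (a : E.cell) (b : F.cell)
    (g : Γ) (h : Γ') : tp E F x y ((a, b), (g, h)) = x (a, g) * y (b, h) :=
  finsuppTensorFinsupp'_apply_apply ℤ _ _ x y (a, g) (b, h)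

theorem tp_add_left (E : ECx Γ) (F : ECx Γ') (x x' : E.UC) (y : F.UC) :
    tp E F (x + x') y = tp E F x y + tp E F x' y := by
  ext ⟨⟨a, b⟩, ⟨g, h⟩⟩
  rw [Finsupp.add_apply, tp_apply, tp_apply, tp_apply, Finsupp.add_apply]; ring

theorem tp_add_right (E : ECx Γ) (F : ECx Γ') (x : E.UC) (y y' : F.UC) :
    tp E F x (y + y') = tp E F x y + tp E F x y' := by
  ext ⟨⟨a, b⟩, ⟨g, h⟩⟩
  rw [Finsupp.add_apply, tp_apply, tp_apply, tp_apply, Finsupp.add_apply]; ring

theorem tp_sub_left (E : ECx Γ) (F : ECx Γ') (x x' : E.UC) (y : F.UC) :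
    tp E F (x - x') y = tp E F x y - tp E F x' y := by
  ext ⟨⟨a, b⟩, ⟨g, h⟩⟩
  rw [Finsupp.sub_apply, tp_apply, tp_apply, tp_apply, Finsupp.sub_apply]; ring

theorem tp_sub_right (E : ECx Γ) (F : ECx Γ') (x : E.UC) (y y' : F.UC) :
    tp E F x (y - y') = tp E F x y - tp E F x y' := by
  ext ⟨⟨a, b⟩, ⟨g, h⟩⟩
  rw [Finsupp.sub_apply, tp_apply, tp_apply, tp_apply, Finsupp.sub_apply]; ring

theorem tp_zero_left (E : ECx Γ) (F : ECx Γ') (y : F.UC) : tp E F 0 y = 0 := by
  ext ⟨⟨a, b⟩, ⟨g, h⟩⟩
  rw [tp_apply]; simp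

theorem tp_zero_right (E : ECx Γ) (F : ECx Γ') (x : E.UC) : tp E F x 0 = 0 := by
  ext ⟨⟨a, b⟩, ⟨g, h⟩⟩
  rw [tp_apply]; simp

theorem tp_smul_left (E : ECx Γ) (F : ECx Γ') (r : ℤ) (x : E.UC) (y : F.UC) :
    tp E F (r • x) y = r • tp E F x y := by
  ext ⟨⟨a, b⟩, ⟨g, h⟩⟩
  rw [Finsupp.smul_apply, tp_apply, tp_apply, Finsupp.smul_apply, smul_eq_mul, smul_eq_mul]; ring

theorem tp_smul_right (E : ECx Γ) (F : ECx Γ') (r : ℤ) (x : E.UC) (y : F.UC) :
    tp E F x (r • y) = r • tp E F x y := by
  ext ⟨⟨a, b⟩, ⟨g, h⟩⟩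
  rw [Finsupp.smul_apply, tp_apply, tp_apply, Finsupp.smul_apply, smul_eq_mul, smul_eq_mul]; ring

theorem tp_single (E : ECx Γ) (F : ECx Γ') (a : E.cell) (b : F.cell) (g : Γ) (h : Γ')
    (r r' : ℤ) : tp E F (Finsupp.single (a, g) r) (Finsupp.single (b, h) r')
      = Finsupp.single ((a, b), (g, h)) (r * r') := by
  classical
  ext ⟨⟨a2, b2⟩, ⟨g2, h2⟩⟩
  rw [tp_apply, Finsupp.single_apply, Finsupp.single_apply, Finsupp.single_apply]
  by_cases h1 : (a, g) = (a2, g2) <;> by_cases h3 : (b, h) = (b2, h2)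
  · have h4 : ((a, b), (g, h)) = ((a2, b2), (g2, h2)) := by
      rw [(Prod.mk.inj h1).1, (Prod.mk.inj h1).2, (Prod.mk.inj h3).1, (Prod.mk.inj h3).2]
    rw [if_pos h1, if_pos h3, if_pos h4]
  · have h4 : ¬ ((a, b), (g, h)) = ((a2, b2), (g2, h2)) := by
      intro h5
      apply h3
      have h6 := Prod.mk.inj h5
      exact Prod.ext (Prod.mk.inj h6.1).2 (Prod.mk.inj h6.2).2
    rw [if_neg h3, if_neg h4, mul_zero]
  · have h4 : ¬ ((a, b), (g, h)) = ((a2, b2), (g2, h2)) := by
      intro h5
      apply h1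
      have h6 := Prod.mk.inj h5
      exact Prod.ext (Prod.mk.inj h6.1).1 (Prod.mk.inj h6.2).1
    rw [if_neg h1, if_neg h4, zero_mul]
  · have h4 : ¬ ((a, b), (g, h)) = ((a2, b2), (g2, h2)) := by
      intro h5
      apply h1
      have h6 := Prod.mk.inj h5
      exact Prod.ext (Prod.mk.inj h6.1).1 (Prod.mk.inj h6.2).1
    rw [if_neg h1, if_neg h4, zero_mul]

theorem coeff_one_mat (F : ECx Γ') (a b : F.cell) (g h : Γ') :
    ((1 : Matrix F.cell F.cell (MonoidAlgebra ℤ Γ')) a b).coeff (h * g⁻¹)
      = (Finsupp.single (b, g) (1 : ℤ) : F.UC) (a, h) := by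
  classical
  rw [Matrix.one_apply, Finsupp.single_apply]
  by_cases h2 : a = b
  · rw [if_pos h2, one_def, coeff_single, Finsupp.single_apply]
    have : (1 = h * g⁻¹) ↔ ((b, g) = (a, h)) := by
      rw [Prod.mk.injEq]
      constructor
      · intro h3; exact ⟨h2.symm, (mul_inv_eq_one.mp h3.symm).symm⟩
      · rintro ⟨_, h3⟩; rw [h3, mul_inv_cancel]
    simp only [this]
  · have h3 : ¬ ((b, g) = (a, h)) := fun h => h2 (Prod.mk.inj h).1.symm
    rw [if_neg h2, if_neg h3]
    rfl

theorem coeff_eps_mat (E : ECx Γ) (a b : E.cell) (g h : Γ) :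
    (E.eps a b).coeff (h * g⁻¹)
      = (Finsupp.single (b, g) ((-1 : ℤ) ^ (E.deg b)) : E.UC) (a, h) := by
  classical
  unfold eps
  rw [Matrix.diagonal_apply, Finsupp.single_apply]
  by_cases h2 : a = b
  · rw [if_pos h2]
    have h4 : (((-1) ^ (E.deg a) : MonoidAlgebra ℤ Γ))
        = single 1 ((-1 : ℤ) ^ (E.deg a)) := by
      rcases Nat.even_or_odd (E.deg a) with h5 | h5
      · rw [h5.neg_one_pow, h5.neg_one_pow]; rfl
      · rw [h5.neg_one_pow, h5.neg_one_pow, one_def, single_neg]
    rw [h4, coeff_single, Finsupp.single_apply]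
    have : (1 = h * g⁻¹) ↔ ((b, g) = (a, h)) := by
      rw [Prod.mk.injEq]
      constructor
      · intro h3; exact ⟨h2.symm, (mul_inv_eq_one.mp h3.symm).symm⟩
      · rintro ⟨_, h3⟩; rw [h3, mul_inv_cancel]
    simp only [this, h2]
  · have h3 : ¬ ((b, g) = (a, h)) := fun h => h2 (Prod.mk.inj h).1.symm
    rw [if_neg h2, if_neg h3]
    rfl

theorem ud_tp (E : ECx Γ) (F : ECx Γ') (x : E.UC) (y : F.UC) :
    (E.prod F).ud (tp E F x y) = tp E F (E.ud x) y + tp E F (E.sg x) (F.ud y) := by
  classical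
  induction x using Finsupp.induction_linear with
  | zero => simp [tp_zero_left]
  | add a b ha hb =>
    rw [tp_add_left, map_add, ha, hb, map_add, map_add, tp_add_left, tp_add_left]
    abel
  | single c r =>
    induction y using Finsupp.induction_linear with
    | zero => simp [tp_zero_right]
    | add a b ha hb =>
      rw [tp_add_right, map_add, ha, hb, map_add, tp_add_right, tp_add_right]
      abel
    | single d r' =>
      obtain ⟨b, g⟩ := c
      obtain ⟨b', g'⟩ := d
      rw [tp_single, ud_single, ud_single, ud_single, sg_single]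
      ext ⟨⟨a, a'⟩, ⟨k, k'⟩⟩
      rw [Finsupp.add_apply, tp_apply, tp_apply, Finsupp.smul_apply, Finsupp.smul_apply,
        Finsupp.smul_apply, smul_eq_mul, smul_eq_mul, smul_eq_mul, ub_apply, ub_apply, ub_apply]
      have h0 : (E.prod F).bd (a, a') (b, b')
          = i1 (E.bd a b) * i2 ((1 : Matrix F.cell F.cell _) a' b')
            + i1 (E.eps a b) * i2 (F.bd a' b') := rfl
      have hw : ((k, k') * (g, g')⁻¹ : Γ × Γ') = (k * g⁻¹, k' * g'⁻¹) := rfl
      rw [h0, hw, coeff_add, Finsupp.add_apply, coeff_i1_i2, coeff_i1_i2, coeff_one_mat,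
        coeff_eps_mat]
      have e1 : (Finsupp.single (b', g') r' : F.UC) (a', k')
          = r' * (Finsupp.single (b', g') (1 : ℤ) : F.UC) (a', k') := by
        rw [Finsupp.single_apply, Finsupp.single_apply]
        split <;> simp
      have e2 : (Finsupp.single (b, g) ((-1 : ℤ) ^ (E.deg b) * r) : E.UC) (a, k)
          = r * (Finsupp.single (b, g) ((-1 : ℤ) ^ (E.deg b)) : E.UC) (a, k) := by
        rw [Finsupp.single_apply, Finsupp.single_apply]
        split
        · ring
        · simp
      rw [e1, e2]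
      ring

theorem aug_tp (E : ECx Γ) (F : ECx Γ') (x : E.UC) (y : F.UC) :
    (E.prod F).aug (tp E F x y) = E.aug x * F.aug y := by
  induction x using Finsupp.induction_linear with
  | zero => simp [tp_zero_left]
  | add a b ha hb => rw [tp_add_left, map_add, ha, hb, map_add]; ring
  | single c r =>
    induction y using Finsupp.induction_linear with
    | zero => simp [tp_zero_right]
    | add a b ha hb => rw [tp_add_right, map_add, ha, hb, map_add]; ring
    | single d r' =>
      obtain ⟨b, g⟩ := c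
      obtain ⟨b', g'⟩ := d
      rw [tp_single, aug_single, aug_single, aug_single]
      show (if E.deg b + F.deg b' = 0 then r * r' else 0) = _
      by_cases h1 : E.deg b = 0 <;> by_cases h2 : F.deg b' = 0 <;> simp [h1, h2]

theorem ud_deg_zero (E : ECx Γ) (v : E.UC) (hv : ∀ d, v d ≠ 0 → E.deg d.1 = 0) :
    E.ud v = 0 := by
  have h0 : E.ud v = v.sum fun c r => r • E.ub c := rfl
  rw [h0, Finsupp.sum]
  refine Finset.sum_eq_zero fun c hc => ?_
  have h1 := hv c (Finsupp.mem_support_iff.mp hc)
  have h2 : E.ub c = 0 := by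
    ext ⟨a, k⟩
    obtain ⟨b, g⟩ := c
    rw [ub_apply]
    have h3 : E.bd a b = 0 := by
      by_contra h4
      have := E.hdeg a b h4
      simp only at h1
      omega
    rw [h3]; rfl
  rw [h2, smul_zero]

theorem sg_deg_zero (E : ECx Γ) (v : E.UC) (hv : ∀ d, v d ≠ 0 → E.deg d.1 = 0) :
    E.sg v = v := by
  ext c
  rw [sg_apply]
  by_cases h : v c = 0
  · rw [h, mul_zero]
  · rw [hv c h]; simp

theorem aug_sg (E : ECx Γ) (x : E.UC) : E.aug (E.sg x) = E.aug x := by
  induction x using Finsupp.induction_linear with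
  | zero => simp
  | add a b ha hb => rw [map_add, map_add, ha, hb, map_add]
  | single c r =>
    rw [sg_single, aug_single, aug_single]
    by_cases h : E.deg c.1 = 0
    · rw [if_pos h, if_pos h, h]; simp
    · rw [if_neg h, if_neg h]

theorem s_single {E : ECx Γ} (s : E.UC →+ E.UC) (c : E.cell × Γ) (r : ℤ) :
    s (Finsupp.single c r) = r • s (Finsupp.single c 1) := by
  rw [← map_zsmul, Finsupp.smul_single, smul_eq_mul, mul_one]

theorem sg_s (E : ECx Γ) (s : E.UC →+ E.UC)
    (hs : ∀ c d, s (Finsupp.single c 1) d ≠ 0 → E.deg d.1 = E.deg c.1 + 1) (x : E.UC) :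
    E.sg (s x) + s (E.sg x) = 0 := by
  induction x using Finsupp.induction_linear with
  | zero => simp
  | add a b ha hb =>
    rw [map_add, map_add, map_add, map_add]
    calc _ = (E.sg (s a) + s (E.sg a)) + (E.sg (s b) + s (E.sg b)) := by abel
      _ = 0 := by rw [ha, hb, add_zero]
  | single c r =>
    rw [sg_single, s_single s c r, s_single s c ((-1) ^ (E.deg c.1) * r), map_zsmul]
    ext d
    rw [Finsupp.add_apply, Finsupp.smul_apply, Finsupp.smul_apply, sg_apply, smul_eq_mul,
      smul_eq_mul, Finsupp.zero_apply]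
    by_cases h : s (Finsupp.single c 1) d = 0
    · rw [h]; ring
    · rw [hs c d h, pow_succ]; ring

/-- The homotopy of a product. -/
noncomputable def hS (E : ECx Γ) (F : ECx Γ') (s : E.UC →+ E.UC) (v : E.UC)
    (s' : F.UC →+ F.UC) : (E.prod F).UC →+ (E.prod F).UC :=
  (Finsupp.linearCombination ℤ (fun c : (E.cell × F.cell) × (Γ × Γ') =>
    tp E F (s (Finsupp.single (c.1.1, c.2.1) 1)) (Finsupp.single (c.1.2, c.2.2) 1)
      + tp E F (E.aug (Finsupp.single (c.1.1, c.2.1) 1) • v)
        (s' (Finsupp.single (c.1.2, c.2.2) 1)))).toAddMonoidHom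

theorem hS_single (E : ECx Γ) (F : ECx Γ') (s : E.UC →+ E.UC) (v : E.UC)
    (s' : F.UC →+ F.UC) (a : E.cell) (b : F.cell) (g : Γ) (h : Γ') (r : ℤ) :
    hS E F s v s' (Finsupp.single ((a, b), (g, h)) r)
      = r • (tp E F (s (Finsupp.single (a, g) 1)) (Finsupp.single (b, h) 1)
      + tp E F (E.aug (Finsupp.single (a, g) 1) • v) (s' (Finsupp.single (b, h) 1))) :=
  Finsupp.linearCombination_single ℤ r ((a, b), (g, h))

theorem hS_tp (E : ECx Γ) (F : ECx Γ') (s : E.UC →+ E.UC) (v : E.UC)
    (s' : F.UC →+ F.UC) (x : E.UC) (y : F.UC) :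
    hS E F s v s' (tp E F x y) = tp E F (s x) y + tp E F (E.aug x • v) (s' y) := by
  induction x using Finsupp.induction_linear with
  | zero => simp [tp_zero_left]
  | add a b ha hb =>
    rw [tp_add_left, map_add, ha, hb, map_add, map_add, add_smul, tp_add_left, tp_add_left]
    abel
  | single c r =>
    induction y using Finsupp.induction_linear with
    | zero => simp [tp_zero_right]
    | add a b ha hb =>
      rw [tp_add_right, map_add, ha, hb, map_add, tp_add_right, tp_add_right]
      abel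
    | single d r' =>
      obtain ⟨b, g⟩ := c
      obtain ⟨b', g'⟩ := d
      rw [tp_single, hS_single, s_single s (b, g) r, s_single s' (b', g') r', aug_single,
        aug_single]
      ext ⟨⟨a, a'⟩, ⟨k, k'⟩⟩
      rw [Finsupp.smul_apply, Finsupp.add_apply, Finsupp.add_apply, tp_apply, tp_apply, tp_apply,
        tp_apply, Finsupp.smul_apply, Finsupp.smul_apply, Finsupp.smul_apply, Finsupp.smul_apply,
        smul_eq_mul, smul_eq_mul, smul_eq_mul, smul_eq_mul, smul_eq_mul]
      have e1 : (Finsupp.single (b', g') r' : F.UC) (a', k')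
          = r' * (Finsupp.single (b', g') (1 : ℤ) : F.UC) (a', k') := by
        classical
        rw [Finsupp.single_apply, Finsupp.single_apply]
        split <;> simp
      rw [e1]
      split <;> ring

/-- The product of two aspherical complexes is aspherical. -/
theorem Aspherical.prod {E : ECx Γ} {F : ECx Γ'} (hE : E.Aspherical) (hF : F.Aspherical) :
    (E.prod F).Aspherical := by
  classical
  obtain ⟨hE1, s, v, hs, hv, hav, hh⟩ := hE
  obtain ⟨hF1, s', v', hs', hv', hav', hh'⟩ := hF
  have ind : ∀ (P : (E.prod F).UC → Prop), P 0 → (∀ x y, P x → P y → P (x + y)) →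
      (∀ (x : E.UC) (y : F.UC), P (tp E F x y)) → ∀ z, P z := by
    intro P h0 ha ht z
    induction z using Finsupp.induction_linear with
    | zero => exact h0
    | add a b hxa hxb => exact ha _ _ hxa hxb
    | single c r =>
      obtain ⟨⟨a, b⟩, ⟨g, h⟩⟩ := c
      have e := tp_single E F a b g h r 1
      rw [mul_one] at e
      rw [← e]
      exact ht _ _
  refine ⟨?_, hS E F s v s', tp E F v v', ?_, ?_, ?_, ?_⟩
  · apply ind
    · rw [map_zero, map_zero]
    · intro x y hx hy; rw [map_add, map_add, hx, hy, add_zero]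
    · intro x y
      rw [ud_tp, map_add, aug_tp, aug_tp, hE1, hF1, zero_mul, mul_zero, add_zero]
  · rintro ⟨⟨a, b⟩, ⟨g, h⟩⟩ ⟨⟨a2, b2⟩, ⟨g2, h2⟩⟩ hne
    rw [hS_single, one_smul, Finsupp.add_apply, tp_apply, tp_apply, Finsupp.smul_apply,
      smul_eq_mul, aug_single] at hne
    show E.deg a2 + F.deg b2 = E.deg a + F.deg b + 1
    by_cases h1 : s (Finsupp.single (a, g) 1) (a2, g2) * (Finsupp.single (b, h) (1 : ℤ)) (b2, h2) = 0
    · rw [h1, zero_add] at hne
      have h3 := left_ne_zero_of_mul hne
      have h4 := right_ne_zero_of_mul hne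
      have h5 := left_ne_zero_of_mul h3
      have h6 := right_ne_zero_of_mul h3
      have h7 : E.deg a = 0 := by
        by_contra h8; exact h5 (if_neg h8)
      have h8 := hv _ h6
      have h9 := hs' _ _ h4
      simp only at h8 h9
      omega
    · have h3 := left_ne_zero_of_mul h1
      have h4 := right_ne_zero_of_mul h1
      have h5 := hs _ _ h3
      have h6 : (b, h) = (b2, h2) := by
        by_contra h7
        rw [Finsupp.single_apply, if_neg h7] at h4
        exact h4 rfl
      have h7 := (Prod.mk.inj h6).1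
      simp only at h5
      rw [← h7]
      omega
  · rintro ⟨⟨a2, b2⟩, ⟨g2, h2⟩⟩ hne
    rw [tp_apply] at hne
    have h3 := hv _ (left_ne_zero_of_mul hne)
    have h4 := hv' _ (right_ne_zero_of_mul hne)
    show E.deg a2 + F.deg b2 = 0
    simp only at h3 h4
    omega
  · rw [aug_tp, hav, hav', mul_one]
  · apply ind
    · simp
    · intro x y hx hy
      rw [map_add, map_add, map_add, map_add, map_add, add_smul]
      calc _ = ((E.prod F).ud (hS E F s v s' x) + hS E F s v s' ((E.prod F).ud x))
            + ((E.prod F).ud (hS E F s v s' y) + hS E F s v s' ((E.prod F).ud y)) := by abel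
        _ = _ := by rw [hx, hy]; abel
    · intro x y
      rw [hS_tp, ud_tp, map_add, map_add, hS_tp, hS_tp, ud_tp, ud_tp, aug_tp, aug_sg, hE1]
      have hud : E.ud (E.aug x • v) = 0 := by rw [map_zsmul, ud_deg_zero E v hv, smul_zero]
      have hsg : E.sg (E.aug x • v) = E.aug x • v := by rw [map_zsmul, sg_deg_zero E v hv]
      rw [hud, hsg, zero_smul, tp_zero_left, zero_add, add_zero]
      have e1 : tp E F (E.ud (s x)) y + tp E F (s (E.ud x)) y
          = tp E F x y - tp E F (E.aug x • v) y := by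
        rw [← tp_add_left, hh, tp_sub_left]
      have e2 : tp E F (E.sg (s x)) (F.ud y) + tp E F (s (E.sg x)) (F.ud y) = 0 := by
        rw [← tp_add_left, sg_s E s hs, tp_zero_left]
      have e3 : tp E F (E.aug x • v) (F.ud (s' y)) + tp E F (E.aug x • v) (s' (F.ud y))
          = tp E F (E.aug x • v) y - (E.aug x * F.aug y) • tp E F v v' := by
        rw [← tp_add_right, hh', tp_sub_right, tp_smul_left E F (E.aug x) v (F.aug y • v'),
          tp_smul_right, smul_smul]
      calc _ = (tp E F (E.ud (s x)) y + tp E F (s (E.ud x)) y)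
            + (tp E F (E.sg (s x)) (F.ud y) + tp E F (s (E.sg x)) (F.ud y))
            + (tp E F (E.aug x • v) (F.ud (s' y)) + tp E F (E.aug x • v) (s' (F.ud y))) := by
              abel
        _ = _ := by rw [e1, e2, e3]; abel

end ECx

end Pool.Agent.Helper183_TG
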