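import Pool.Agent.Helper183_TG.Tower

/-!
# The two limit arguments
-/

open Filter Topology

namespace Pool.Agent.Helper183_TG

namespace Cx

variable {X : Cx}

theorem nc_eq_zero {j : ℤ} (h : ∀ c, (X.deg c : ℤ) ≠ j) : X.nc j = 0 := by
  rw [nc, Finset.card_eq_zero, Finset.filter_eq_empty_iff]
  intro c _; exact h c

theorem betti_zero {j : ℤ} (h : ∀ c, (X.deg c : ℤ) ≠ j) : X.betti ℤ j = 0 := by
  have h1 := betti_eq (X := X) ℤ j
  rw [nc_eq_zero h] at h1
  omega

section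
variable (R : Type) [CommRing R] [IsDomain R] [IsPrincipalIdealRing R]
theorem rkB_zero_left {j : ℤ} (h : ∀ c, (X.deg c : ℤ) ≠ j) : X.rkB R j = 0 := by
  have h1 := betti_add (X := X) R j
  have h2 := rank_nullity (X := X) R j
  rw [nc_eq_zero h] at h2
  omega

theorem rkB_zero_right {j : ℤ} (h : ∀ c, (X.deg c : ℤ) ≠ j + 1) : X.rkB R j = 0 := by
  have h2 := rank_nullity (X := X) R (j + 1)
  rw [nc_eq_zero h, add_sub_cancel_right] at h2
  omega
end

/-- The difference of the integral and the mod `p` rank of the boundary map into degree `j`. -/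
noncomputable def sd (X : Cx) (p : ℕ) (j : ℤ) : ℤ := X.rkB ℤ j - X.rkB (ZMod p) j

theorem modp_eq (p : ℕ) [Fact p.Prime] (j : ℤ) :
    (X.betti (ZMod p) j : ℤ) = X.betti ℤ j + X.sd p (j - 1) + X.sd p j := by
  have h1 := betti_eq (X := X) ℤ j
  have h2 := betti_eq (X := X) (ZMod p) j
  unfold sd
  omega

theorem sd_neg (p : ℕ) [Fact p.Prime] {j : ℤ} (hj : j < 0) : X.sd p j = 0 := by
  have h : ∀ c, (X.deg c : ℤ) ≠ j := fun c => by
    have := Int.natCast_nonneg (X.deg c)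
    omega
  rw [sd, rkB_zero_left ℤ h, rkB_zero_left (ZMod p) h]; rfl

theorem sd_top (p : ℕ) [Fact p.Prime] {d : ℕ} (hd : ∀ c, X.deg c ≤ d) {j : ℤ} (hj : (d : ℤ) ≤ j) :
    X.sd p j = 0 := by
  have h : ∀ c, (X.deg c : ℤ) ≠ j + 1 := fun c => by
    have := hd c
    omega
  rw [sd, rkB_zero_right ℤ h, rkB_zero_right (ZMod p) h]; rfl

/-- Poincaré duality over `ℤ` and `𝔽_p` gives duality of the torsion. -/
theorem sd_dual (p : ℕ) [Fact p.Prime] {d : ℕ} (hd : ∀ c, X.deg c ≤ d)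
    (h0 : ∀ j ≤ d, X.betti ℤ j = X.betti ℤ ((d - j : ℕ) : ℤ))
    (hp : ∀ j ≤ d, X.betti (ZMod p) j = X.betti (ZMod p) ((d - j : ℕ) : ℤ)) :
    ∀ j : ℕ, j ≤ d → X.sd p ((j : ℤ) - 1) = X.sd p ((d : ℤ) - j) := by
  intro j
  induction j with
  | zero =>
    intro _
    rw [sd_neg p (by norm_num), sd_top p hd (by simp)]
  | succ j ih =>
    intro hj
    have h1 := ih (by omega)
    have h2 := modp_eq (X := X) p (j : ℤ)
    have h3 := modp_eq (X := X) p ((d - j : ℕ) : ℤ)
    rw [← h0 j (by omega), ← hp j (by omega)] at h3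
    have e1 : (((d - j : ℕ) : ℤ)) = (d : ℤ) - j := by
      rw [Nat.cast_sub (by omega)]
    rw [e1] at h3
    have e2 : (((j + 1 : ℕ) : ℤ) - 1) = (j : ℤ) := by push_cast; ring
    have e3 : ((d : ℤ) - ((j + 1 : ℕ) : ℤ)) = (d : ℤ) - j - 1 := by push_cast; ring
    rw [e2, e3]
    omega

end Cx

namespace Tower

/-- Step A: if the approximation holds for `N` (with `ρ ≠ 0`) and for `A × (A × N)` (with `ρ = 0`)
then `A` is `L²`-acyclic. -/
theorem stepA (A N : Tower) (k₀ : ℕ) (ρ : ℝ) (hρ : ρ ≠ 0) (hN : N.Law k₀ ρ)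
    (hAAN : (A.prod (A.prod N)).Law (A.dim + k₀) 0)
    (dual : ∀ n, ∀ j ≤ A.dim, (A.C n).betti ℤ j = (A.C n).betti ℤ ((A.dim - j : ℕ) : ℤ)) :
    A.Acyclic := by
  intro j
  by_cases hj : 0 ≤ j ∧ j ≤ A.dim
  swap
  · have h0 : ∀ n, (A.C n).betti ℤ j = 0 := by
      intro n
      apply Cx.betti_zero
      intro c hc
      have := A.deg_le n c
      omega
    simp only [h0]
    simp
  obtain ⟨i, rfl⟩ := Int.eq_ofNat_of_zero_le hj.1
  have hi : i ≤ A.dim := by exact_mod_cast hj.2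
  -- the torsion inequality
  have htors : ∀ n, ((A.C n).betti ℤ i : ℝ) ^ 2 * Real.log ((N.C n).tors k₀)
      ≤ Real.log (((A.prod (A.prod N)).C n).tors ((A.dim + k₀ : ℕ) : ℤ)) := by
    intro n
    have h1 := Cx.tors_prod_ge (X := A.C n) (Y := N.C n) (A.dim - i) k₀
    have h2 := Cx.tors_prod_ge (X := A.C n) (Y := (A.C n).prod (N.C n)) i
      (((A.dim - i : ℕ) : ℤ) + k₀)
    have e1 : (i : ℤ) + (((A.dim - i : ℕ) : ℤ) + k₀) = ((A.dim + k₀ : ℕ) : ℤ) := by
      rw [Nat.cast_sub hi]; push_cast; ring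
    rw [e1] at h2
    have h3 : (((N.C n).tors k₀) ^ ((A.C n).betti ℤ ((A.dim - i : ℕ) : ℤ)))
        ^ ((A.C n).betti ℤ i) ≤ ((A.prod (A.prod N)).C n).tors ((A.dim + k₀ : ℕ) : ℤ) :=
      (Nat.pow_le_pow_left h1 _).trans h2
    rw [← dual n i hi, ← pow_mul] at h3
    have hpos : 0 < (N.C n).tors k₀ := by
      have : Nonempty (Submodule.torsion ℤ ((N.C n).H ℤ k₀)) := ⟨0⟩
      exact Nat.card_pos
    have h4 : Real.log (((N.C n).tors k₀ : ℝ) ^ ((A.C n).betti ℤ i * (A.C n).betti ℤ i))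
        ≤ Real.log (((A.prod (A.prod N)).C n).tors ((A.dim + k₀ : ℕ) : ℤ)) := by
      apply Real.log_le_log
      · positivity
      · exact_mod_cast h3
    rw [Real.log_pow] at h4
    push_cast at h4 ⊢
    nlinarith [h4]
  -- the limits
  have hy : Tendsto (fun n => Real.log ((N.C n).tors k₀) / N.idx n) atTop
      (𝓝 ((-1) ^ k₀ * ρ)) := hN
  have hz : Tendsto (fun n => Real.log (((A.prod (A.prod N)).C n).tors ((A.dim + k₀ : ℕ) : ℤ))
      / ((A.idx n : ℝ) * (A.idx n * N.idx n))) atTop (𝓝 0) := by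
    have h1 := hAAN
    unfold Law at h1
    rw [mul_zero] at h1
    refine h1.congr fun n => ?_
    congr 1
    show (((A.idx n * (A.idx n * N.idx n) : ℕ)) : ℝ) = _
    push_cast; ring
  have hy0 : ∀ n, 0 ≤ Real.log ((N.C n).tors k₀) / N.idx n := fun n => by
    have h1 : (0 : ℝ) ≤ Real.log ((N.C n).tors k₀) := Real.log_natCast_nonneg _
    have := N.idx_pos' n
    positivity
  have hc : 0 < (-1 : ℝ) ^ k₀ * ρ := by
    have h1 : 0 ≤ (-1 : ℝ) ^ k₀ * ρ := ge_of_tendsto' hy hy0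
    have h2 : (-1 : ℝ) ^ k₀ * ρ ≠ 0 := mul_ne_zero (pow_ne_zero _ (by norm_num)) hρ
    exact lt_of_le_of_ne h1 h2.symm
  have hq := hz.div hy hc.ne'
  rw [zero_div] at hq
  have hsq : Tendsto (fun n => (((A.C n).betti ℤ i : ℝ) / A.idx n) ^ 2) atTop (𝓝 0) := by
    refine squeeze_zero' (Eventually.of_forall fun n => by positivity) ?_ hq
    filter_upwards [hy.eventually (lt_mem_nhds hc)] with n hn
    have h1 := A.idx_pos' n
    have h2 := N.idx_pos' n
    have h3 : 0 < Real.log ((N.C n).tors k₀) := by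
      by_contra h4
      have h5 : Real.log ((N.C n).tors k₀) / N.idx n ≤ 0 :=
        div_nonpos_of_nonpos_of_nonneg (not_lt.mp h4) h2.le
      linarith
    simp only [Pi.div_apply]
    rw [div_div_eq_mul_div, le_div_iff₀ h3, div_pow, div_mul_eq_mul_div, div_mul_eq_mul_div,
      div_le_div_iff₀ (by positivity) (by positivity)]
    have h6 := htors n
    have h7 : (0 : ℝ) ≤ (A.idx n : ℝ) * (A.idx n * N.idx n) := by positivity
    have h8 := mul_le_mul_of_nonneg_right h6 h7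
    calc ((A.C n).betti ℤ (i : ℤ) : ℝ) ^ 2 * Real.log ((N.C n).tors k₀)
          * ((A.idx n : ℝ) * (A.idx n * N.idx n))
        ≤ _ := h8
      _ = _ := by ring
  have h9 : Tendsto (fun n => Real.sqrt ((((A.C n).betti ℤ i : ℝ) / A.idx n) ^ 2)) atTop
      (𝓝 (Real.sqrt 0)) := (Real.continuous_sqrt.tendsto 0).comp hsq
  rw [Real.sqrt_zero] at h9
  refine h9.congr fun n => ?_
  rw [Real.sqrt_sq (by positivity)]

theorem tendsto_zero_of_pow {u : ℕ → ℝ} (hu : ∀ n, 0 ≤ u n) (m : ℕ) (hm : m ≠ 0)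
    (h : Tendsto (fun n => u n ^ m) atTop (𝓝 0)) : Tendsto u atTop (𝓝 0) := by
  rw [Metric.tendsto_atTop] at h ⊢
  intro ε hε
  obtain ⟨n₀, h0⟩ := h (ε ^ m) (pow_pos hε m)
  refine ⟨n₀, fun n hn => ?_⟩
  have h1 := h0 n hn
  rw [Real.dist_eq, sub_zero, abs_of_nonneg (pow_nonneg (hu n) m)] at h1
  rw [Real.dist_eq, sub_zero, abs_of_nonneg (hu n)]
  exact lt_of_pow_lt_pow_left₀ m hε.le h1

/-- Step B: if `A` is `L²`-acyclic and the approximation holds for `A^{2r+1}` with `ρ = 0`, then the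
mod `p` homology growth of `A` vanishes. -/
theorem stepB (A : Tower) (k r p : ℕ) [Fact p.Prime] (hdim : A.dim = 2 * k + 1) (hr : k ≤ r)
    (hA : A.Acyclic) (hP : (A.pw (2 * r)).Law ((2 * r + 1) * k + r) 0)
    (dual : ∀ n, ∀ j ≤ A.dim, (A.C n).betti ℤ j = (A.C n).betti ℤ ((A.dim - j : ℕ) : ℤ))
    (dualp : ∀ n, ∀ j ≤ A.dim,
      (A.C n).betti (ZMod p) j = (A.C n).betti (ZMod p) ((A.dim - j : ℕ) : ℤ)) (j : ℤ) :
    Tendsto (fun n => ((A.C n).betti (ZMod p) j : ℝ) / A.idx n) atTop (𝓝 0) := by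
  have hp : p.Prime := Fact.out
  have hz : Tendsto (fun n => Real.log (((A.pw (2 * r)).C n).tors (((2 * r + 1) * k + r : ℕ) : ℤ))
      / (A.idx n : ℝ) ^ (2 * r + 1)) atTop (𝓝 0) := by
    have h1 := hP
    unfold Law at h1
    rw [mul_zero] at h1
    refine h1.congr fun n => ?_
    rw [idx_pw]
    push_cast; rfl
  -- the positive part of `sd`
  have hs : ∀ a : ℤ, Tendsto (fun n => ((max ((A.C n).sd p a) 0 : ℤ) : ℝ) / A.idx n) atTop
      (𝓝 0) := by
    intro a
    by_cases ha : 0 ≤ a ∧ a ≤ 2 * k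
    swap
    · have h0 : ∀ n, (A.C n).sd p a = 0 := by
        intro n
        by_cases h1 : a < 0
        · exact Cx.sd_neg p h1
        · refine Cx.sd_top p (d := A.dim) (A.deg_le n) ?_
          rw [hdim]; push_cast; omega
      simp only [h0]
      simp
    obtain ⟨i, rfl⟩ := Int.eq_ofNat_of_zero_le ha.1
    have hi : i ≤ 2 * k := by exact_mod_cast ha.2
    have key : ∀ n, ((max ((A.C n).sd p i) 0 : ℤ) : ℝ) ^ (2 * r + 1) * Real.log p
        ≤ Real.log (((A.pw (2 * r)).C n).tors (((2 * r + 1) * k + r : ℕ) : ℤ)) := by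
      intro n
      obtain ⟨t, ht, ht'⟩ := Cx.exists_sys (A.C n) p i
      obtain ⟨t', hs, hs'⟩ := Cx.exists_sys (A.C n) p (2 * k - i)
      have e1 : (A.C n).sd p ((2 * k - i : ℕ) : ℤ) = (A.C n).sd p i := by
        have h1 := Cx.sd_dual (X := A.C n) p (A.deg_le n) (dual n) (dualp n) (i + 1) (by omega)
        have e2 : (((i + 1 : ℕ) : ℤ) - 1) = (i : ℤ) := by push_cast; ring
        have e3 : ((A.dim : ℤ) - ((i + 1 : ℕ) : ℤ)) = ((2 * k - i : ℕ) : ℤ) := by
          rw [hdim, Nat.cast_sub hi]; push_cast; ring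
        rw [e2, e3] at h1
        exact h1.symm
      have h1 : (A.C n).sd p i ≤ t := by unfold Cx.sd; omega
      have h2 : (A.C n).sd p i ≤ t' := by rw [← e1]; unfold Cx.sd; omega
      have hsys := sys_pw A n p i (2 * k - i) t t' k (by omega) ht hs r (k + r - i) (by omega)
      have e4 : 2 * k * r + i + (k + r - i) = (2 * r + 1) * k + r := by
        have : i ≤ k + r := by omega
        have h5 : 2 * k * r + i + (k + r - i) = 2 * k * r + (k + r) := by omega
        rw [h5]; ring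
      rw [e4] at hsys
      have h3 := hsys.pow_le hp.pos
      have h4 : Real.log ((p : ℝ) ^ (t ^ (r + 1) * t' ^ r))
          ≤ Real.log (((A.pw (2 * r)).C n).tors (((2 * r + 1) * k + r : ℕ) : ℤ)) := by
        apply Real.log_le_log
        · have : (0 : ℝ) < p := by exact_mod_cast hp.pos
          positivity
        · exact_mod_cast h3
      rw [Real.log_pow] at h4
      refine le_trans ?_ h4
      have hlog : 0 ≤ Real.log p := Real.log_natCast_nonneg _
      apply mul_le_mul_of_nonneg_right _ hlog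
      have h5 : ((max ((A.C n).sd p i) 0 : ℤ) : ℝ) ≤ t := by
        exact_mod_cast max_le h1 (Int.natCast_nonneg t)
      have h6 : ((max ((A.C n).sd p i) 0 : ℤ) : ℝ) ≤ t' := by
        exact_mod_cast max_le h2 (Int.natCast_nonneg t')
      have h7 : (0 : ℝ) ≤ ((max ((A.C n).sd p i) 0 : ℤ) : ℝ) := by
        exact_mod_cast le_max_right _ _
      have h8 : 2 * r + 1 = (r + 1) + r := by ring
      rw [h8, pow_add]
      push_cast
      exact mul_le_mul (pow_le_pow_left₀ (by exact_mod_cast h7) (by exact_mod_cast h5) _)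
        (pow_le_pow_left₀ (by exact_mod_cast h7) (by exact_mod_cast h6) _)
        (by positivity) (by positivity)
    refine tendsto_zero_of_pow (fun n => ?_) (2 * r + 1) (by omega) ?_
    · have h7 : (0 : ℝ) ≤ ((max ((A.C n).sd p i) 0 : ℤ) : ℝ) := by
        exact_mod_cast le_max_right _ _
      have := A.idx_pos' n
      positivity
    · have hlog : 0 < Real.log p := Real.log_pos (by exact_mod_cast hp.one_lt)
      have h1 := hz.div_const (Real.log p)
      rw [zero_div] at h1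
      refine squeeze_zero (fun n => ?_) (fun n => ?_) h1
      · have h7 : (0 : ℝ) ≤ ((max ((A.C n).sd p i) 0 : ℤ) : ℝ) := by
          exact_mod_cast le_max_right _ _
        have := A.idx_pos' n
        positivity
      · have h2 := A.idx_pos' n
        rw [div_pow, div_div, div_le_div_iff₀ (by positivity) (by positivity)]
        have h3 := mul_le_mul_of_nonneg_right (key n)
          (show (0 : ℝ) ≤ (A.idx n : ℝ) ^ (2 * r + 1) by positivity)
        linarith [h3]
  have hlim : Tendsto (fun n => ((A.C n).betti ℤ j : ℝ) / A.idx n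
      + ((max ((A.C n).sd p (j - 1)) 0 : ℤ) : ℝ) / A.idx n
      + ((max ((A.C n).sd p j) 0 : ℤ) : ℝ) / A.idx n) atTop (𝓝 0) := by
    have := ((hA j).add (hs (j - 1))).add (hs j)
    simpa using this
  refine squeeze_zero (fun n => by positivity) (fun n => ?_) hlim
  have h2 := A.idx_pos' n
  rw [← add_div, ← add_div]
  apply div_le_div_of_nonneg_right _ h2.le
  have h1 := Cx.modp_eq (X := A.C n) p j
  have h3 : ((A.C n).betti (ZMod p) j : ℤ) ≤ (A.C n).betti ℤ j
      + max ((A.C n).sd p (j - 1)) 0 + max ((A.C n).sd p j) 0 := by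
    have h4 := le_max_left ((A.C n).sd p (j - 1)) 0
    have h5 := le_max_left ((A.C n).sd p j) 0
    omega
  exact_mod_cast h3

/-- `T` is a counterexample to the approximation of `ρ` by torsion growth in the middle degree: it
has odd dimension `2k+1`, it is `L²`-acyclic, and the approximation fails. -/
def Refutes (T : Tower) (ρ : ℝ) : Prop := ∃ k, T.dim = 2 * k + 1 ∧ T.Acyclic ∧ ¬ T.Law k ρ

theorem main (A N : Tower) (k p : ℕ) [Fact p.Prime] (j : ℤ) (ρ : ℝ) (hN : Odd N.dim)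
    (hNa : N.Acyclic) (hρ : ρ ≠ 0) (hdim : A.dim = 2 * k + 1)
    (dual : ∀ n, ∀ j ≤ A.dim, (A.C n).betti ℤ j = (A.C n).betti ℤ ((A.dim - j : ℕ) : ℤ))
    (dualp : ∀ n, ∀ j ≤ A.dim,
      (A.C n).betti (ZMod p) j = (A.C n).betti (ZMod p) ((A.dim - j : ℕ) : ℤ))
    (hgrow : ¬ Tendsto (fun n => ((A.C n).betti (ZMod p) j : ℝ) / A.idx n) atTop (𝓝 0))
    (r : ℕ) (hr : k ≤ r) :
    N.Refutes ρ ∨ (A.prod (A.prod N)).Refutes 0 ∨ (A.pw (2 * r)).Refutes 0 := by
  by_contra hcon
  rw [not_or, not_or] at hcon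
  obtain ⟨h1, h2, h3⟩ := hcon
  obtain ⟨k₀, hk₀⟩ := hN
  have lawN : N.Law k₀ ρ := by
    by_contra h; exact h1 ⟨k₀, hk₀, hNa, h⟩
  have lawAAN : (A.prod (A.prod N)).Law (A.dim + k₀) 0 := by
    by_contra h
    refine h2 ⟨A.dim + k₀, ?_, acyclic_prod _ _ (acyclic_prod _ _ hNa), h⟩
    show A.dim + (A.dim + N.dim) = _
    omega
  have hA := stepA A N k₀ ρ hρ lawN lawAAN dual
  have lawP : (A.pw (2 * r)).Law ((2 * r + 1) * k + r) 0 := by
    by_contra h
    refine h3 ⟨(2 * r + 1) * k + r, ?_, acyclic_pw A hA _, h⟩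
    rw [dim_pw, hdim]; ring
  exact hgrow (stepB A k r p hdim hr hA lawP dual dualp j)

end Tower

end Pool.Agent.Helper183_TG
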