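import Pool.Agent.Helper183_TG.Iso

/-!
# Towers of finite covers
-/

open Filter Topology

namespace Pool.Agent.Helper183_TG

/-- A tower of finite covers `M_n = M̃/Γ_n`, seen through cellular chains: a group `Γ`, a finite based
free chain complex `E` over `ℤΓ` (the cellular chain complex of `M̃`) with cells in dimensions at
most `dim`, and a residual chain `Γ = N 0 ≥ N 1 ≥ N 2 ≥ ...` of normal subgroups of finite index
with trivial intersection. -/
structure CoverTower where
  /-- the dimension of `M` -/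
  dim : ℕ
  /-- the fundamental group -/
  Γ : Type
  [grp : Group Γ]
  /-- the cellular chain complex of the universal cover -/
  E : ECx Γ
  deg_le : ∀ c, E.deg c ≤ dim
  /-- the residual chain -/
  N : ℕ → Subgroup Γ
  [nrm : ∀ n, (N n).Normal]
  [fin : ∀ n, (N n).FiniteIndex]
  first : N 0 = ⊤
  anti : Antitone N
  inter : ⨅ n, N n = ⊥

attribute [instance] CoverTower.grp CoverTower.nrm CoverTower.fin

namespace CoverTower

/-- The integral chain complex of the `n`-th cover `M_n = M̃/Γ_n`. -/
noncomputable def level (T : CoverTower) (n : ℕ) : Cx :=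
  @ECx.level T.Γ T.grp T.E (T.Γ ⧸ T.N n) _ (Fintype.ofFinite _) (Classical.decEq _)
    (QuotientGroup.mk' (T.N n))

/-- The product of two towers: `M × M'` with `Γ_n × Γ'_n`. -/
noncomputable def prod (S T : CoverTower) : CoverTower where
  dim := S.dim + T.dim
  Γ := S.Γ × T.Γ
  E := S.E.prod T.E
  deg_le c := Nat.add_le_add (S.deg_le c.1) (T.deg_le c.2)
  N n := (S.N n).prod (T.N n)
  nrm n := Subgroup.prod_normal _ _
  fin n := ⟨by
    rw [Subgroup.index_prod]
    exact Nat.mul_ne_zero Subgroup.FiniteIndex.index_ne_zero Subgroup.FiniteIndex.index_ne_zero⟩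
  first := by rw [S.first, T.first, Subgroup.top_prod_top]
  anti := fun m n h => Subgroup.prod_mono (S.anti h) (T.anti h)
  inter := by
    rw [eq_bot_iff]
    rintro ⟨g, g'⟩ hg
    rw [Subgroup.mem_iInf] at hg
    have h1 : g ∈ ⨅ n, S.N n := Subgroup.mem_iInf.mpr fun n => (Subgroup.mem_prod.mp (hg n)).1
    have h2 : g' ∈ ⨅ n, T.N n := Subgroup.mem_iInf.mpr fun n => (Subgroup.mem_prod.mp (hg n)).2
    rw [S.inter, Subgroup.mem_bot] at h1
    rw [T.inter, Subgroup.mem_bot] at h2
    rw [Subgroup.mem_bot, h1, h2]; rfl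

/-- `T.pow m` is the product of `m + 1` copies of `T`. -/
noncomputable def pow (T : CoverTower) : ℕ → CoverTower
  | 0 => T
  | m + 1 => T.prod (pow T m)

/-- All `L²`-Betti numbers vanish: by Lück's approximation theorem the `j`-th `L²`-Betti number is
the limit of `b_j(M_n)/[Γ : Γ_n]`. -/
def Acyclic (T : CoverTower) : Prop :=
  ∀ j : ℤ, Tendsto (fun n => ((T.level n).betti ℤ j : ℝ) / (T.N n).index) atTop (𝓝 0)

/-- `T` is a counterexample to the approximation of the `L²`-torsion by torsion in homology: its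
dimension is odd, `2k + 1`, its `L²`-Betti numbers vanish, and it is not true that
`log |tors H_k(M_n)| / [Γ : Γ_n]` converges to `(-1)^k ρ^{(2)}`. -/
def Refutes (T : CoverTower) : Prop :=
  ∃ k, T.dim = 2 * k + 1 ∧ T.Acyclic ∧
    ¬ Tendsto (fun n => Real.log ((T.level n).tors k) / (T.N n).index) atTop
      (𝓝 ((-1) ^ k * T.E.rho))

/-- Poincaré duality of the covers for the Betti numbers with coefficients in `R`. -/
def Duality (T : CoverTower) (R : Type) [CommRing R] : Prop :=
  ∀ n, ∀ i j : ℕ, i + j = T.dim → (T.level n).betti R i = (T.level n).betti R j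

/-- The mod `p` homology growth is not zero in some degree. -/
def ModGrowth (T : CoverTower) (p : ℕ) : Prop :=
  ∃ j : ℤ, ¬ Tendsto (fun n => ((T.level n).betti (ZMod p) j : ℝ) / (T.N n).index) atTop (𝓝 0)

/-- The underlying tower of chain complexes. -/
noncomputable def toTower (T : CoverTower) : Tower where
  dim := T.dim
  idx n := (T.N n).index
  C n := T.level n
  size := Fintype.card T.E.cell
  idx_pos n := Nat.pos_of_ne_zero Subgroup.FiniteIndex.index_ne_zero
  card_le n := by
    classical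
    have h : Fintype.card (T.level n).cell = Nat.card (T.level n).cell := by
      rw [Nat.card_eq_fintype_card]
    have h2 : Nat.card (T.level n).cell = Nat.card ((T.Γ ⧸ T.N n) × T.E.cell) := rfl
    rw [h, h2, Nat.card_prod, Nat.card_eq_fintype_card (α := T.E.cell), mul_comm]
    exact le_of_eq rfl
  deg_le n c := T.deg_le c.2

/-- The levels of a product are the products of the levels. -/
theorem levelProdIso (S T : CoverTower) (n : ℕ) :
    Nonempty (Cx.Iso ((S.prod T).level n) ((S.level n).prod (T.level n))) := by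
  have hfin : ((S.N n).prod (T.N n)).FiniteIndex := (S.prod T).fin n
  let _ : Fintype (S.Γ ⧸ S.N n) := Fintype.ofFinite _
  let _ : Fintype (T.Γ ⧸ T.N n) := Fintype.ofFinite _
  let _ : Fintype ((S.Γ × T.Γ) ⧸ (S.N n).prod (T.N n)) := Fintype.ofFinite _
  let _ : DecidableEq (S.Γ ⧸ S.N n) := Classical.decEq _
  let _ : DecidableEq (T.Γ ⧸ T.N n) := Classical.decEq _
  let _ : DecidableEq ((S.Γ × T.Γ) ⧸ (S.N n).prod (T.N n)) := Classical.decEq _
  have hker : (S.N n).prod (T.N n)
      = ((QuotientGroup.mk' (S.N n)).prodMap (QuotientGroup.mk' (T.N n))).ker := by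
    ext ⟨g, g'⟩
    rw [Subgroup.mem_prod, MonoidHom.mem_ker]
    show _ ↔ ((g : S.Γ ⧸ S.N n), (g' : T.Γ ⧸ T.N n)) = 1
    rw [Prod.mk_eq_one, QuotientGroup.eq_one_iff, QuotientGroup.eq_one_iff]
  have hsurj : Function.Surjective
      ((QuotientGroup.mk' (S.N n)).prodMap (QuotientGroup.mk' (T.N n))) := by
    rintro ⟨x, y⟩
    obtain ⟨g, rfl⟩ := QuotientGroup.mk'_surjective _ x
    obtain ⟨g', rfl⟩ := QuotientGroup.mk'_surjective _ y
    exact ⟨(g, g'), rfl⟩
  let φ : (S.Γ × T.Γ) ⧸ (S.N n).prod (T.N n) ≃* (S.Γ ⧸ S.N n) × (T.Γ ⧸ T.N n) :=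
    (QuotientGroup.quotientMulEquivOfEq hker).trans
      (QuotientGroup.quotientKerEquivOfSurjective _ hsurj)
  have hφ : ∀ g, φ (QuotientGroup.mk' ((S.N n).prod (T.N n)) g)
      = (QuotientGroup.mk' (S.N n)).prodMap (QuotientGroup.mk' (T.N n)) g := fun g => rfl
  have i1 := ECx.levelIso (S.E.prod T.E) (QuotientGroup.mk' ((S.N n).prod (T.N n)))
    ((QuotientGroup.mk' (S.N n)).prodMap (QuotientGroup.mk' (T.N n))) φ hφ
  have i2 := ECx.levelProd S.E T.E (QuotientGroup.mk' (S.N n)) (QuotientGroup.mk' (T.N n))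
  have i3 := i1.trans i2
  exact ⟨i3⟩

end CoverTower

end Pool.Agent.Helper183_TG
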