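import Mathlib

/-!
# Finite based chain complexes of free abelian groups and their tensor products

`Cx` is a finite set of cells with degrees and an integral incidence matrix of square zero: the
cellular chain complex of a finite CW complex.  `Cx.prod` is the tensor product: the cellular chain
complex of the product.
-/

open Matrix

namespace Pool.Agent.Helper183_TG

/-- A finite based chain complex of free abelian groups: a finite set of cells, the degree of each
cell and the matrix of incidence numbers, `inc a b` being the coefficient of `a` in the boundary of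
`b`. -/
structure Cx where
  /-- the cells -/
  cell : Type
  [fin : Fintype cell]
  [dec : DecidableEq cell]
  /-- dimension of a cell -/
  deg : cell → ℕ
  /-- incidence numbers -/
  inc : Matrix cell cell ℤ
  hdeg : ∀ a b, inc a b ≠ 0 → deg b = deg a + 1
  hsq : inc * inc = 0

attribute [instance] Cx.fin Cx.dec

namespace Cx

variable (X Y : Cx) (R : Type) [CommRing R]

/-- The boundary operator on chains (of all degrees) with coefficients in `R`. -/
def D : (X.cell → R) →ₗ[R] (X.cell → R) := (X.inc.map (Int.cast : ℤ → R)).mulVecLin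

/-- The chains of degree `j`. -/
def Ch (j : ℤ) : Submodule R (X.cell → R) where
  carrier := {x | ∀ c, (X.deg c : ℤ) ≠ j → x c = 0}
  add_mem' := by
    intro x y hx hy c hc
    simp [hx c hc, hy c hc]
  zero_mem' := by intro c _; rfl
  smul_mem' := by
    intro r x hx c hc
    simp [hx c hc]

/-- The cycles of degree `j`. -/
def Z (j : ℤ) : Submodule R (X.cell → R) := X.Ch R j ⊓ LinearMap.ker (X.D R)

/-- The boundaries of degree `j`. -/
def B (j : ℤ) : Submodule R (X.cell → R) := (X.Ch R (j + 1)).map (X.D R)

/-- The homology in degree `j` with coefficients in `R`: cycles modulo boundaries. -/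
abbrev H (j : ℤ) : Type := ↥(X.Z R j) ⧸ (X.B R j).submoduleOf (X.Z R j)

/-- The rank over `R` of the homology in degree `j` with coefficients in `R`: the `j`-th Betti
number for `R = ℤ`, the dimension of the homology mod `p` for `R = ZMod p`. -/
noncomputable def betti (j : ℤ) : ℕ := Module.finrank R (X.H R j)

/-- The order of the torsion subgroup of the integral homology in degree `j`. -/
noncomputable def tors (j : ℤ) : ℕ := Nat.card (Submodule.torsion ℤ (X.H ℤ j))

variable {X Y R}

theorem mem_Ch {j : ℤ} {x : X.cell → R} :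
    x ∈ X.Ch R j ↔ ∀ c, (X.deg c : ℤ) ≠ j → x c = 0 := Iff.rfl

theorem D_apply (x : X.cell → R) (a : X.cell) :
    X.D R x a = ∑ b, (X.inc a b : R) * x b := by
  simp [D, Matrix.mulVec, dotProduct]

theorem D_mem {j : ℤ} {x : X.cell → R} (hx : x ∈ X.Ch R (j + 1)) : X.D R x ∈ X.Ch R j := by
  intro a ha
  rw [D_apply]
  refine Finset.sum_eq_zero fun b _ => ?_
  by_cases h : X.inc a b = 0
  · simp [h]
  · have h1 := X.hdeg a b h
    have h2 : (X.deg b : ℤ) ≠ j + 1 := by
      intro h3; apply ha; rw [h1] at h3; push_cast at h3; linarith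
    rw [hx b h2, mul_zero]

theorem D_D (x : X.cell → R) : X.D R (X.D R x) = 0 := by
  have : (X.inc.map (Int.cast : ℤ → R)) * (X.inc.map (Int.cast : ℤ → R)) = 0 := by
    have h := congrArg (fun M : Matrix X.cell X.cell ℤ => M.map (Int.castRingHom R)) X.hsq
    simp only [Matrix.map_mul] at h
    have h0 : (0 : Matrix X.cell X.cell ℤ).map (Int.castRingHom R) = 0 := by
      ext a b; simp
    rw [h0] at h
    exact h
  simp only [D, Matrix.mulVecLin_apply, Matrix.mulVec_mulVec, this, Matrix.zero_mulVec]

theorem B_le_Z (j : ℤ) : X.B R j ≤ X.Z R j := by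
  rintro _ ⟨x, hx, rfl⟩
  exact ⟨D_mem hx, D_D x⟩

variable (X Y)

/-- The tensor product of two finite based complexes (the cellular chain complex of a product):
the cells are the pairs of cells and `∂(a ⊗ b) = ∂a ⊗ b + (-1)^{deg a} a ⊗ ∂b`. -/
def prodInc : Matrix (X.cell × Y.cell) (X.cell × Y.cell) ℤ :=
  fun a b => X.inc a.1 b.1 * (if a.2 = b.2 then 1 else 0)
    + (if a.1 = b.1 then (-1) ^ (X.deg a.1) else 0) * Y.inc a.2 b.2

theorem prodInc_sum (f : X.cell × Y.cell → R) (a : X.cell) (a' : Y.cell) :
    ∑ b, ((prodInc X Y (a, a') b : ℤ) : R) * f b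
      = ∑ b, (X.inc a b : R) * f (b, a') + (-1) ^ (X.deg a) * ∑ b', (Y.inc a' b' : R) * f (a, b') := by
  rw [Fintype.sum_prod_type]
  have h1 : ∀ (b : X.cell) (b' : Y.cell), ((prodInc X Y (a, a') (b, b') : ℤ) : R) * f (b, b')
      = (if a' = b' then (X.inc a b : R) * f (b, b') else 0)
        + (if a = b then (-1) ^ (X.deg a) * ((Y.inc a' b' : R) * f (b, b')) else 0) := by
    intro b b'
    unfold prodInc
    by_cases h2 : a' = b' <;> by_cases h3 : a = b <;> simp [h2, h3] <;> ring
  simp_rw [h1, Finset.sum_add_distrib]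
  congr 1
  · refine Finset.sum_congr rfl fun b _ => ?_
    simp
  · rw [Finset.sum_comm]
    simp only [Finset.sum_ite_eq, Finset.mem_univ, if_true]
    rw [Finset.mul_sum]

theorem prod_hdeg (a b : X.cell × Y.cell) (h : prodInc X Y a b ≠ 0) :
    X.deg b.1 + Y.deg b.2 = X.deg a.1 + Y.deg a.2 + 1 := by
  unfold prodInc at h
  by_cases h1 : X.inc a.1 b.1 * (if a.2 = b.2 then 1 else 0) = 0
  · rw [h1, zero_add] at h
    have h2 : a.1 = b.1 := by
      by_contra h3; apply h; simp [h3]
    have h4 : Y.inc a.2 b.2 ≠ 0 := by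
      intro h5; apply h; simp [h5]
    have := Y.hdeg _ _ h4
    rw [← h2]; omega
  · have h2 : a.2 = b.2 := by
      by_contra h3; apply h1; simp [h3]
    have h4 : X.inc a.1 b.1 ≠ 0 := by
      intro h5; apply h1; simp [h5]
    have := X.hdeg _ _ h4
    rw [← h2]; omega

theorem prod_hsq : prodInc X Y * prodInc X Y = 0 := by
  ext ⟨a, a'⟩ ⟨c, c'⟩
  rw [Matrix.mul_apply, Matrix.zero_apply]
  have h := prodInc_sum (R := ℤ) X Y (fun b => prodInc X Y b (c, c')) a a'
  simp only [Int.cast_id] at h
  rw [h]
  have hX : ∀ a c, ∑ b, X.inc a b * X.inc b c = 0 := by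
    intro a c
    have := congrFun (congrFun X.hsq a) c
    rwa [Matrix.mul_apply] at this
  have hY : ∀ a c, ∑ b, Y.inc a b * Y.inc b c = 0 := by
    intro a c
    have := congrFun (congrFun Y.hsq a) c
    rwa [Matrix.mul_apply] at this
  have e1 : ∑ b, X.inc a b * prodInc X Y (b, a') (c, c')
      = X.inc a c * (-1) ^ (X.deg c) * Y.inc a' c' := by
    have : ∀ b, X.inc a b * prodInc X Y (b, a') (c, c')
        = X.inc a b * X.inc b c * (if a' = c' then 1 else 0)
          + (if b = c then X.inc a c * (-1) ^ (X.deg c) * Y.inc a' c' else 0) := by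
      intro b
      unfold prodInc
      by_cases h1 : b = c
      · subst h1
        by_cases h2 : a' = c'
        · simp [h2]; ring
        · simp [h2]; ring
      · simp [h1]
    simp_rw [this, Finset.sum_add_distrib, ← Finset.sum_mul, hX]
    simp
  have e2 : ∑ b', Y.inc a' b' * prodInc X Y (a, b') (c, c')
      = X.inc a c * Y.inc a' c' := by
    have : ∀ b', Y.inc a' b' * prodInc X Y (a, b') (c, c')
        = (if b' = c' then X.inc a c * Y.inc a' c' else 0)
          + (if a = c then (-1) ^ (X.deg a) else 0) * (Y.inc a' b' * Y.inc b' c') := by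
      intro b'
      unfold prodInc
      by_cases h1 : b' = c'
      · subst h1
        by_cases h2 : a = c
        · simp [h2]; ring
        · simp [h2]; ring
      · simp [h1]; ring
    simp_rw [this, Finset.sum_add_distrib, ← Finset.mul_sum, hY]
    simp
  rw [e1, e2]
  by_cases h1 : X.inc a c = 0
  · simp [h1]
  · rw [X.hdeg a c h1, pow_succ]; ring

/-- The tensor product of two finite based complexes. -/
@[reducible] def prod : Cx where
  cell := X.cell × Y.cell
  deg c := X.deg c.1 + Y.deg c.2
  inc := prodInc X Y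
  hdeg := prod_hdeg X Y
  hsq := prod_hsq X Y

variable {X Y}

theorem prod_D_apply (f : (X.prod Y).cell → R) (a : X.cell) (a' : Y.cell) :
    (X.prod Y).D R f (a, a') = X.D R (fun b => f (b, a')) a
      + (-1) ^ (X.deg a) * Y.D R (fun b' => f (a, b')) a' := by
  have h1 : (X.prod Y).D R f (a, a')
      = ∑ b : X.cell × Y.cell, ((prodInc X Y (a, a') b : ℤ) : R) * f b :=
    D_apply (X := X.prod Y) f (a, a')
  rw [h1, prodInc_sum, D_apply, D_apply]

end Cx

end Pool.Agent.Helper183_TG
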