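import Pool.Agent.Helper183_TG.Alg
import Pool.Agent.Helper183_TG.Cx

/-!
# Finite based free chain complexes over `ℤΓ`, their products and `L²`-torsion

`ECx Γ` models the cellular chain complex of the universal cover of a finite CW complex with
fundamental group `Γ`: it is a complex of based free modules over the integral group ring.
-/

open MonoidAlgebra MeasureTheory

set_option linter.unusedSectionVars false

namespace Pool.Agent.Helper183_TG

/-- A finite based free chain complex over the group ring `ℤΓ`: finitely many cells with their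
dimensions, and the boundary matrix, `bd a b ∈ ℤΓ` being the coefficient of `a` in the boundary of
`b`. -/
structure ECx (Γ : Type) [Group Γ] where
  /-- the (orbits of) cells -/
  cell : Type
  [fin : Fintype cell]
  [dec : DecidableEq cell]
  /-- the dimension of a cell -/
  deg : cell → ℕ
  /-- the boundary matrix over the group ring -/
  bd : Matrix cell cell (MonoidAlgebra ℤ Γ)
  hdeg : ∀ a b, bd a b ≠ 0 → deg b = deg a + 1
  hsq : bd * bd = 0

attribute [instance] ECx.fin ECx.dec

namespace ECx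

variable {Γ Γ' : Type} [Group Γ] [Group Γ']

/-- The diagonal matrix of signs `(-1)^{deg a}`. -/
noncomputable def eps (E : ECx Γ) : Matrix E.cell E.cell (MonoidAlgebra ℤ Γ) :=
  Matrix.diagonal fun a => (-1) ^ (E.deg a)

theorem adj_eps (E : ECx Γ) : adj E.eps = E.eps := by
  refine Matrix.ext fun a b => ?_
  show gst (E.eps b a) = E.eps a b
  unfold eps
  rw [Matrix.diagonal_apply, Matrix.diagonal_apply]
  by_cases h : a = b
  · subst h
    rw [if_pos rfl]
    rcases Nat.even_or_odd (E.deg a) with h1 | h1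
    · rw [h1.neg_one_pow, gst_one]
    · rw [h1.neg_one_pow, gst_neg, gst_one]
  · rw [if_neg h, if_neg (Ne.symm h), gst_zero]

theorem eps_sq (E : ECx Γ) : E.eps * E.eps = 1 := by
  unfold eps
  rw [Matrix.diagonal_mul_diagonal, ← Matrix.diagonal_one]
  congr 1
  funext a
  rw [← pow_add, ← two_mul, pow_mul]
  simp

theorem bd_eps (E : ECx Γ) : E.bd * E.eps + E.eps * E.bd = 0 := by
  refine Matrix.ext fun a b => ?_
  unfold eps
  rw [Matrix.add_apply, Matrix.mul_diagonal, Matrix.diagonal_mul, Matrix.zero_apply]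
  by_cases h : E.bd a b = 0
  · rw [h, zero_mul, mul_zero, add_zero]
  · rw [E.hdeg a b h, pow_succ, mul_neg, mul_one, mul_neg]
    have h1 : E.bd a b * (-1) ^ (E.deg a) = (-1) ^ (E.deg a) * E.bd a b := by
      rcases Nat.even_or_odd (E.deg a) with h1 | h1
      · rw [h1.neg_one_pow, mul_one, one_mul]
      · rw [h1.neg_one_pow, mul_neg, neg_mul, mul_one, one_mul]
    rw [h1, neg_add_cancel]

theorem adj_bd_eps (E : ECx Γ) : adj E.bd * E.eps + E.eps * adj E.bd = 0 := by
  have h := congrArg adj E.bd_eps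
  rw [adj_add, adj_mul, adj_mul, E.adj_eps] at h
  have h0 : adj (0 : Matrix E.cell E.cell (MonoidAlgebra ℤ Γ)) = 0 := by
    refine Matrix.ext fun a b => gst_zero
  rw [h0] at h
  rw [add_comm]; exact h

/-- The boundary matrix of the product complex. -/
noncomputable def prodBd (E : ECx Γ) (F : ECx Γ') :
    Matrix (E.cell × F.cell) (E.cell × F.cell) (MonoidAlgebra ℤ (Γ × Γ')) :=
  K E.bd 1 + K E.eps F.bd

/-- The product of two complexes: a complex over the group ring of `Γ × Γ'`, with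
`∂(a ⊗ b) = ∂a ⊗ b + (-1)^{deg a} a ⊗ ∂b`. -/
@[reducible] noncomputable def prod (E : ECx Γ) (F : ECx Γ') : ECx (Γ × Γ') where
  cell := E.cell × F.cell
  deg c := E.deg c.1 + F.deg c.2
  bd := prodBd E F
  hdeg := by
    intro a b h
    have h0 : prodBd E F a b = i1 (E.bd a.1 b.1) * i2 ((1 : Matrix F.cell F.cell _) a.2 b.2)
        + i1 (E.eps a.1 b.1) * i2 (F.bd a.2 b.2) := rfl
    rw [h0] at h
    by_cases h1 : i1 (E.bd a.1 b.1) * i2 ((1 : Matrix F.cell F.cell (MonoidAlgebra ℤ Γ')) a.2 b.2)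
        = (0 : MonoidAlgebra ℤ (Γ × Γ'))
    · rw [h1, zero_add] at h
      have h2 : a.1 = b.1 := by
        by_contra h3
        apply h
        have : E.eps a.1 b.1 = 0 := by
          unfold eps; rw [Matrix.diagonal_apply, if_neg h3]
        rw [this, map_zero, zero_mul]
      have h4 : F.bd a.2 b.2 ≠ 0 := by
        intro h5; apply h; rw [h5, map_zero, mul_zero]
      have := F.hdeg _ _ h4
      rw [← h2]; omega
    · have h2 : a.2 = b.2 := by
        by_contra h3
        apply h1
        rw [Matrix.one_apply, if_neg h3, map_zero, mul_zero]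
      have h4 : E.bd a.1 b.1 ≠ 0 := by
        intro h5; apply h1; rw [h5, map_zero, zero_mul]
      have := E.hdeg _ _ h4
      rw [← h2]; omega
  hsq := by
    unfold prodBd
    rw [add_mul, mul_add, mul_add, K_mul, K_mul, K_mul, K_mul, E.hsq, F.hsq, K_zero_left,
      K_zero_right, one_mul, mul_one, zero_add, add_zero, ← K_add_left, E.bd_eps, K_zero_left]

/-- The combinatorial Laplacian `∂∂* + ∂*∂`. -/
noncomputable def lap (E : ECx Γ) : Matrix E.cell E.cell (MonoidAlgebra ℤ Γ) :=
  E.bd * adj E.bd + adj E.bd * E.bd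

theorem lap_prod (E : ECx Γ) (F : ECx Γ') :
    (E.prod F).lap = K E.lap 1 + K 1 F.lap := by
  have h : adj (E.prod F).bd = K (adj E.bd) 1 + K E.eps (adj F.bd) := by
    show adj (K E.bd 1 + K E.eps F.bd) = _
    rw [adj_add, adj_K, adj_K, adj_one, E.adj_eps]
  have h0 : (E.prod F).bd = K E.bd 1 + K E.eps F.bd := rfl
  unfold lap
  rw [h, h0, add_mul, mul_add, mul_add, add_mul, mul_add, mul_add, K_mul, K_mul, K_mul, K_mul,
    K_mul, K_mul, K_mul, K_mul, E.eps_sq]
  simp only [one_mul, mul_one]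
  rw [K_add_left, K_add_right]
  have e1 : K (E.bd * E.eps) (adj F.bd) + K (E.eps * E.bd) (adj F.bd) = 0 := by
    rw [← K_add_left, E.bd_eps, K_zero_left]
  have e2 : K (adj E.bd * E.eps) F.bd + K (E.eps * adj E.bd) F.bd = 0 := by
    rw [← K_add_left, E.adj_bd_eps, K_zero_left]
  calc _ = (K (E.bd * adj E.bd) 1 + K (adj E.bd * E.bd) 1
        + (K 1 (F.bd * adj F.bd) + K 1 (adj F.bd * F.bd)))
        + (K (E.bd * E.eps) (adj F.bd) + K (E.eps * E.bd) (adj F.bd))
        + (K (adj E.bd * E.eps) F.bd + K (E.eps * adj E.bd) F.bd) := by abel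
    _ = _ := by rw [e1, e2, add_zero, add_zero]

/-- The Euler characteristic. -/
def chi (E : ECx Γ) : ℤ := ∑ a, (-1) ^ (E.deg a)

/-- `Σ_a (-1)^{deg a} tr_Γ((Δ^n)_{aa})`. -/
noncomputable def smom (E : ECx Γ) (n : ℕ) : ℤ := wtr (fun a => (-1) ^ (E.deg a)) (E.lap ^ n)

/-- `Σ_a (-1)^{deg a} (deg a) tr_Γ((Δ^n)_{aa}) = Σ_j (-1)^j j tr_Γ(Δ_j^n)`. -/
noncomputable def mom (E : ECx Γ) (n : ℕ) : ℤ :=
  ∑ a, (-1) ^ (E.deg a) * (E.deg a) * gtr ((E.lap ^ n) a a)

theorem smom_zero (E : ECx Γ) : E.smom 0 = E.chi := by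
  unfold smom chi wtr
  refine Finset.sum_congr rfl fun a _ => ?_
  rw [pow_zero, Matrix.one_apply_eq]
  have : gtr (1 : MonoidAlgebra ℤ Γ) = 1 := coeff_one_one
  rw [this, mul_one]

/-- cyclicity, with signs: `Σ_a (-1)^{deg a} tr((∂P)_{aa}) = -Σ_a (-1)^{deg a} tr((P∂)_{aa})`. -/
theorem wtr_bd (E : ECx Γ) (P : Matrix E.cell E.cell (MonoidAlgebra ℤ Γ)) :
    wtr (fun a => (-1) ^ (E.deg a)) (E.bd * P) = - wtr (fun a => (-1) ^ (E.deg a)) (P * E.bd) := by
  unfold wtr
  simp only [Matrix.mul_apply, gtr_sum, Finset.mul_sum]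
  rw [Finset.sum_comm, ← Finset.sum_neg_distrib]
  refine Finset.sum_congr rfl fun b _ => ?_
  rw [← Finset.sum_neg_distrib]
  refine Finset.sum_congr rfl fun a _ => ?_
  by_cases h : E.bd a b = 0
  · rw [h, zero_mul, mul_zero, gtr_zero, mul_zero, mul_zero, neg_zero]
  · rw [E.hdeg a b h, gtr_mul_comm, pow_succ]; ring

/-- McKean–Singer: the alternating sum of the traces of the powers of the Laplacian vanishes. -/
theorem smom_succ (E : ECx Γ) (n : ℕ) : E.smom (n + 1) = 0 := by
  unfold smom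
  have hc : Commute E.bd E.lap := by
    show E.bd * E.lap = E.lap * E.bd
    unfold lap
    rw [mul_add, add_mul, ← mul_assoc, E.hsq, zero_mul, zero_add, mul_assoc (adj E.bd), E.hsq,
      mul_zero, add_zero, mul_assoc]
  have hcn : Commute E.bd (E.lap ^ n) := hc.pow_right n
  rw [pow_succ']
  nth_rw 1 [lap]
  rw [add_mul, wtr_add, mul_assoc, wtr_bd, mul_assoc (adj E.bd) (E.lap ^ n), ← hcn.eq,
    ← mul_assoc (adj E.bd)]
  ring

/-- The product formula for the moments. -/
theorem mom_prod (E : ECx Γ) (F : ECx Γ') (n : ℕ) :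
    (E.prod F).mom n = E.mom n * F.chi + E.chi * F.mom n := by
  have h1 : (E.prod F).mom n = ∑ m ∈ Finset.range (n + 1), (n.choose m : ℤ)
      * (E.mom m * F.smom (n - m) + E.smom m * F.mom (n - m)) := by
    have h2 : (E.prod F).mom n = wtr (fun a : E.cell × F.cell =>
        (-1) ^ (E.deg a.1 + F.deg a.2) * ((E.deg a.1 + F.deg a.2 : ℕ) : ℤ)) ((E.prod F).lap ^ n) :=
      rfl
    rw [h2, lap_prod, K_add_pow, wtr_sum]
    refine Finset.sum_congr rfl fun m _ => ?_
    rw [wtr_nsmul]
    congr 1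
    unfold wtr mom smom wtr
    rw [Fintype.sum_prod_type, Finset.sum_mul_sum, Finset.sum_mul_sum, ← Finset.sum_add_distrib]
    refine Finset.sum_congr rfl fun a _ => ?_
    rw [← Finset.sum_add_distrib]
    refine Finset.sum_congr rfl fun b _ => ?_
    have h3 : gtr (K (E.lap ^ m) (F.lap ^ (n - m)) (a, b) (a, b))
        = gtr ((E.lap ^ m) a a) * gtr ((F.lap ^ (n - m)) b b) := gtr_i1_i2 _ _
    rw [h3]
    beta_reduce
    rw [pow_add]
    push_cast
    ring
  rw [h1]
  have hs : ∀ (G : Type) [Group G] (E : ECx G) (m : ℕ), m ≠ 0 → E.smom m = 0 := by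
    intro G _ E m hm
    obtain ⟨l, rfl⟩ := Nat.exists_eq_succ_of_ne_zero hm
    exact E.smom_succ l
  by_cases hn : n = 0
  · subst hn
    simp [smom_zero]
  · have h4 : ∀ m ∈ Finset.range (n + 1), (n.choose m : ℤ)
        * (E.mom m * F.smom (n - m) + E.smom m * F.mom (n - m))
        = (if m = n then E.mom n * F.chi else 0) + (if m = 0 then E.chi * F.mom n else 0) := by
      intro m hm
      rw [Finset.mem_range] at hm
      by_cases h5 : m = n
      · subst h5
        rw [if_pos rfl, if_neg hn, hs _ E m hn]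
        simp [smom_zero]
      · by_cases h6 : m = 0
        · subst h6
          rw [if_neg h5, if_pos rfl, Nat.sub_zero, hs _ F n hn]
          simp [smom_zero]
        · rw [if_neg h5, if_neg h6, hs _ E m h6, hs _ F (n - m) (by omega)]
          ring
    rw [Finset.sum_congr rfl h4, Finset.sum_add_distrib]
    simp

/-- `T(t) = Σ_j (-1)^j j tr_Γ(e^{-tΔ_j})`, as a power series in `t`. -/
noncomputable def heat (E : ECx Γ) (t : ℝ) : ℝ :=
  ∑' n : ℕ, (-t) ^ n / (n.factorial : ℝ) * (E.mom n : ℝ)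

/-- The `L²`-torsion `-½ Σ_j (-1)^j j log det(Δ_j)` of an `L²`-acyclic complex; since
`-log det Δ = ∫₀^∞ (tr e^{-tΔ} - e^{-t} tr 1) dt/t` it is
`½ ∫₀^∞ (T(t) - e^{-t} T(0)) dt/t`. -/
noncomputable def rho (E : ECx Γ) : ℝ :=
  (1 / 2) * ∫ t in Set.Ioi (0 : ℝ), (E.heat t - Real.exp (-t) * E.heat 0) / t

theorem heat_prod (E : ECx Γ) (F : ECx Γ') (hF : F.chi = 0) (t : ℝ) :
    (E.prod F).heat t = E.chi * F.heat t := by
  unfold heat
  rw [← tsum_mul_left]
  refine tsum_congr fun n => ?_
  rw [mom_prod, hF]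
  push_cast
  ring

/-- The product formula for the `L²`-torsion. -/
theorem rho_prod (E : ECx Γ) (F : ECx Γ') (hF : F.chi = 0) :
    (E.prod F).rho = E.chi * F.rho := by
  unfold rho
  simp_rw [heat_prod E F hF]
  have h : ∀ t : ℝ, ((E.chi : ℝ) * F.heat t - Real.exp (-t) * ((E.chi : ℝ) * F.heat 0)) / t
      = (E.chi : ℝ) * ((F.heat t - Real.exp (-t) * F.heat 0) / t) := by
    intro t; ring
  simp_rw [h]
  rw [integral_const_mul]
  ring

/-- The incidence numbers of the finite cover belonging to `π : Γ → Q`. -/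
noncomputable def levelInc (E : ECx Γ) {Q : Type} [Group Q] (π : Γ →* Q) :
    Matrix (Q × E.cell) (Q × E.cell) ℤ :=
  fun a b => (mapDomainRingHom ℤ π (E.bd a.2 b.2)).coeff (a.1 * b.1⁻¹)

theorem levelInc_sq (E : ECx Γ) {Q : Type} [Group Q] [Fintype Q] [DecidableEq Q]
    (π : Γ →* Q) : E.levelInc π * E.levelInc π = 0 := by
  refine Matrix.ext fun a b => ?_
  rw [Matrix.mul_apply, Matrix.zero_apply, Fintype.sum_prod_type, Finset.sum_comm]
  have h1 : ∀ c : E.cell, ∑ y : Q, E.levelInc π a (y, c) * E.levelInc π (y, c) b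
      = (mapDomainRingHom ℤ π (E.bd a.2 c) * mapDomainRingHom ℤ π (E.bd c b.2)).coeff
          (a.1 * b.1⁻¹) := by
    intro c
    rw [coeff_mul_apply_left, Finsupp.sum_fintype _ _ (fun _ => zero_mul _)]
    refine Fintype.sum_equiv ((Equiv.inv Q).trans (Equiv.mulLeft a.1)) _ _ fun y => ?_
    show (mapDomainRingHom ℤ π (E.bd a.2 c)).coeff (a.1 * y⁻¹)
        * (mapDomainRingHom ℤ π (E.bd c b.2)).coeff (y * b.1⁻¹)
      = (mapDomainRingHom ℤ π (E.bd a.2 c)).coeff (a.1 * y⁻¹)
      * (mapDomainRingHom ℤ π (E.bd c b.2)).coeff ((a.1 * y⁻¹)⁻¹ * (a.1 * b.1⁻¹))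
    have : (a.1 * y⁻¹)⁻¹ * (a.1 * b.1⁻¹) = y * b.1⁻¹ := by group
    rw [this]
  rw [Finset.sum_congr rfl (fun c _ => h1 c), ← Finsupp.finsetSum_apply, ← coeff_sum]
  simp_rw [← map_mul]
  rw [← map_sum, ← Matrix.mul_apply, E.hsq, Matrix.zero_apply, map_zero]
  rfl

/-- The chain complex of the finite cover belonging to a homomorphism `π : Γ → Q` onto a finite
group: its cells are the pairs (element of `Q`, cell), and the boundary is induced by `bd`: the
incidence number of `(x, a)` in the boundary of `(y, b)` is the sum of the coefficients of `bd a b`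
at the elements `g` of `Γ` with `π g * y = x`. -/
@[reducible] noncomputable def level (E : ECx Γ) {Q : Type} [Group Q] [Fintype Q] [DecidableEq Q]
    (π : Γ →* Q) : Cx where
  cell := Q × E.cell
  deg c := E.deg c.2
  inc := E.levelInc π
  hdeg := by
    intro a b h
    apply E.hdeg
    intro h0
    apply h
    unfold levelInc
    rw [h0, map_zero]; rfl
  hsq := E.levelInc_sq π

end ECx

end Pool.Agent.Helper183_TG
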