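import Pool.Agent.Helper183_TG.Core
import Pool.Agent.Helper183_TG.Ecx

/-!
# Isomorphisms of based complexes
-/

namespace Pool.Agent.Helper183_TG

namespace Cx

/-- An isomorphism of based complexes: a bijection of the cells compatible with dimensions and
incidence numbers. -/
structure Iso (X Y : Cx) where
  e : X.cell ≃ Y.cell
  hdeg : ∀ c, Y.deg (e c) = X.deg c
  hinc : ∀ a b, Y.inc (e a) (e b) = X.inc a b

namespace Iso

variable {X Y Z' X' Y' : Cx}

/-- Identity. -/
def refl (X : Cx) : Iso X X := ⟨Equiv.refl _, fun _ => rfl, fun _ _ => rfl⟩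

/-- Composition. -/
def trans (f : Iso X Y) (g : Iso Y Z') : Iso X Z' where
  e := f.e.trans g.e
  hdeg c := by
    show Z'.deg (g.e (f.e c)) = _
    rw [g.hdeg, f.hdeg]
  hinc a b := by
    show Z'.inc (g.e (f.e a)) (g.e (f.e b)) = _
    rw [g.hinc, f.hinc]

/-- Products. -/
def prod (f : Iso X X') (g : Iso Y Y') : Iso (X.prod Y) (X'.prod Y') where
  e := f.e.prodCongr g.e
  hdeg c := by
    show X'.deg (f.e c.1) + Y'.deg (g.e c.2) = X.deg c.1 + Y.deg c.2
    rw [f.hdeg, g.hdeg]
  hinc a b := by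
    show Cx.prodInc X' Y' (f.e a.1, g.e a.2) (f.e b.1, g.e b.2) = Cx.prodInc X Y a b
    unfold Cx.prodInc
    simp only [f.hinc, g.hinc, f.hdeg, f.e.injective.eq_iff, g.e.injective.eq_iff]

section

variable (f : Iso X Y) (R : Type) [CommRing R]

/-- The induced map of chains. -/
def lin : (X.cell → R) ≃ₗ[R] (Y.cell → R) := LinearEquiv.funCongrLeft R R f.e.symm

theorem lin_apply (x : X.cell → R) (c : Y.cell) : f.lin R x c = x (f.e.symm c) := rfl

theorem lin_D (x : X.cell → R) : f.lin R (X.D R x) = Y.D R (f.lin R x) := by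
  funext c
  rw [lin_apply, D_apply, D_apply]
  refine Fintype.sum_equiv f.e _ _ fun b => ?_
  rw [lin_apply, Equiv.symm_apply_apply]
  have h := f.hinc (f.e.symm c) b
  rw [Equiv.apply_symm_apply] at h
  rw [h]

theorem mem_Ch_iff {j : ℤ} (x : X.cell → R) : f.lin R x ∈ Y.Ch R j ↔ x ∈ X.Ch R j := by
  constructor
  · intro h c hc
    have := h (f.e c) (by rw [f.hdeg]; exact hc)
    rwa [lin_apply, Equiv.symm_apply_apply] at this
  · intro h c hc
    rw [lin_apply]
    apply h
    have := f.hdeg (f.e.symm c)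
    rw [Equiv.apply_symm_apply] at this
    rwa [← this]

theorem mem_Z_iff {j : ℤ} (x : X.cell → R) : f.lin R x ∈ Y.Z R j ↔ x ∈ X.Z R j := by
  have h1 : Y.D R (f.lin R x) = 0 ↔ X.D R x = 0 := by
    rw [← lin_D]
    exact (f.lin R).map_eq_zero_iff
  constructor
  · rintro ⟨h, h'⟩
    exact ⟨(f.mem_Ch_iff R x).mp h, h1.mp h'⟩
  · rintro ⟨h, h'⟩
    exact ⟨(f.mem_Ch_iff R x).mpr h, h1.mpr h'⟩

theorem mem_B_iff {j : ℤ} (x : X.cell → R) : f.lin R x ∈ Y.B R j ↔ x ∈ X.B R j := by
  constructor
  · rintro ⟨y, hy, hy'⟩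
    refine ⟨(f.lin R).symm y, ?_, ?_⟩
    · apply (f.mem_Ch_iff R _).mp
      rw [LinearEquiv.apply_symm_apply]; exact hy
    · apply (f.lin R).injective
      rw [lin_D, LinearEquiv.apply_symm_apply]; exact hy'
  · rintro ⟨y, hy, rfl⟩
    exact ⟨f.lin R y, (f.mem_Ch_iff R _).mpr hy, (f.lin_D R y).symm⟩

/-- The induced isomorphism of cycles. -/
def linZ (j : ℤ) : X.Z R j ≃ₗ[R] Y.Z R j :=
  LinearEquiv.ofSubmodules (f.lin R) _ _ (by
    ext y
    constructor
    · rintro ⟨x, hx, rfl⟩
      exact (f.mem_Z_iff R x).mpr hx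
    · intro hy
      refine ⟨(f.lin R).symm y, ?_, (f.lin R).apply_symm_apply y⟩
      apply (f.mem_Z_iff R _).mp
      rw [LinearEquiv.apply_symm_apply]; exact hy)

theorem linZ_apply (j : ℤ) (x : X.Z R j) : (f.linZ R j x : Y.cell → R) = f.lin R x := rfl

/-- The induced isomorphism of homology groups. -/
noncomputable def linH (j : ℤ) : X.H R j ≃ₗ[R] Y.H R j :=
  Submodule.Quotient.equiv _ _ (f.linZ R j) (by
    ext y
    constructor
    · rintro ⟨x, hx, rfl⟩
      exact (f.mem_B_iff R x.1).mpr hx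
    · intro hy
      refine ⟨(f.linZ R j).symm y, ?_, (f.linZ R j).apply_symm_apply y⟩
      have h2 : f.lin R ((f.linZ R j).symm y : X.Z R j) = (y : Y.cell → R) := by
        rw [← linZ_apply, LinearEquiv.apply_symm_apply]
      have h3 : (((f.linZ R j).symm y : X.Z R j) : X.cell → R) ∈ X.B R j := by
        apply (f.mem_B_iff R _).mp
        rw [h2]; exact hy
      exact h3)

include f in
theorem betti_eq (j : ℤ) : X.betti R j = Y.betti R j := (f.linH R j).finrank_eq

include f in
theorem tors_eq (j : ℤ) : X.tors j = Y.tors j := by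
  refine Nat.card_congr ((f.linH ℤ j).toEquiv.subtypeEquiv fun x => ?_)
  rw [Submodule.mem_torsion_iff, Submodule.mem_torsion_iff]
  constructor
  · rintro ⟨a, ha⟩
    refine ⟨a, ?_⟩
    have h1 : f.linH ℤ j ((a : ℤ) • x) = 0 := by
      rw [show (a : ℤ) • x = a • x from rfl, ha, map_zero]
    rw [map_smul] at h1
    exact h1
  · rintro ⟨a, ha⟩
    refine ⟨a, ?_⟩
    apply (f.linH ℤ j).injective
    rw [map_zero, show a • x = (a : ℤ) • x from rfl, map_smul]
    exact ha

end

end Iso

end Cx

namespace ECx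

variable {Γ Γ' : Type} [Group Γ] [Group Γ'] (E : ECx Γ) (F : ECx Γ')

open MonoidAlgebra

/-- The level of a complex only depends on the homomorphism up to isomorphism. -/
noncomputable def levelIso {Q Q' : Type} [Group Q] [Fintype Q] [DecidableEq Q] [Group Q'] [Fintype Q']
    [DecidableEq Q'] (π : Γ →* Q) (π' : Γ →* Q') (φ : Q ≃* Q') (h : ∀ g, φ (π g) = π' g) :
    Cx.Iso (E.level π) (E.level π') where
  e := φ.toEquiv.prodCongr (Equiv.refl _)
  hdeg c := rfl
  hinc a b := by
    show (mapDomainRingHom ℤ π' (E.bd a.2 b.2)).coeff (φ a.1 * (φ b.1)⁻¹)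
      = (mapDomainRingHom ℤ π (E.bd a.2 b.2)).coeff (a.1 * b.1⁻¹)
    rw [← map_inv, ← map_mul]
    generalize E.bd a.2 b.2 = x
    generalize a.1 * b.1⁻¹ = q
    classical
    induction x using induction_linear with
    | zero => simp
    | add a b ha hb =>
      rw [map_add, map_add, coeff_add, coeff_add, Finsupp.add_apply, Finsupp.add_apply, ha, hb]
    | single g r =>
      have h1 : mapDomainRingHom ℤ π (single g r) = single (π g) r := mapDomain_single
      have h2 : mapDomainRingHom ℤ π' (single g r) = single (π' g) r := mapDomain_single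
      rw [h1, h2, coeff_single, coeff_single, Finsupp.single_apply, Finsupp.single_apply, ← h]
      by_cases h3 : π g = q
      · rw [if_pos h3, if_pos (by rw [h3])]
      · rw [if_neg h3, if_neg (fun h4 => h3 (φ.injective h4))]

/-- The level of a product complex for a product homomorphism. -/
noncomputable def levelProd {Q Q' : Type} [Group Q] [Fintype Q] [DecidableEq Q] [Group Q'] [Fintype Q']
    [DecidableEq Q'] (π : Γ →* Q) (π' : Γ' →* Q') :
    Cx.Iso ((E.prod F).level (π.prodMap π')) ((E.level π).prod (F.level π')) where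
  e := Equiv.prodProdProdComm Q Q' E.cell F.cell
  hdeg c := rfl
  hinc a b := by
    show Cx.prodInc (E.level π) (F.level π') ((a.1.1, a.2.1), (a.1.2, a.2.2))
        ((b.1.1, b.2.1), (b.1.2, b.2.2))
      = (mapDomainRingHom ℤ (π.prodMap π') ((E.prod F).bd a.2 b.2)).coeff (a.1 * b.1⁻¹)
    have hmap : ∀ (x : MonoidAlgebra ℤ Γ) (y : MonoidAlgebra ℤ Γ'),
        mapDomainRingHom ℤ (π.prodMap π') (i1 x * i2 y)
          = i1 (mapDomainRingHom ℤ π x) * i2 (mapDomainRingHom ℤ π' y) := by
      intro x y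
      rw [map_mul]
      congr 1
      · induction x using induction_linear with
        | zero => simp
        | add a b ha hb => rw [map_add, map_add, ha, hb, map_add, map_add]
        | single g r =>
          have h1 : mapDomainRingHom ℤ π (single g r) = single (π g) r := mapDomain_single
          rw [h1, i1_single, i1_single]
          refine mapDomain_single.trans ?_
          simp
      · induction y using induction_linear with
        | zero => simp
        | add a b ha hb => rw [map_add, map_add, ha, hb, map_add, map_add]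
        | single g r =>
          have h1 : mapDomainRingHom ℤ π' (single g r) = single (π' g) r := mapDomain_single
          rw [h1, i2_single, i2_single]
          refine mapDomain_single.trans ?_
          simp
    have h0 : (E.prod F).bd a.2 b.2
        = i1 (E.bd a.2.1 b.2.1) * i2 ((1 : Matrix F.cell F.cell _) a.2.2 b.2.2)
          + i1 (E.eps a.2.1 b.2.1) * i2 (F.bd a.2.2 b.2.2) := rfl
    have hw : a.1 * b.1⁻¹ = (a.1.1 * b.1.1⁻¹, a.1.2 * b.1.2⁻¹) := rfl
    rw [h0, map_add, hmap, hmap, coeff_add, Finsupp.add_apply, hw, coeff_i1_i2, coeff_i1_i2]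
    unfold Cx.prodInc
    show E.levelInc π (a.1.1, a.2.1) (b.1.1, b.2.1)
        * (if (a.1.2, a.2.2) = (b.1.2, b.2.2) then 1 else 0)
      + (if (a.1.1, a.2.1) = (b.1.1, b.2.1) then (-1) ^ (E.deg a.2.1) else 0)
        * F.levelInc π' (a.1.2, a.2.2) (b.1.2, b.2.2) = _
    congr 1
    · show (mapDomainRingHom ℤ π (E.bd a.2.1 b.2.1)).coeff (a.1.1 * b.1.1⁻¹) * _ = _
      congr 1
      rw [Matrix.one_apply]
      by_cases h2 : a.2.2 = b.2.2
      · rw [if_pos h2, map_one, one_def, coeff_single, Finsupp.single_apply]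
        have : ((a.1.2, a.2.2) = (b.1.2, b.2.2)) ↔ (1 = a.1.2 * b.1.2⁻¹) := by
          rw [Prod.mk.injEq]
          constructor
          · rintro ⟨h3, _⟩; rw [h3, mul_inv_cancel]
          · intro h3; exact ⟨(mul_inv_eq_one.mp h3.symm), h2⟩
        simp only [this]
      · have h3 : ¬ ((a.1.2, a.2.2) = (b.1.2, b.2.2)) := fun h => h2 (Prod.mk.inj h).2
        rw [if_neg h2, map_zero, if_neg h3]
        rfl
    · show _ * (mapDomainRingHom ℤ π' (F.bd a.2.2 b.2.2)).coeff (a.1.2 * b.1.2⁻¹) = _
      congr 1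
      unfold eps
      rw [Matrix.diagonal_apply]
      by_cases h2 : a.2.1 = b.2.1
      · rw [if_pos h2]
        have h4 : (mapDomainRingHom ℤ π ((-1) ^ (E.deg a.2.1) : MonoidAlgebra ℤ Γ))
            = (single 1 ((-1 : ℤ) ^ (E.deg a.2.1)) : MonoidAlgebra ℤ Q) := by
          rcases Nat.even_or_odd (E.deg a.2.1) with h5 | h5
          · rw [h5.neg_one_pow, h5.neg_one_pow, map_one]; rfl
          · rw [h5.neg_one_pow, h5.neg_one_pow, map_neg, map_one, one_def, single_neg]
        rw [h4, coeff_single, Finsupp.single_apply]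
        have : ((a.1.1, a.2.1) = (b.1.1, b.2.1)) ↔ (1 = a.1.1 * b.1.1⁻¹) := by
          rw [Prod.mk.injEq]
          constructor
          · rintro ⟨h3, _⟩; rw [h3, mul_inv_cancel]
          · intro h3; exact ⟨(mul_inv_eq_one.mp h3.symm), h2⟩
        simp only [this]
      · have h3 : ¬ ((a.1.1, a.2.1) = (b.1.1, b.2.1)) := fun h => h2 (Prod.mk.inj h).2
        rw [if_neg h2, map_zero, if_neg h3]
        rfl

theorem chi_prod : (E.prod F).chi = E.chi * F.chi := by
  unfold chi
  rw [Fintype.sum_prod_type, Finset.sum_mul_sum]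
  refine Finset.sum_congr rfl fun a _ => Finset.sum_congr rfl fun b _ => ?_
  exact pow_add _ _ _

end ECx

end Pool.Agent.Helper183_TG
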