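import Pool.Agent.Helper183_TG.PDLevel

/-!
# Harmonic chains and Betti numbers of a finite complex
-/

open Matrix

set_option linter.unusedSectionVars false

namespace Pool.Agent.Helper183_TG

namespace Cx

/-- The rank of an integer matrix over `ℤ` and over `ℝ`. -/
theorem rank_int_real {c : Type} [Fintype c] [DecidableEq c] (M : Matrix c c ℤ) :
    (M.map (Int.cast : ℤ → ℝ)).rank = M.rank := by
  classical
  rw [Matrix.rank_eq_finrank_span_cols, Matrix.rank_eq_finrank_span_cols]
  let ι : (c → ℤ) →ₗ[ℤ] (c → ℝ) :=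
    { toFun := fun x i => (x i : ℝ)
      map_add' := fun x y => by funext i; simp
      map_smul' := fun r x => by funext i; simp }
  have hinj : Function.Injective ι := by
    intro x y h
    funext i
    have h1 : ((x i : ℤ) : ℝ) = ((y i : ℤ) : ℝ) := congrFun h i
    exact_mod_cast h1
  have hs : Set.range (M.map (Int.cast : ℤ → ℝ)).col = ι '' Set.range M.col := by
    rw [← Set.range_comp]
    rfl
  have hd : DiscreteTopology (Submodule.span ℤ (Set.range (M.map (Int.cast : ℤ → ℝ)).col)) := by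
    have h1 := ZSpan.discreteTopology_pi_basisFun (ι := c)
    refine DiscreteTopology.of_subset h1 ?_
    show (Submodule.span ℤ (Set.range (M.map (Int.cast : ℤ → ℝ)).col) : Set (c → ℝ)) ⊆ _
    rw [SetLike.coe_subset_coe, Submodule.span_le]
    rintro _ ⟨b, rfl⟩
    have h2 : (M.map (Int.cast : ℤ → ℝ)).col b
        = ∑ a, (M a b) • (Pi.basisFun ℝ c a : c → ℝ) := by
      funext i
      simp [Finset.sum_apply, Pi.single_apply, Matrix.col]
    rw [h2]
    exact Submodule.sum_mem _ fun a _ => Submodule.smul_mem _ _ (Submodule.subset_span ⟨a, rfl⟩)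
  have h := Real.finrank_eq_int_finrank_of_discrete hd
  unfold Set.finrank at h
  rw [h, hs, ← Submodule.map_span]
  exact (Submodule.equivMapOfInjective ι hinj _).finrank_eq.symm

/-- Rank–nullity on a submodule of `ℤ^c`. -/
theorem fr_map_add {c : Type} [Fintype c] {V : Type} [AddCommGroup V] (f : (c → ℤ) →ₗ[ℤ] V)
    (W : Submodule ℤ (c → ℤ)) :
    Module.finrank ℤ (W.map f) + Module.finrank ℤ (W ⊓ LinearMap.ker f : Submodule ℤ (c → ℤ))
      = Module.finrank ℤ W := by
  have h1 := Submodule.finrank_quotient_add_finrank (LinearMap.ker (f.domRestrict W))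
  have h2 := ((f.domRestrict W).quotKerEquivRange).finrank_eq
  rw [h2, LinearMap.range_domRestrict, LinearMap.ker_domRestrict] at h1
  have h3 := (Submodule.equivMapOfInjective W.subtype (Submodule.injective_subtype _)
    (Submodule.comap W.subtype (LinearMap.ker f))).finrank_eq
  rw [h3, Submodule.map_comap_subtype] at h1
  exact h1

/-- Rank–nullity for a square integer matrix. -/
theorem fr_ker {c : Type} [Fintype c] [DecidableEq c] (M : Matrix c c ℤ) :
    M.rank + Module.finrank ℤ (LinearMap.ker M.mulVecLin) = Fintype.card c := by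
  have h := fr_map_add M.mulVecLin ⊤
  rw [Submodule.map_top, top_inf_eq, finrank_top, Module.finrank_fintype_fun_eq_card] at h
  exact h

/-- The integral Laplacian. -/
def lapZ (X : Cx) : Matrix X.cell X.cell ℤ := X.inc * X.incᵀ + X.incᵀ * X.inc

theorem rank_tmul {c : Type} [Fintype c] [DecidableEq c] (M : Matrix c c ℤ) :
    (Mᵀ * M).rank = M.rank := by
  refine le_antisymm (Matrix.rank_mul_le_right _ _) ?_
  have hk : LinearMap.ker (Mᵀ * M).mulVecLin ≤ LinearMap.ker M.mulVecLin := by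
    intro x
    rw [LinearMap.mem_ker, LinearMap.mem_ker, Matrix.mulVecLin_apply, Matrix.mulVecLin_apply]
    intro h
    have h2 : (M *ᵥ x) ⬝ᵥ (M *ᵥ x) = 0 := by
      have h3 : x ⬝ᵥ ((Mᵀ * M) *ᵥ x) = 0 := by rw [h, dotProduct_zero]
      rw [← Matrix.mulVec_mulVec, Matrix.dotProduct_mulVec, Matrix.vecMul_transpose] at h3
      exact h3
    exact dotProduct_self_eq_zero.mp h2
  have h1 := fr_ker (Mᵀ * M)
  have h2 := fr_ker M
  have h3 := Submodule.finrank_mono hk
  omega

/-- Hodge: the rank of the Laplacian is twice the rank of the boundary operator. -/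
theorem rank_lap (X : Cx) : X.lapZ.rank = 2 * X.inc.rank := by
  have hker : LinearMap.ker X.lapZ.mulVecLin
      = LinearMap.ker X.inc.mulVecLin ⊓ LinearMap.ker X.incᵀ.mulVecLin := by
    ext x
    rw [Submodule.mem_inf, LinearMap.mem_ker, LinearMap.mem_ker, LinearMap.mem_ker,
      Matrix.mulVecLin_apply, Matrix.mulVecLin_apply, Matrix.mulVecLin_apply]
    constructor
    · intro h
      have h2 : (X.incᵀ *ᵥ x) ⬝ᵥ (X.incᵀ *ᵥ x) + (X.inc *ᵥ x) ⬝ᵥ (X.inc *ᵥ x) = 0 := by
        have h3 : x ⬝ᵥ (X.lapZ *ᵥ x) = 0 := by rw [h, dotProduct_zero]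
        have e1 : x ⬝ᵥ ((X.inc * X.incᵀ) *ᵥ x) = (X.incᵀ *ᵥ x) ⬝ᵥ (X.incᵀ *ᵥ x) := by
          rw [← Matrix.mulVec_mulVec, Matrix.dotProduct_mulVec, ← Matrix.mulVec_transpose]
        have e2 : x ⬝ᵥ ((X.incᵀ * X.inc) *ᵥ x) = (X.inc *ᵥ x) ⬝ᵥ (X.inc *ᵥ x) := by
          rw [← Matrix.mulVec_mulVec, Matrix.dotProduct_mulVec, Matrix.vecMul_transpose]
        unfold lapZ at h3
        rw [Matrix.add_mulVec, dotProduct_add, e1, e2] at h3
        exact h3
      have p1 : 0 ≤ (X.incᵀ *ᵥ x) ⬝ᵥ (X.incᵀ *ᵥ x) :=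
        Finset.sum_nonneg fun i _ => mul_self_nonneg _
      have p2 : 0 ≤ (X.inc *ᵥ x) ⬝ᵥ (X.inc *ᵥ x) :=
        Finset.sum_nonneg fun i _ => mul_self_nonneg _
      exact ⟨dotProduct_self_eq_zero.mp (by linarith), dotProduct_self_eq_zero.mp (by linarith)⟩
    · rintro ⟨h1, h2⟩
      unfold lapZ
      rw [Matrix.add_mulVec, ← Matrix.mulVec_mulVec, ← Matrix.mulVec_mulVec, h1, h2,
        Matrix.mulVec_zero, Matrix.mulVec_zero, add_zero]
  have h1 := fr_map_add X.incᵀ.mulVecLin (LinearMap.ker X.inc.mulVecLin)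
  rw [← hker] at h1
  have h2 := fr_ker X.lapZ
  have h3 := fr_ker X.inc
  have h4 : Module.finrank ℤ ((LinearMap.ker X.inc.mulVecLin).map X.incᵀ.mulVecLin)
      ≤ X.inc.rank := by
    rw [← rank_transpose_int X.inc]
    exact Submodule.finrank_mono (LinearMap.map_le_range)
  have h5 : X.inc.rank
      ≤ Module.finrank ℤ ((LinearMap.ker X.inc.mulVecLin).map X.incᵀ.mulVecLin) := by
    have h6 : LinearMap.range (X.incᵀ * X.inc).mulVecLin
        ≤ (LinearMap.ker X.inc.mulVecLin).map X.incᵀ.mulVecLin := by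
      rintro _ ⟨x, rfl⟩
      refine ⟨X.inc *ᵥ x, ?_, ?_⟩
      · show X.inc *ᵥ (X.inc *ᵥ x) = 0
        rw [Matrix.mulVec_mulVec, X.hsq, Matrix.zero_mulVec]
      · show X.incᵀ *ᵥ (X.inc *ᵥ x) = (X.incᵀ * X.inc) *ᵥ x
        rw [Matrix.mulVec_mulVec]
    rw [← rank_tmul X.inc]
    exact Submodule.finrank_mono h6
  omega

variable {X : Cx}

theorem D_int (x : X.cell → ℤ) : X.D ℤ x = X.inc *ᵥ x := by
  funext a
  rw [D_apply]
  simp [Matrix.mulVec, dotProduct]

theorem map_D_int (W : Submodule ℤ (X.cell → ℤ)) : W.map (X.D ℤ) = W.map X.inc.mulVecLin := by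
  have : X.D ℤ = X.inc.mulVecLin := by
    apply LinearMap.ext; intro x; rw [D_int]; rfl
  rw [this]

/-- Each Betti number is at most the dimension of the space of harmonic chains. -/
theorem betti_le_harm (j : ℤ) : X.betti ℤ j + 2 * X.inc.rank ≤ Fintype.card X.cell := by
  have hD : X.D ℤ = X.inc.mulVecLin := by
    apply LinearMap.ext; intro x; rw [D_int]; rfl
  let R := LinearMap.range X.inc.mulVecLin
  have h1 := fr_map_add R.mkQ (X.Z ℤ j)
  have h2 := fr_map_add R.mkQ (LinearMap.ker X.inc.mulVecLin)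
  rw [Submodule.ker_mkQ] at h1 h2
  have e1 : X.Z ℤ j ⊓ R = X.B ℤ j := by
    apply le_antisymm
    · rintro x ⟨hx, ⟨y, hy⟩⟩
      refine ⟨fun c => if (X.deg c : ℤ) = j + 1 then y c else 0, fun c hc => if_neg hc, ?_⟩
      funext a
      rw [D_apply]
      by_cases ha : (X.deg a : ℤ) = j
      · rw [← hy]
        show _ = ∑ b, X.inc a b * y b
        refine Finset.sum_congr rfl fun b _ => ?_
        by_cases hb : (X.deg b : ℤ) = j + 1
        · simp [hb]
        · have h0 : X.inc a b = 0 := by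
            by_contra h0
            apply hb
            rw [X.hdeg a b h0]; push_cast; rw [ha]
          rw [h0]; simp
      · rw [hx.1 a ha]
        refine Finset.sum_eq_zero fun b _ => ?_
        by_cases hb : (X.deg b : ℤ) = j + 1
        · have h0 : X.inc a b = 0 := by
            by_contra h0
            apply ha
            have := X.hdeg a b h0
            omega
          rw [h0]; simp
        · simp [hb]
    · intro x hx
      refine ⟨B_le_Z j hx, ?_⟩
      obtain ⟨y, _, rfl⟩ := hx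
      exact ⟨y, by rw [hD]⟩
  have e2 : LinearMap.ker X.inc.mulVecLin ⊓ R = R := by
    apply inf_eq_right.mpr
    rintro _ ⟨x, rfl⟩
    show X.inc *ᵥ (X.inc *ᵥ x) = 0
    rw [Matrix.mulVec_mulVec, X.hsq, Matrix.zero_mulVec]
  rw [e1] at h1
  rw [e2] at h2
  have h3 : Module.finrank ℤ ((X.Z ℤ j).map R.mkQ)
      ≤ Module.finrank ℤ ((LinearMap.ker X.inc.mulVecLin).map R.mkQ) := by
    apply Submodule.finrank_mono
    apply Submodule.map_mono
    intro x hx
    have : X.D ℤ x = 0 := hx.2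
    rw [LinearMap.mem_ker, ← hD, this]
  have h4 := betti_add (X := X) ℤ j
  have h5 := fr_ker X.inc
  have h6 : Module.finrank ℤ R = X.inc.rank := rfl
  have h7 : Module.finrank ℤ (X.B ℤ j) = X.rkB ℤ j := rfl
  omega

theorem sum_rkB (d : ℕ) : ∑ j ∈ Finset.range (d + 1), X.rkB ℤ (j : ℤ) ≤ X.inc.rank := by
  have hD : X.D ℤ = X.inc.mulVecLin := by
    apply LinearMap.ext; intro x; rw [D_int]; rfl
  let Ψ : ((j : Fin (d + 1)) → X.B ℤ ((j : ℕ) : ℤ)) →ₗ[ℤ] (X.cell → ℤ) :=
    ∑ j : Fin (d + 1), (X.B ℤ ((j : ℕ) : ℤ)).subtype ∘ₗ LinearMap.proj j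
  have hΨ : ∀ b, Ψ b = ∑ j : Fin (d + 1), ((b j : X.cell → ℤ)) := by
    intro b
    simp [Ψ, LinearMap.sum_apply]
  have hinj : Function.Injective Ψ := by
    rw [← LinearMap.ker_eq_bot, LinearMap.ker_eq_bot']
    intro b hb
    funext j
    apply Subtype.ext
    funext c
    show (b j : X.cell → ℤ) c = 0
    by_cases hc : (X.deg c : ℤ) = ((j : ℕ) : ℤ)
    · have h1 := congrFun hb c
      rw [hΨ, Finset.sum_apply, Finset.sum_eq_single j] at h1
      · exact h1
      · intro i _ hi
        apply (B_le_Z _ (b i).2).1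
        intro h2
        apply hi
        apply Fin.ext
        omega
      · intro h; exact absurd (Finset.mem_univ _) h
    · exact (B_le_Z _ (b j).2).1 c hc
  have hle : LinearMap.range Ψ ≤ LinearMap.range X.inc.mulVecLin := by
    rintro _ ⟨b, rfl⟩
    rw [hΨ]
    refine Submodule.sum_mem _ fun j _ => ?_
    obtain ⟨y, _, hy⟩ := (b j).2
    rw [← hy, hD]
    exact ⟨y, rfl⟩
  have h1 := Submodule.finrank_mono hle
  rw [LinearMap.finrank_range_of_inj hinj, Module.finrank_pi_fintype] at h1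
  rw [Finset.sum_range]
  exact h1

/-- The dimension of the space of harmonic chains is at most the sum of the Betti numbers. -/
theorem harm_le_betti {d : ℕ} (hd : ∀ c, X.deg c ≤ d) :
    Fintype.card X.cell ≤ ∑ j ∈ Finset.range (d + 1), X.betti ℤ (j : ℤ) + 2 * X.inc.rank := by
  have h1 : (∑ j ∈ Finset.range (d + 1), (X.nc (j : ℤ) : ℤ)) = Fintype.card X.cell := by
    have h2 := Finset.card_eq_sum_card_fiberwise (s := (Finset.univ : Finset X.cell))
      (t := Finset.range (d + 1)) (f := X.deg)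
      (fun c _ => Finset.mem_coe.mpr (Finset.mem_range.mpr (Nat.lt_succ_of_le (hd c))))
    rw [Finset.card_univ] at h2
    rw [h2]
    push_cast
    refine Finset.sum_congr rfl fun j _ => ?_
    unfold nc
    congr 2
    ext c
    simp
  have h3 : ∀ j : ℕ, (X.betti ℤ (j : ℤ) : ℤ) = X.nc (j : ℤ) - X.rkB ℤ ((j : ℤ) - 1)
      - X.rkB ℤ (j : ℤ) := fun j => betti_eq ℤ (j : ℤ)
  have h4 := sum_rkB (X := X) d
  have h5 : ∑ j ∈ Finset.range (d + 1), X.rkB ℤ ((j : ℤ) - 1) ≤ X.inc.rank := by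
    refine le_trans ?_ h4
    rw [Finset.sum_range_succ', Finset.sum_range_succ]
    have h6 : X.rkB ℤ (((0 : ℕ) : ℤ) - 1) = 0 := rkB_zero_left ℤ (fun c => by
      have := Int.natCast_nonneg (X.deg c)
      push_cast
      omega)
    rw [h6, add_zero]
    have h7 : ∀ j : ℕ, X.rkB ℤ (((j + 1 : ℕ) : ℤ) - 1) = X.rkB ℤ (j : ℤ) := by
      intro j
      congr 1
      push_cast; ring
    simp_rw [h7]
    exact Nat.le_add_right _ _
  zify at h4 h5 ⊢
  rw [Finset.sum_congr rfl (fun j _ => h3 j), Finset.sum_sub_distrib, Finset.sum_sub_distrib, h1]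
  linarith

end Cx

end Pool.Agent.Helper183_TG
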