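import Pool.Agent.Helper183_TG.Lueck1

/-!
# The heat trace of a finite complex and its harmonic chains
-/

open Matrix

set_option linter.unusedSectionVars false

namespace Pool.Agent.Helper183_TG

namespace Cx

section

variable {c : Type} [Fintype c] [DecidableEq c]

theorem trace_pow_eq {A : Matrix c c ℝ} (hA : A.IsHermitian) (m : ℕ) :
    (A ^ m).trace = ∑ i, (hA.eigenvalues i) ^ m := by
  have h := hA.spectral_theorem
  have h2 : A ^ m = Unitary.conjStarAlgAut ℝ _ hA.eigenvectorUnitary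
      ((Matrix.diagonal (RCLike.ofReal ∘ hA.eigenvalues)) ^ m) := by
    rw [map_pow]
    exact congrArg (· ^ m) h
  rw [h2, Unitary.conjStarAlgAut_apply, Matrix.trace_mul_cycle, Unitary.coe_star_mul_self, one_mul,
    Matrix.diagonal_pow, Matrix.trace_diagonal]
  rfl

/-- The product of the nonzero eigenvalues of a positive semidefinite integer matrix is at least
one; hence few eigenvalues are small. -/
theorem few_small (L : Matrix c c ℤ) (hA : (L.map (Int.cast : ℤ → ℝ)).PosSemidef) {ε : ℝ}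
    (hε : 0 < ε) (hε1 : ε < 1) :
    ((Finset.univ.filter fun i => hA.1.eigenvalues i ≠ 0 ∧ hA.1.eigenvalues i ≤ ε).card : ℝ)
      * Real.log (1 / ε) ≤ (L.map (Int.cast : ℤ → ℝ)).trace := by
  classical
  let ev := hA.1.eigenvalues
  have hev : ∀ i, 0 ≤ ev i := fun i => hA.eigenvalues_nonneg i
  let S : Finset c := Finset.univ.filter fun i => ev i ≠ 0
  have hprod : 1 ≤ ∏ i ∈ S, ev i := by
    have h1 : (L.map (Int.cast : ℤ → ℝ)).charpoly
        = ∏ i, (Polynomial.X - Polynomial.C (ev i)) := hA.1.charpoly_eq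
    have h2 : (L.map (Int.cast : ℤ → ℝ)).charpoly = L.charpoly.map (Int.castRingHom ℝ) :=
      Matrix.charpoly_map L (Int.castRingHom ℝ)
    have h3 : ∏ i, (Polynomial.X - Polynomial.C (ev i))
        = (∏ i ∈ S, (Polynomial.X - Polynomial.C (ev i)))
          * Polynomial.X ^ (Finset.univ.filter fun i => ¬ ev i ≠ 0).card := by
      rw [← Finset.prod_filter_mul_prod_filter_not Finset.univ (fun i => ev i ≠ 0)]
      congr 1
      rw [← Finset.prod_const]
      refine Finset.prod_congr rfl fun i hi => ?_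
      have h4 : ev i = 0 := not_not.mp (Finset.mem_filter.mp hi).2
      rw [h4, Polynomial.C_0, sub_zero]
    have h5 : ((L.charpoly.coeff (Finset.univ.filter fun i => ¬ ev i ≠ 0).card : ℤ) : ℝ)
        = ∏ i ∈ S, (-ev i) := by
      have h6 : ((L.charpoly.coeff (Finset.univ.filter fun i => ¬ ev i ≠ 0).card : ℤ) : ℝ)
          = (L.charpoly.map (Int.castRingHom ℝ)).coeff
            (Finset.univ.filter fun i => ¬ ev i ≠ 0).card := by
        rw [Polynomial.coeff_map]; rfl
      rw [h6, ← h2, h1, h3, Polynomial.coeff_mul_X_pow', if_pos (le_refl _), Nat.sub_self,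
        Polynomial.coeff_zero_eq_eval_zero, Polynomial.eval_prod]
      refine Finset.prod_congr rfl fun i _ => ?_
      simp
    have h7 : ∏ i ∈ S, ev i ≠ 0 := Finset.prod_ne_zero_iff.mpr fun i hi => (Finset.mem_filter.mp hi).2
    have h8 : 0 ≤ ∏ i ∈ S, ev i := Finset.prod_nonneg fun i _ => hev i
    have h9 : |∏ i ∈ S, (-ev i)| = ∏ i ∈ S, ev i := by
      rw [Finset.abs_prod]
      exact Finset.prod_congr rfl fun i _ => by rw [abs_neg, abs_of_nonneg (hev i)]
    rw [← h9, ← h5]
    have h10 : L.charpoly.coeff (Finset.univ.filter fun i => ¬ ev i ≠ 0).card ≠ 0 := by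
      intro h11
      rw [h11, Int.cast_zero] at h5
      rw [← h5, abs_zero] at h9
      exact h7 h9.symm
    have h12 : 1 ≤ |L.charpoly.coeff (Finset.univ.filter fun i => ¬ ev i ≠ 0).card| :=
      Int.one_le_abs h10
    exact_mod_cast h12
  have hlog : 0 ≤ ∑ i ∈ S, Real.log (ev i) := by
    rw [← Real.log_prod (fun i hi => (Finset.mem_filter.mp hi).2)]
    exact Real.log_nonneg hprod
  have hsplit : ∑ i ∈ S, Real.log (ev i)
      ≤ -(((Finset.univ.filter fun i => ev i ≠ 0 ∧ ev i ≤ ε).card : ℝ) * Real.log (1 / ε))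
        + ∑ i, ev i := by
    have h1 : ∀ i ∈ S, Real.log (ev i) ≤ (if ev i ≤ ε then -Real.log (1 / ε) else 0) + ev i := by
      intro i hi
      have h0 : ev i ≠ 0 := (Finset.mem_filter.mp hi).2
      have hpos : 0 < ev i := lt_of_le_of_ne (hev i) (Ne.symm h0)
      by_cases h2 : ev i ≤ ε
      · rw [if_pos h2]
        have h3 := Real.log_le_log hpos h2
        rw [one_div, Real.log_inv, neg_neg]
        linarith
      · rw [if_neg h2]
        have := Real.log_le_sub_one_of_pos hpos
        linarith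
    refine (Finset.sum_le_sum h1).trans ?_
    rw [Finset.sum_add_distrib]
    have h2 : ∑ i ∈ S, (if ev i ≤ ε then -Real.log (1 / ε) else 0)
        = -(((Finset.univ.filter fun i => ev i ≠ 0 ∧ ev i ≤ ε).card : ℝ) * Real.log (1 / ε)) := by
      rw [← Finset.sum_filter, Finset.filter_filter, Finset.sum_const, nsmul_eq_mul]
      ring
    rw [h2]
    have h3 : ∑ i ∈ S, ev i ≤ ∑ i, ev i :=
      Finset.sum_le_sum_of_subset_of_nonneg (Finset.filter_subset _ _) fun i _ _ => hev i
    linarith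
  have htr : (L.map (Int.cast : ℤ → ℝ)).trace = ∑ i, ev i := by
    have := hA.1.trace_eq_sum_eigenvalues
    simpa using this
  rw [htr]
  linarith

end

/-- The real Laplacian. -/
noncomputable def lapR (X : Cx) : Matrix X.cell X.cell ℝ := X.lapZ.map (Int.cast : ℤ → ℝ)

theorem lapR_psd (X : Cx) : X.lapR.PosSemidef := by
  let B : Matrix X.cell X.cell ℝ := X.inc.map (Int.cast : ℤ → ℝ)
  have h1 : X.lapR = B * Bᴴ + Bᴴ * B := by
    unfold lapR lapZ
    have e : ∀ M : Matrix X.cell X.cell ℤ, M.map (Int.cast : ℤ → ℝ) = (Int.castRingHom ℝ).mapMatrix M :=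
      fun _ => rfl
    rw [e, map_add, map_mul, map_mul, Matrix.conjTranspose_eq_transpose_of_trivial]
    rfl
  rw [h1]
  exact (Matrix.posSemidef_self_mul_conjTranspose B).add (Matrix.posSemidef_conjTranspose_mul_self B)

/-- The heat trace. -/
noncomputable def heatX (X : Cx) (t : ℝ) : ℝ :=
  ∑' m : ℕ, (-t) ^ m / (m.factorial : ℝ) * ((X.lapZ ^ m).trace : ℝ)

theorem heatX_eq (X : Cx) (t : ℝ) :
    X.heatX t = ∑ i, Real.exp (-t * X.lapR_psd.1.eigenvalues i) := by
  have h1 : ∀ m : ℕ, (-t) ^ m / (m.factorial : ℝ) * ((X.lapZ ^ m).trace : ℝ)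
      = ∑ i, (-t * X.lapR_psd.1.eigenvalues i) ^ m / (m.factorial : ℝ) := by
    intro m
    have h2 : (((X.lapZ ^ m).trace : ℤ) : ℝ) = (X.lapR ^ m).trace := by
      have e : X.lapR ^ m = (Int.castRingHom ℝ).mapMatrix (X.lapZ ^ m) := by
        rw [map_pow]; rfl
      rw [e]
      simp [Matrix.trace]
    rw [h2, trace_pow_eq X.lapR_psd.1, Finset.mul_sum]
    refine Finset.sum_congr rfl fun i _ => ?_
    rw [mul_pow]; ring
  unfold heatX
  simp_rw [h1]
  have h3 : ∀ i, HasSum (fun m : ℕ => (-t * X.lapR_psd.1.eigenvalues i) ^ m / (m.factorial : ℝ))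
      (Real.exp (-t * X.lapR_psd.1.eigenvalues i)) := by
    intro i
    have h4 := NormedSpace.expSeries_div_hasSum_exp (-t * X.lapR_psd.1.eigenvalues i)
    rwa [← Real.exp_eq_exp_ℝ] at h4
  exact (hasSum_sum fun i _ => h3 i).tsum_eq

theorem card_zero (X : Cx) :
    (Finset.univ.filter fun i => X.lapR_psd.1.eigenvalues i = 0).card + 2 * X.inc.rank
      = Fintype.card X.cell := by
  have h1 : X.lapR.rank = 2 * X.inc.rank := by
    unfold lapR
    rw [rank_int_real, rank_lap]
  have h2 := X.lapR_psd.1.rank_eq_card_non_zero_eigs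
  rw [h1, Fintype.card_subtype] at h2
  rw [h2]
  exact Finset.card_filter_add_card_filter_not _

/-- Lower bound: the Betti numbers are at most the heat trace. -/
theorem betti_le_heat (X : Cx) (j : ℤ) (t : ℝ) : (X.betti ℤ j : ℝ) ≤ X.heatX t := by
  have h1 := betti_le_harm (X := X) j
  have h2 := X.card_zero
  have h3 : X.betti ℤ j ≤ (Finset.univ.filter fun i => X.lapR_psd.1.eigenvalues i = 0).card := by
    omega
  have h4 : ((Finset.univ.filter fun i => X.lapR_psd.1.eigenvalues i = 0).card : ℝ)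
      ≤ X.heatX t := by
    rw [heatX_eq, Finset.card_filter]
    push_cast
    refine Finset.sum_le_sum fun i _ => ?_
    by_cases h : X.lapR_psd.1.eigenvalues i = 0
    · rw [if_pos h, h, mul_zero, Real.exp_zero]
    · rw [if_neg h]; exact (Real.exp_pos _).le
  exact le_trans (by exact_mod_cast h3) h4

theorem heatX_nonneg (X : Cx) (t : ℝ) : 0 ≤ X.heatX t := by
  rw [heatX_eq]
  exact Finset.sum_nonneg fun i _ => (Real.exp_pos _).le

/-- Upper bound for the heat trace. -/
theorem heat_le (X : Cx) {d : ℕ} (hd : ∀ c, X.deg c ≤ d) {t ε : ℝ} (ht : 0 ≤ t) (hε : 0 < ε)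
    (hε1 : ε < 1) :
    X.heatX t ≤ ∑ j ∈ Finset.range (d + 1), (X.betti ℤ (j : ℤ) : ℝ)
      + (X.lapZ.trace : ℝ) / Real.log (1 / ε) + Real.exp (-t * ε) * Fintype.card X.cell := by
  have hl : 0 < Real.log (1 / ε) := Real.log_pos (by rw [lt_div_iff₀ hε, one_mul]; exact hε1)
  have h1 := harm_le_betti (X := X) hd
  have h2 := X.card_zero
  have h3 : (Finset.univ.filter fun i => X.lapR_psd.1.eigenvalues i = 0).card
      ≤ ∑ j ∈ Finset.range (d + 1), X.betti ℤ (j : ℤ) := by omega
  have h4 := few_small X.lapZ X.lapR_psd hε hε1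
  have h5 : (X.lapZ.map (Int.cast : ℤ → ℝ)).trace = ((X.lapZ.trace : ℤ) : ℝ) := by
    simp [Matrix.trace]
  rw [h5, ← le_div_iff₀ hl] at h4
  rw [heatX_eq]
  have hev : ∀ i, 0 ≤ X.lapR_psd.1.eigenvalues i := fun i => X.lapR_psd.eigenvalues_nonneg i
  have h6 : ∀ i, Real.exp (-t * X.lapR_psd.1.eigenvalues i)
      ≤ (if X.lapR_psd.1.eigenvalues i = 0 then 1 else 0)
        + (if X.lapR_psd.1.eigenvalues i ≠ 0 ∧ X.lapR_psd.1.eigenvalues i ≤ ε then 1 else 0)
        + Real.exp (-t * ε) := by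
    intro i
    have he := (Real.exp_pos (-t * ε)).le
    have h7 : Real.exp (-t * X.lapR_psd.1.eigenvalues i) ≤ 1 := by
      rw [Real.exp_le_one_iff]
      have := mul_nonneg ht (hev i)
      linarith
    by_cases h8 : X.lapR_psd.1.eigenvalues i = 0
    · rw [if_pos h8, if_neg (fun h => h.1 h8)]
      linarith
    · by_cases h9 : X.lapR_psd.1.eigenvalues i ≤ ε
      · rw [if_neg h8, if_pos ⟨h8, h9⟩]
        linarith
      · rw [if_neg h8, if_neg (fun h => h9 h.2), zero_add, zero_add]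
        apply Real.exp_le_exp.mpr
        have := mul_le_mul_of_nonneg_left (not_le.mp h9).le ht
        linarith
  refine (Finset.sum_le_sum fun i _ => h6 i).trans ?_
  rw [Finset.sum_add_distrib, Finset.sum_add_distrib, Finset.sum_const, Finset.card_univ,
    nsmul_eq_mul]
  have e1 : ∑ i, (if X.lapR_psd.1.eigenvalues i = 0 then (1 : ℝ) else 0)
      = (Finset.univ.filter fun i => X.lapR_psd.1.eigenvalues i = 0).card := by
    rw [Finset.card_filter]; push_cast; rfl
  have e2 : ∑ i, (if X.lapR_psd.1.eigenvalues i ≠ 0 ∧ X.lapR_psd.1.eigenvalues i ≤ ε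
      then (1 : ℝ) else 0)
      = (Finset.univ.filter fun i => X.lapR_psd.1.eigenvalues i ≠ 0
        ∧ X.lapR_psd.1.eigenvalues i ≤ ε).card := by
    rw [Finset.card_filter]; push_cast; rfl
  rw [e1, e2]
  have h10 : ((Finset.univ.filter fun i => X.lapR_psd.1.eigenvalues i = 0).card : ℝ)
      ≤ ∑ j ∈ Finset.range (d + 1), (X.betti ℤ (j : ℤ) : ℝ) := by exact_mod_cast h3
  have h11 : ((Finset.univ.filter fun i => X.lapR_psd.1.eigenvalues i ≠ 0
        ∧ X.lapR_psd.1.eigenvalues i ≤ ε).card : ℝ) ≤ (X.lapZ.trace : ℝ) / Real.log (1 / ε) := h4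
  have h12 : (Fintype.card X.cell : ℝ) * Real.exp (-t * ε)
      = Real.exp (-t * ε) * Fintype.card X.cell := mul_comm _ _
  rw [h12]
  linarith

end Cx

end Pool.Agent.Helper183_TG
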