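import Pool.Agent.Helper183_TG.Main
import Pool.Agent.Helper183_TG.Asph

/-!
# Counterexamples to the torsion growth conjecture among aspherical complexes
-/

open Filter Topology

namespace Pool.Agent.Helper183_TG

namespace CoverTower

/-- The universal cover is contractible. -/
def Aspherical (T : CoverTower) : Prop := T.E.Aspherical

/-- `T` satisfies the assumptions of Q1 (aspherical, odd dimension `2k + 1`, vanishing `L²`-Betti
numbers) and it is not true that `log |tors H_k(M_n)| / [Γ : Γ_n]` converges to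
`(-1)^k ρ^{(2)}`. -/
def RefutesQ1 (T : CoverTower) : Prop := T.Aspherical ∧ T.Refutes

theorem aspherical_prod {S T : CoverTower} (hS : S.Aspherical) (hT : T.Aspherical) :
    (S.prod T).Aspherical := ECx.Aspherical.prod hS hT

theorem aspherical_pow {T : CoverTower} (hT : T.Aspherical) (m : ℕ) : (T.pow m).Aspherical := by
  induction m with
  | zero => exact hT
  | succ m ih => exact aspherical_prod hT ih

theorem mainAsph (A N : CoverTower) (k p r : ℕ) [Fact p.Prime] (hAa : A.Aspherical)
    (hNs : N.Aspherical) (hN : Odd N.dim) (hNa : N.Acyclic)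
    (hρ : N.E.rho ≠ 0) (hdim : A.dim = 2 * k + 1) (hd : A.Duality ℤ) (hdp : A.Duality (ZMod p))
    (hg : A.ModGrowth p) (hr : k ≤ r) (hr1 : 1 ≤ r) :
    N.RefutesQ1 ∨ (A.prod (A.prod N)).RefutesQ1 ∨ (A.pow (2 * r)).RefutesQ1 := by
  rcases main A N k p r hN hNa hρ hdim hd hdp hg hr hr1 with h | h | h
  · exact Or.inl ⟨hNs, h⟩
  · exact Or.inr (Or.inl ⟨aspherical_prod hAa (aspherical_prod hAa hNs), h⟩)
  · exact Or.inr (Or.inr ⟨aspherical_pow hAa _, h⟩)

end CoverTower

end Pool.Agent.Helper183_TG
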