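import Pool.Agent.Helper183_TG.Square
import Pool.Agent.Helper183_TG.MainAsph

/-!
# Violations of Lück's conjecture among aspherical complexes
-/

namespace Pool.Agent.Helper183_TG

namespace CoverTower

/-- `T` is aspherical and violates Lück's conjecture (Q1 of MP_228c3b_gt). -/
def ViolatesQ1 (T : CoverTower) : Prop := T.Aspherical ∧ T.Violates

theorem squareAsph (A : CoverTower) (p : ℕ) [Fact p.Prime] (hAs : A.Aspherical) (hA : Odd A.dim)
    (hg : A.ModGrowth p) : A.ViolatesQ1 ∨ (A.prod A).ViolatesQ1 := by
  rcases square A p hA hg with h | h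
  · exact Or.inl ⟨hAs, h⟩
  · exact Or.inr ⟨aspherical_prod hAs hAs, h⟩

end CoverTower

end Pool.Agent.Helper183_TG
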