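import Pool.Agent.Helper183_TG.PDLevel
import Pool.Agent.Helper183_TG.SquareAsph

/-!
# Counterexamples among aspherical Poincaré complexes
-/

open Filter Topology

namespace Pool.Agent.Helper183_TG

namespace CoverTower

/-- The cellular chain complex of the universal cover satisfies Poincaré duality over `ℤΓ` in
dimension `dim`. -/
def Poincare (T : CoverTower) : Prop := T.E.Poincare T.dim

theorem poincare_prod {S T : CoverTower} (hS : S.Poincare) (hT : T.Poincare) :
    (S.prod T).Poincare := ECx.Poincare.prod hS hT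

theorem poincare_pow {T : CoverTower} (hT : T.Poincare) (m : ℕ) : (T.pow m).Poincare := by
  induction m with
  | zero => exact hT
  | succ m ih => exact poincare_prod hT ih

/-- Poincaré duality over `ℤΓ` implies Poincaré duality for the Betti numbers of the covers. -/
theorem duality_of_poincare (T : CoverTower) (h : T.Poincare) (R : Type) [CommRing R] [IsDomain R]
    [IsPrincipalIdealRing R]
    (hT : ∀ (c : Type) [Fintype c] [DecidableEq c] (M : Matrix c c R), M.transpose.rank = M.rank) :
    T.Duality R := by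
  intro n i j hij
  have h1 : (T.level n).PD T.dim :=
    @ECx.Poincare.level T.Γ _ T.E T.dim h (T.Γ ⧸ T.N n) _ (Fintype.ofFinite _)
      (Classical.decEq _) (QuotientGroup.mk' (T.N n))
  have h2 := h1.betti (fun c => T.deg_le c.2) R (fun M => hT _ M) i
  have e : (T.dim : ℤ) - (i : ℤ) = j := by omega
  rw [e] at h2
  exact h2

/-- `T` is an aspherical Poincaré complex of odd dimension `2k + 1` with vanishing `L²`-Betti
numbers and it is not true that `log |tors H_k(M_n)| / [Γ : Γ_n]` converges to
`(-1)^k ρ^{(2)}`. -/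
def CounterQ1 (T : CoverTower) : Prop := T.Aspherical ∧ T.Poincare ∧ T.Refutes

theorem mainPD (A N : CoverTower) (k p r : ℕ) [Fact p.Prime] (hAa : A.Aspherical)
    (hAp : A.Poincare) (hNs : N.Aspherical) (hNp : N.Poincare) (hN : Odd N.dim)
    (hNa : N.Acyclic) (hρ : N.E.rho ≠ 0) (hdim : A.dim = 2 * k + 1) (hg : A.ModGrowth p)
    (hr : k ≤ r) (hr1 : 1 ≤ r) :
    N.CounterQ1 ∨ (A.prod (A.prod N)).CounterQ1 ∨ (A.pow (2 * r)).CounterQ1 := by
  have hZ : A.Duality ℤ :=
    A.duality_of_poincare hAp ℤ (fun c _ _ M => Cx.rank_transpose_int M)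
  have hP : A.Duality (ZMod p) :=
    A.duality_of_poincare hAp (ZMod p) (fun c _ _ M => Matrix.rank_transpose M)
  rcases main A N k p r hN hNa hρ hdim hZ hP hg hr hr1 with h | h | h
  · exact Or.inl ⟨hNs, hNp, h⟩
  · exact Or.inr (Or.inl ⟨aspherical_prod hAa (aspherical_prod hAa hNs),
      poincare_prod hAp (poincare_prod hAp hNp), h⟩)
  · exact Or.inr (Or.inr ⟨aspherical_pow hAa _, poincare_pow hAp _, h⟩)

/-- `T` is an aspherical Poincaré complex violating Lück's conjecture (Q1 of MP_228c3b_gt). -/
def CounterLueck (T : CoverTower) : Prop := T.Aspherical ∧ T.Poincare ∧ T.Violates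

theorem squarePD (A : CoverTower) (p : ℕ) [Fact p.Prime] (hAs : A.Aspherical) (hAp : A.Poincare)
    (hA : Odd A.dim) (hg : A.ModGrowth p) : A.CounterLueck ∨ (A.prod A).CounterLueck := by
  rcases square A p hA hg with h | h
  · exact Or.inl ⟨hAs, hAp, h⟩
  · exact Or.inr ⟨aspherical_prod hAs hAs, poincare_prod hAp hAp, h⟩

end CoverTower

end Pool.Agent.Helper183_TG
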