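import Pool.Agent.Helper183_TG.Lueck2
import Pool.Agent.Helper183_TG.MainPD

/-!
# Lück's approximation theorem for the vanishing of the `L²`-Betti numbers
-/

open Filter Topology MonoidAlgebra

set_option linter.unusedSectionVars false

namespace Pool.Agent.Helper183_TG

namespace ECx

variable {Γ : Type} [Group Γ]

/-- `tr_Γ(Δ^m)` for the Laplacian `Δ` in all degrees. -/
noncomputable def trm (E : ECx Γ) (m : ℕ) : ℤ := ∑ a, gtr ((E.lap ^ m) a a)

/-- The heat trace `tr_Γ(e^{-tΔ})` of the Laplacian `Δ` in all degrees. -/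
noncomputable def theat (E : ECx Γ) (t : ℝ) : ℝ :=
  ∑' m : ℕ, (-t) ^ m / (m.factorial : ℝ) * (E.trm m : ℝ)

/-- All `L²`-Betti numbers vanish: their sum is the von Neumann dimension of the kernel of the
Laplacian in all degrees, which is the limit of the heat trace `tr_Γ(e^{-tΔ})` for `t → ∞`. -/
def L2Acyclic (E : ECx Γ) : Prop := Tendsto E.theat atTop (𝓝 0)

section level

variable {Q : Type} [Group Q] [Fintype Q] [DecidableEq Q]

theorem lapZ_level (E : ECx Γ) (π : Γ →* Q) : (E.level π).lapZ = lev π E.lap := by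
  unfold Cx.lapZ lap
  rw [lev_add, lev_mul, lev_mul, lev_adj]
  rfl

theorem lapZ_pow (E : ECx Γ) (π : Γ →* Q) (m : ℕ) :
    (E.level π).lapZ ^ m = lev π (E.lap ^ m) := by
  induction m with
  | zero => rw [pow_zero, pow_zero, lev_one]
  | succ m ih => rw [pow_succ, pow_succ, lev_mul, ih, lapZ_level]

theorem trace_level (E : ECx Γ) (π : Γ →* Q) (m : ℕ) :
    ((E.level π).lapZ ^ m).trace
      = Fintype.card Q * ∑ a, (mapDomainRingHom ℤ π ((E.lap ^ m) a a)).coeff 1 := by
  rw [lapZ_pow]
  have h : (lev π (E.lap ^ m)).trace = ∑ q : Q, ∑ a : E.cell,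
      (mapDomainRingHom ℤ π ((E.lap ^ m) a a)).coeff (q * q⁻¹) := by
    rw [← Fintype.sum_prod_type']
    rfl
  refine h.trans ?_
  simp_rw [mul_inv_cancel]
  rw [Finset.sum_const, Finset.card_univ, nsmul_eq_mul]

end level

theorem l1_bound (x : MonoidAlgebra ℤ Γ) : ∃ C : ℤ, 0 ≤ C ∧ ∀ (Q : Type) [Group Q] [Fintype Q]
    (π : Γ →* Q), ∑ q : Q, |(mapDomainRingHom ℤ π x).coeff q| ≤ C := by
  classical
  induction x using induction_linear with
  | zero =>
    refine ⟨0, le_refl _, fun Q _ _ π => ?_⟩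
    rw [map_zero]
    simp
  | add a b ha hb =>
    obtain ⟨C, hC, h⟩ := ha
    obtain ⟨C', hC', h'⟩ := hb
    refine ⟨C + C', by omega, fun Q _ _ π => ?_⟩
    refine le_trans ?_ (add_le_add (h Q π) (h' Q π))
    rw [← Finset.sum_add_distrib]
    refine Finset.sum_le_sum fun q _ => ?_
    rw [map_add, coeff_add, Finsupp.add_apply]
    exact abs_add_le _ _
  | single g r =>
    refine ⟨|r|, abs_nonneg _, fun Q _ _ π => ?_⟩
    have h1 : mapDomainRingHom ℤ π (single g r) = single (π g) r := mapDomain_single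
    rw [h1, coeff_single]
    have h2 : ∀ q : Q, |(Finsupp.single (π g) r : Q →₀ ℤ) q| = if q = π g then |r| else 0 := by
      intro q
      rw [Finsupp.single_apply]
      by_cases h : π g = q
      · rw [if_pos h, if_pos h.symm]
      · rw [if_neg h, if_neg (Ne.symm h), abs_zero]
    simp_rw [h2]
    rw [Finset.sum_ite_eq' Finset.univ (π g) (fun _ => |r|), if_pos (Finset.mem_univ _)]

theorem row_bound (E : ECx Γ) : ∃ K : ℤ, 0 ≤ K ∧ ∀ (Q : Type) [Group Q] [Fintype Q]
    [DecidableEq Q] (π : Γ →* Q) (k : Q × E.cell), ∑ j, |lev π E.lap k j| ≤ K := by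
  choose C hC h using fun (a b : E.cell) => l1_bound (E.lap a b)
  refine ⟨∑ a, ∑ b, C a b, Finset.sum_nonneg fun a _ => Finset.sum_nonneg fun b _ => hC a b, ?_⟩
  intro Q _ _ _ π k
  rw [Fintype.sum_prod_type, Finset.sum_comm]
  have h1 : ∀ b : E.cell, ∑ y : Q, |lev π E.lap k (y, b)| ≤ C k.2 b := by
    intro b
    refine le_trans (le_of_eq ?_) (h k.2 b Q π)
    exact Fintype.sum_equiv ((Equiv.inv Q).trans (Equiv.mulLeft k.1)) _ _ fun y => rfl
  refine (Finset.sum_le_sum fun b _ => h1 b).trans ?_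
  exact Finset.single_le_sum (f := fun a => ∑ b, C a b)
    (fun a _ => Finset.sum_nonneg fun b _ => hC a b) (Finset.mem_univ k.2)

theorem row_pow {c : Type} [Fintype c] [DecidableEq c] (A : Matrix c c ℤ) (K : ℤ) (hK0 : 0 ≤ K)
    (hK : ∀ k, ∑ j, |A k j| ≤ K) (m : ℕ) : ∀ k, ∑ j, |(A ^ m) k j| ≤ K ^ m := by
  induction m with
  | zero =>
    intro k
    rw [pow_zero, pow_zero]
    have : ∀ j, |(1 : Matrix c c ℤ) k j| = if k = j then 1 else 0 := by
      intro j
      rw [Matrix.one_apply]
      by_cases h : k = j <;> simp [h]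
    simp_rw [this]
    simp
  | succ m ih =>
    intro k
    have h1 : ∀ j, |(A ^ (m + 1)) k j| ≤ ∑ i, |(A ^ m) k i| * |A i j| := by
      intro j
      rw [pow_succ, Matrix.mul_apply]
      refine (Finset.abs_sum_le_sum_abs _ _).trans (le_of_eq ?_)
      exact Finset.sum_congr rfl fun i _ => abs_mul _ _
    refine (Finset.sum_le_sum fun j _ => h1 j).trans ?_
    rw [Finset.sum_comm]
    simp_rw [← Finset.mul_sum]
    calc ∑ i, |(A ^ m) k i| * ∑ j, |A i j| ≤ ∑ i, |(A ^ m) k i| * K :=
          Finset.sum_le_sum fun i _ => mul_le_mul_of_nonneg_left (hK i) (abs_nonneg _)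
      _ = (∑ i, |(A ^ m) k i|) * K := by rw [Finset.sum_mul]
      _ ≤ K ^ m * K := mul_le_mul_of_nonneg_right (ih k) hK0
      _ = K ^ (m + 1) := (pow_succ K m).symm

theorem trace_pow_le {c : Type} [Fintype c] [DecidableEq c] (A : Matrix c c ℤ) (K : ℤ)
    (hK0 : 0 ≤ K) (hK : ∀ k, ∑ j, |A k j| ≤ K) (m : ℕ) :
    |(A ^ m).trace| ≤ Fintype.card c * K ^ m := by
  have h : ∀ k, |(A ^ m) k k| ≤ K ^ m := fun k =>
    (Finset.single_le_sum (f := fun j => |(A ^ m) k j|) (fun j _ => abs_nonneg _)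
      (Finset.mem_univ k)).trans (row_pow A K hK0 hK m k)
  calc |(A ^ m).trace| ≤ ∑ k, |(A ^ m) k k| := Finset.abs_sum_le_sum_abs _ _
    _ ≤ ∑ _k : c, K ^ m := Finset.sum_le_sum fun k _ => h k
    _ = _ := by rw [Finset.sum_const, Finset.card_univ, nsmul_eq_mul]

end ECx

namespace CoverTower

variable (T : CoverTower)

theorem idx_pos (n : ℕ) : (0 : ℝ) < (T.N n).index := by
  exact_mod_cast Nat.pos_of_ne_zero Subgroup.FiniteIndex.index_ne_zero

theorem card_level (n : ℕ) :
    Fintype.card (T.level n).cell = (T.N n).index * Fintype.card T.E.cell := by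
  have h : Fintype.card (T.level n).cell = Nat.card (T.level n).cell := by
    rw [Nat.card_eq_fintype_card]
  have h2 : Nat.card (T.level n).cell = Nat.card ((T.Γ ⧸ T.N n) × T.E.cell) := rfl
  rw [h, h2, Nat.card_prod, Nat.card_eq_fintype_card (α := T.E.cell)]
  rfl

theorem coeff_eventually (x : MonoidAlgebra ℤ T.Γ) : ∀ᶠ n in atTop,
    (mapDomainRingHom ℤ (QuotientGroup.mk' (T.N n)) x).coeff 1 = gtr x := by
  classical
  induction x using induction_linear with
  | zero =>
    refine Eventually.of_forall fun n => ?_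
    rw [map_zero]; rfl
  | add a b ha hb =>
    filter_upwards [ha, hb] with n h1 h2
    rw [map_add, coeff_add, Finsupp.add_apply, h1, h2, gtr_add]
  | single g r =>
    have h1 : ∀ n, mapDomainRingHom ℤ (QuotientGroup.mk' (T.N n)) (single g r)
        = single (QuotientGroup.mk' (T.N n) g) r := fun n => mapDomain_single
    by_cases hg : g = 1
    · refine Eventually.of_forall fun n => ?_
      rw [h1]
      show (Finsupp.single (QuotientGroup.mk' (T.N n) g) r : _ →₀ ℤ) 1
        = (Finsupp.single g r : _ →₀ ℤ) 1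
      have h5 : QuotientGroup.mk' (T.N n) (1 : T.Γ) = 1 := map_one _
      rw [hg, h5, Finsupp.single_eq_same, Finsupp.single_eq_same]
    · have h2 : ∃ n0, g ∉ T.N n0 := by
        by_contra h3
        push Not at h3
        have h4 : g ∈ ⨅ n, T.N n := Subgroup.mem_iInf.mpr h3
        rw [T.inter, Subgroup.mem_bot] at h4
        exact hg h4
      obtain ⟨n0, hn0⟩ := h2
      filter_upwards [eventually_ge_atTop n0] with n hn
      have h3 : g ∉ T.N n := fun h => hn0 (T.anti hn h)
      rw [h1]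
      show (Finsupp.single (QuotientGroup.mk' (T.N n) g) r : _ →₀ ℤ) 1
        = (Finsupp.single g r : _ →₀ ℤ) 1
      rw [Finsupp.single_apply, Finsupp.single_apply, if_neg hg, if_neg]
      intro h4
      exact h3 ((QuotientGroup.eq_one_iff g).mp h4)

/-- The normalized traces of the powers of the Laplacian of the covers. -/
theorem trace_div (n m : ℕ) : ((((T.level n).lapZ ^ m).trace : ℤ) : ℝ) / (T.N n).index
    = ((∑ a, (mapDomainRingHom ℤ (QuotientGroup.mk' (T.N n)) ((T.E.lap ^ m) a a)).coeff 1 : ℤ) : ℝ)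
    := by
  let _ : Fintype (T.Γ ⧸ T.N n) := Fintype.ofFinite _
  let _ : DecidableEq (T.Γ ⧸ T.N n) := Classical.decEq _
  have h := ECx.trace_level T.E (QuotientGroup.mk' (T.N n)) m
  have h2 : ((T.level n).lapZ ^ m).trace = Fintype.card (T.Γ ⧸ T.N n)
      * ∑ a, (mapDomainRingHom ℤ (QuotientGroup.mk' (T.N n)) ((T.E.lap ^ m) a a)).coeff 1 := h
  have h3 : (Fintype.card (T.Γ ⧸ T.N n) : ℤ) = (T.N n).index := by
    rw [← Nat.card_eq_fintype_card]; rfl
  rw [h2, h3]
  have h4 := (T.idx_pos n).ne'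
  push_cast
  field_simp

theorem trace_tendsto (m : ℕ) :
    Tendsto (fun n => ((((T.level n).lapZ ^ m).trace : ℤ) : ℝ) / (T.N n).index) atTop
      (𝓝 (T.E.trm m : ℝ)) := by
  have h : ∀ᶠ n in atTop, ∀ a, (mapDomainRingHom ℤ (QuotientGroup.mk' (T.N n))
      ((T.E.lap ^ m) a a)).coeff 1 = gtr ((T.E.lap ^ m) a a) :=
    eventually_all.mpr fun a => T.coeff_eventually _
  apply tendsto_const_nhds.congr'
  filter_upwards [h] with n hn
  rw [trace_div]
  unfold ECx.trm
  rw [Finset.sum_congr rfl fun a _ => hn a]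

theorem trace_bound : ∃ K : ℝ, 0 ≤ K ∧ ∀ n m,
    |((((T.level n).lapZ ^ m).trace : ℤ) : ℝ) / (T.N n).index| ≤ Fintype.card T.E.cell * K ^ m := by
  obtain ⟨K, hK0, hK⟩ := T.E.row_bound
  refine ⟨K, by exact_mod_cast hK0, fun n m => ?_⟩
  let _ : Fintype (T.Γ ⧸ T.N n) := Fintype.ofFinite _
  let _ : DecidableEq (T.Γ ⧸ T.N n) := Classical.decEq _
  have h1 : ∀ k, ∑ j, |(T.level n).lapZ k j| ≤ K := by
    intro k
    have h2 : (T.level n).lapZ = lev (QuotientGroup.mk' (T.N n)) T.E.lap :=
      ECx.lapZ_level T.E (QuotientGroup.mk' (T.N n))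
    rw [h2]
    exact hK (T.Γ ⧸ T.N n) (QuotientGroup.mk' (T.N n)) k
  have h2 := ECx.trace_pow_le (T.level n).lapZ K hK0 h1 m
  rw [T.card_level] at h2
  have hp := T.idx_pos n
  rw [abs_div, abs_of_pos hp, div_le_iff₀ hp]
  have h3 : ((|((T.level n).lapZ ^ m).trace| : ℤ) : ℝ)
      ≤ (((T.N n).index * Fintype.card T.E.cell : ℕ) : ℝ) * (K : ℝ) ^ m := by exact_mod_cast h2
  rw [Int.cast_abs] at h3
  push_cast at h3
  linarith

/-- Convergence of the normalized heat traces. -/
theorem heat_tendsto (t : ℝ) :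
    Tendsto (fun n => (T.level n).heatX t / (T.N n).index) atTop (𝓝 (T.E.theat t)) := by
  obtain ⟨K, hK0, hK⟩ := T.trace_bound
  have h1 : ∀ n, (T.level n).heatX t / (T.N n).index
      = ∑' m : ℕ, (-t) ^ m / (m.factorial : ℝ)
        * (((((T.level n).lapZ ^ m).trace : ℤ) : ℝ) / (T.N n).index) := by
    intro n
    unfold Cx.heatX
    rw [← tsum_div_const]
    refine tsum_congr fun m => ?_
    rw [mul_div_assoc]
  simp_rw [h1]
  unfold ECx.theat
  refine tendsto_tsum_of_dominated_convergence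
    (bound := fun m : ℕ => (Fintype.card T.E.cell : ℝ) * ((|t| * K) ^ m / (m.factorial : ℝ)))
    ((Real.summable_pow_div_factorial _).mul_left _) (fun m => (T.trace_tendsto m).const_mul _)
    (Eventually.of_forall fun n m => ?_)
  rw [norm_mul, norm_div, norm_pow, norm_neg, Real.norm_eq_abs, Real.norm_eq_abs, Real.norm_eq_abs,
    Nat.abs_cast, mul_pow]
  have h2 := mul_le_mul_of_nonneg_left (hK n m)
    (show (0 : ℝ) ≤ |t| ^ m / (m.factorial : ℝ) by positivity)
  refine h2.trans (le_of_eq ?_)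
  ring

theorem theat_nonneg (t : ℝ) : 0 ≤ T.E.theat t :=
  ge_of_tendsto (T.heat_tendsto t) (Eventually.of_forall fun n =>
    div_nonneg ((T.level n).heatX_nonneg t) (T.idx_pos n).le)

/-- **Lück's approximation theorem** for the vanishing of the `L²`-Betti numbers: they all vanish
if and only if the normalized Betti numbers of the covers tend to zero. -/
theorem lueck : T.E.L2Acyclic ↔ T.Acyclic := by
  constructor
  · intro h j
    rw [Metric.tendsto_atTop]
    intro η hη
    obtain ⟨t, ht⟩ := ((tendsto_order.mp h).2 η hη).exists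
    obtain ⟨n0, hn0⟩ := eventually_atTop.mp ((tendsto_order.mp (T.heat_tendsto t)).2 η ht)
    refine ⟨n0, fun n hn => ?_⟩
    have h1 := hn0 n hn
    have h2 := (T.level n).betti_le_heat j t
    have hp := T.idx_pos n
    rw [Real.dist_eq, sub_zero, abs_of_nonneg (by positivity)]
    exact lt_of_le_of_lt (div_le_div_of_nonneg_right h2 hp.le) h1
  · intro h
    obtain ⟨K, hK0, hK⟩ := T.trace_bound
    have key : ∀ (t ε : ℝ), 0 ≤ t → 0 < ε → ε < 1 →
        T.E.theat t ≤ (Fintype.card T.E.cell : ℝ) * K / Real.log (1 / ε)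
          + Real.exp (-t * ε) * Fintype.card T.E.cell := by
      intro t ε ht hε hε1
      have hl : 0 < Real.log (1 / ε) := Real.log_pos (by rw [lt_div_iff₀ hε, one_mul]; exact hε1)
      have h1 : Tendsto (fun n => ∑ j ∈ Finset.range (T.dim + 1),
          ((T.level n).betti ℤ (j : ℤ) : ℝ) / (T.N n).index
          + ((Fintype.card T.E.cell : ℝ) * K / Real.log (1 / ε)
          + Real.exp (-t * ε) * Fintype.card T.E.cell)) atTop
          (𝓝 (∑ _j ∈ Finset.range (T.dim + 1), (0 : ℝ)
          + ((Fintype.card T.E.cell : ℝ) * K / Real.log (1 / ε)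
          + Real.exp (-t * ε) * Fintype.card T.E.cell))) := by
        have h0 : Tendsto (fun n => ∑ j ∈ Finset.range (T.dim + 1),
            ((T.level n).betti ℤ (j : ℤ) : ℝ) / (T.N n).index) atTop
            (𝓝 (∑ _j ∈ Finset.range (T.dim + 1), (0 : ℝ))) :=
          tendsto_finsetSum _ fun j _ => h (j : ℤ)
        exact h0.add tendsto_const_nhds
      rw [Finset.sum_const_zero, zero_add] at h1
      refine le_of_tendsto_of_tendsto (T.heat_tendsto t) h1 (Eventually.of_forall fun n => ?_)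
      have hp := T.idx_pos n
      have h2 := (T.level n).heat_le (d := T.dim) (fun c => T.deg_le c.2) ht hε hε1
      have h3 := hK n 1
      rw [pow_one, pow_one] at h3
      have h4 : (((T.level n).lapZ.trace : ℤ) : ℝ) / (T.N n).index
          ≤ Fintype.card T.E.cell * K := (le_abs_self _).trans h3
      show (T.level n).heatX t / (T.N n).index ≤ _
      rw [div_le_iff₀ hp]
      refine h2.trans ?_
      rw [T.card_level, add_mul, add_mul, Finset.sum_mul]
      have e1 : ∑ j ∈ Finset.range (T.dim + 1), ((T.level n).betti ℤ (j : ℤ) : ℝ) / (T.N n).index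
          * (T.N n).index = ∑ j ∈ Finset.range (T.dim + 1), ((T.level n).betti ℤ (j : ℤ) : ℝ) :=
        Finset.sum_congr rfl fun j _ => div_mul_cancel₀ _ hp.ne'
      rw [e1]
      rw [div_le_iff₀ hp] at h4
      have h5 := div_le_div_of_nonneg_right h4 hl.le
      have e2 : (Fintype.card T.E.cell : ℝ) * K * (T.N n).index / Real.log (1 / ε)
          = (Fintype.card T.E.cell : ℝ) * K / Real.log (1 / ε) * (T.N n).index := by ring
      rw [e2] at h5
      push_cast
      linarith
    unfold ECx.L2Acyclic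
    rw [Metric.tendsto_atTop]
    intro η hη
    have hc : (0 : ℝ) ≤ (Fintype.card T.E.cell : ℝ) * K := by positivity
    -- choose ε
    obtain ⟨ε, hε, hε1, h1⟩ : ∃ ε : ℝ, 0 < ε ∧ ε < 1 ∧
        (Fintype.card T.E.cell : ℝ) * K / Real.log (1 / ε) < η / 2 := by
      refine ⟨Real.exp (-(2 * ((Fintype.card T.E.cell : ℝ) * K) / η + 1)), Real.exp_pos _, ?_, ?_⟩
      · rw [Real.exp_lt_one_iff]
        have : 0 ≤ 2 * ((Fintype.card T.E.cell : ℝ) * K) / η := by positivity
        linarith
      · rw [one_div, Real.log_inv, Real.log_exp, neg_neg, div_lt_iff₀ (by positivity)]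
        have : η / 2 * (2 * ((Fintype.card T.E.cell : ℝ) * K) / η + 1)
            = (Fintype.card T.E.cell : ℝ) * K + η / 2 := by field_simp
        rw [this]
        linarith
    have h2 : Tendsto (fun t : ℝ => Real.exp (-t * ε) * (Fintype.card T.E.cell : ℝ)) atTop
        (𝓝 (0 * (Fintype.card T.E.cell : ℝ))) := by
      refine Tendsto.mul_const _ ?_
      refine Real.tendsto_exp_atBot.comp ?_
      have : (fun t : ℝ => -t * ε) = fun t => -(t * ε) := by funext t; ring
      rw [this]
      exact tendsto_neg_atTop_atBot.comp (tendsto_id.atTop_mul_const hε)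
    rw [zero_mul] at h2
    obtain ⟨t0, ht0⟩ := eventually_atTop.mp ((tendsto_order.mp h2).2 (η / 2) (by linarith))
    refine ⟨max t0 0, fun t ht => ?_⟩
    rw [Real.dist_eq, sub_zero, abs_of_nonneg (T.theat_nonneg t)]
    have h3 := key t ε ((le_max_right _ _).trans ht) hε hε1
    have h4 := ht0 t ((le_max_left _ _).trans ht)
    linarith

end CoverTower

end Pool.Agent.Helper183_TG
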