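import Pool.Agent.Helper183_TG.Cover

/-!
# Euler characteristics and the main theorem for towers of covers
-/

open Filter Topology

namespace Pool.Agent.Helper183_TG

namespace Cx

variable {X : Cx}

/-- Euler–Poincaré. -/
theorem euler {d : ℕ} (hd : ∀ c, X.deg c ≤ d) :
    ∑ c : X.cell, (-1 : ℤ) ^ (X.deg c)
      = ∑ j ∈ Finset.range (d + 1), (-1 : ℤ) ^ j * (X.betti ℤ j : ℤ) := by
  have h1 : ∑ c : X.cell, (-1 : ℤ) ^ (X.deg c)
      = ∑ j ∈ Finset.range (d + 1), (-1 : ℤ) ^ j * (X.nc j : ℤ) := by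
    rw [← Finset.sum_fiberwise_of_maps_to (s := Finset.univ) (t := Finset.range (d + 1))
      (g := X.deg) (fun c _ => Finset.mem_range.mpr (Nat.lt_succ_of_le (hd c)))]
    refine Finset.sum_congr rfl fun j _ => ?_
    have h2 : X.nc j = (Finset.univ.filter (fun c : X.cell => X.deg c = j)).card := by
      unfold nc
      congr 1
      ext c
      simp
    rw [h2, Finset.sum_congr rfl (g := fun _ => (-1 : ℤ) ^ j)]
    · rw [Finset.sum_const, nsmul_eq_mul, mul_comm]
    · intro c hc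
      rw [(Finset.mem_filter.mp hc).2]
  rw [h1]
  have h3 : ∀ m : ℕ, ∑ j ∈ Finset.range m, (-1 : ℤ) ^ j * (X.betti ℤ j : ℤ)
      = ∑ j ∈ Finset.range m, (-1 : ℤ) ^ j * (X.nc j : ℤ)
        + (-1) ^ m * X.rkB ℤ ((m : ℤ) - 1) := by
    intro m
    induction m with
    | zero =>
      have : X.rkB ℤ (-1) = 0 := rkB_zero_left ℤ (fun c => by
        have := Int.natCast_nonneg (X.deg c)
        omega)
      simp [this]
    | succ m ih =>
      rw [Finset.sum_range_succ, Finset.sum_range_succ, ih, betti_eq]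
      have e : (((m + 1 : ℕ) : ℤ) - 1) = (m : ℤ) := by push_cast; ring
      rw [e, pow_succ]
      ring
  rw [h3]
  have h4 : X.rkB ℤ (((d + 1 : ℕ) : ℤ) - 1) = 0 := by
    have e : (((d + 1 : ℕ) : ℤ) - 1) = (d : ℤ) := by push_cast; ring
    rw [e]
    exact rkB_zero_right ℤ (fun c => by
      have := hd c
      omega)
  rw [h4]
  simp

end Cx

namespace CoverTower

theorem chi_level (T : CoverTower) (n : ℕ) :
    ∑ c : (T.level n).cell, (-1 : ℤ) ^ ((T.level n).deg c) = (T.N n).index * T.E.chi := by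
  let _ : Fintype (T.Γ ⧸ T.N n) := Fintype.ofFinite _
  have h : ∑ c : (T.level n).cell, (-1 : ℤ) ^ ((T.level n).deg c)
      = ∑ c : (T.Γ ⧸ T.N n) × T.E.cell, (-1 : ℤ) ^ (T.E.deg c.2) := rfl
  rw [h, Fintype.sum_prod_type]
  have h2 : ∑ x : T.Γ ⧸ T.N n, ∑ y : T.E.cell, (-1 : ℤ) ^ (T.E.deg (x, y).2)
      = ∑ _x : T.Γ ⧸ T.N n, T.E.chi := rfl
  rw [h2, Finset.sum_const, Finset.card_univ, nsmul_eq_mul, ← Nat.card_eq_fintype_card]
  rfl

/-- Odd-dimensional Poincaré duality: the Euler characteristic vanishes. -/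
theorem chi_zero (T : CoverTower) (hodd : Odd T.dim) (hd : T.Duality ℤ) : T.E.chi = 0 := by
  have h1 := Cx.euler (X := T.level 0) (d := T.dim) (fun c => T.deg_le c.2)
  rw [chi_level] at h1
  have h2 : ∑ j ∈ Finset.range (T.dim + 1), (-1 : ℤ) ^ j * ((T.level 0).betti ℤ j : ℤ)
      = -∑ j ∈ Finset.range (T.dim + 1), (-1 : ℤ) ^ j * ((T.level 0).betti ℤ j : ℤ) := by
    conv_lhs => rw [← Finset.sum_range_reflect]
    rw [← Finset.sum_neg_distrib]
    refine Finset.sum_congr rfl fun j hj => ?_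
    rw [Finset.mem_range] at hj
    have e : T.dim + 1 - 1 - j = T.dim - j := by omega
    rw [e, ← hd 0 j (T.dim - j) (by omega)]
    have h3 : (-1 : ℤ) ^ (T.dim - j) = -(-1) ^ j := by
      have h4 : (-1 : ℤ) ^ (T.dim - j) * (-1) ^ j = -1 := by
        rw [← pow_add, Nat.sub_add_cancel (by omega)]
        exact hodd.neg_one_pow
      have h5 : (-1 : ℤ) ^ j * (-1) ^ j = 1 := by
        rw [← pow_add, ← two_mul, pow_mul]; simp
      calc (-1 : ℤ) ^ (T.dim - j) = (-1 : ℤ) ^ (T.dim - j) * ((-1) ^ j * (-1) ^ j) := by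
            rw [h5, mul_one]
        _ = ((-1 : ℤ) ^ (T.dim - j) * (-1) ^ j) * (-1) ^ j := by ring
        _ = _ := by rw [h4]; ring
    rw [h3]; ring
  have h6 : ∑ j ∈ Finset.range (T.dim + 1), (-1 : ℤ) ^ j * ((T.level 0).betti ℤ j : ℤ) = 0 := by
    linarith
  rw [h6] at h1
  have h7 : ((T.N 0).index : ℤ) ≠ 0 := by
    exact_mod_cast (Subgroup.FiniteIndex.index_ne_zero (H := T.N 0))
  exact (mul_eq_zero.mp h1).resolve_left h7

/-- A tower of covers corresponds, level by level, to a tower of chain complexes. -/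
def Corr (T : CoverTower) (U : Tower) : Prop :=
  T.dim = U.dim ∧ (∀ n, (T.N n).index = U.idx n) ∧ ∀ n, Nonempty (Cx.Iso (T.level n) (U.C n))

theorem corr_self (T : CoverTower) : T.Corr T.toTower :=
  ⟨rfl, fun _ => rfl, fun n => ⟨Cx.Iso.refl _⟩⟩

theorem corr_prod {S T : CoverTower} {U V : Tower} (h : S.Corr U) (h' : T.Corr V) :
    (S.prod T).Corr (U.prod V) := by
  refine ⟨?_, fun n => ?_, fun n => ?_⟩
  · show S.dim + T.dim = U.dim + V.dim
    rw [h.1, h'.1]
  · show ((S.N n).prod (T.N n)).index = U.idx n * V.idx n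
    rw [Subgroup.index_prod, h.2.1, h'.2.1]
  · obtain ⟨i1⟩ := levelProdIso S T n
    obtain ⟨i2⟩ := h.2.2 n
    obtain ⟨i3⟩ := h'.2.2 n
    exact ⟨i1.trans (i2.prod i3)⟩

theorem corr_pow (T : CoverTower) (m : ℕ) : (T.pow m).Corr (T.toTower.pw m) := by
  induction m with
  | zero => exact T.corr_self
  | succ m ih => exact corr_prod T.corr_self ih

theorem refutes_of_corr {T : CoverTower} {U : Tower} (h : T.Corr U) (hU : U.Refutes T.E.rho) :
    T.Refutes := by
  obtain ⟨k, hk, ha, hl⟩ := hU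
  refine ⟨k, by rw [h.1, hk], ?_, ?_⟩
  · intro j
    refine (ha j).congr fun n => ?_
    obtain ⟨i⟩ := h.2.2 n
    rw [i.betti_eq ℤ j, h.2.1 n]
  · intro hT
    apply hl
    unfold Tower.Law
    refine hT.congr fun n => ?_
    obtain ⟨i⟩ := h.2.2 n
    rw [i.tors_eq, h.2.1 n]

theorem acyclic_of_corr {T : CoverTower} {U : Tower} (h : T.Corr U) (hT : T.Acyclic) :
    U.Acyclic := by
  intro j
  refine (hT j).congr fun n => ?_
  obtain ⟨i⟩ := h.2.2 n
  rw [i.betti_eq ℤ j, h.2.1 n]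

theorem main (A N : CoverTower) (k p r : ℕ) [Fact p.Prime] (hN : Odd N.dim) (hNa : N.Acyclic)
    (hρ : N.E.rho ≠ 0) (hdim : A.dim = 2 * k + 1) (hd : A.Duality ℤ) (hdp : A.Duality (ZMod p))
    (hg : A.ModGrowth p) (hr : k ≤ r) (hr1 : 1 ≤ r) :
    N.Refutes ∨ (A.prod (A.prod N)).Refutes ∨ (A.pow (2 * r)).Refutes := by
  have hχ : A.E.chi = 0 := A.chi_zero ⟨k, hdim⟩ hd
  obtain ⟨j, hj⟩ := hg
  have dual : ∀ (R : Type) [CommRing R], A.Duality R → ∀ n, ∀ j ≤ A.toTower.dim,
      (A.toTower.C n).betti R j = (A.toTower.C n).betti R ((A.toTower.dim - j : ℕ) : ℤ) := by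
    intro R _ h n j hj
    exact h n j (A.dim - j) (by
      have : j ≤ A.dim := hj
      omega)
  have h := Tower.main A.toTower N.toTower k p j N.E.rho hN (acyclic_of_corr N.corr_self hNa) hρ
    hdim (dual ℤ hd) (dual (ZMod p) hdp) hj r hr
  have hρ1 : (A.prod (A.prod N)).E.rho = 0 := by
    have h1 : (A.prod (A.prod N)).E.rho = A.E.chi * (A.prod N).E.rho :=
      ECx.rho_prod A.E (A.prod N).E (by
        have : (A.prod N).E.chi = A.E.chi * N.E.chi := ECx.chi_prod A.E N.E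
        rw [this, hχ, zero_mul])
    rw [h1, hχ]; simp
  have hχp : ∀ m, (A.pow m).E.chi = 0 := by
    intro m
    induction m with
    | zero => exact hχ
    | succ m ih =>
      have : (A.pow (m + 1)).E.chi = A.E.chi * (A.pow m).E.chi := ECx.chi_prod A.E (A.pow m).E
      rw [this, hχ, zero_mul]
  have hρ2 : (A.pow (2 * r)).E.rho = 0 := by
    obtain ⟨m, hm⟩ : ∃ m, 2 * r = m + 1 := ⟨2 * r - 1, by omega⟩
    rw [hm]
    have h1 : (A.pow (m + 1)).E.rho = A.E.chi * (A.pow m).E.rho :=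
      ECx.rho_prod A.E (A.pow m).E (hχp m)
    rw [h1, hχ]; simp
  rcases h with h | h | h
  · exact Or.inl (refutes_of_corr N.corr_self h)
  · right; left
    exact refutes_of_corr (corr_prod A.corr_self (corr_prod A.corr_self N.corr_self))
      (by rw [hρ1]; exact h)
  · right; right
    exact refutes_of_corr (corr_pow A (2 * r)) (by rw [hρ2]; exact h)

end CoverTower

end Pool.Agent.Helper183_TG
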