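import Pool.Agent.Helper183_TG.Lueck3

/-!
# The main theorems with `L²`-Betti numbers
-/

open Filter Topology

namespace Pool.Agent.Helper183_TG

namespace CoverTower

/-- `T` is a counterexample to Q1 of MP_98dedd_gt: an aspherical Poincaré complex of odd dimension
`2k + 1` whose `L²`-Betti numbers vanish, such that it is not true that
`log |tors H_k(M_n)| / [Γ : Γ_n]` converges to `(-1)^k ρ^{(2)}`. -/
def Counterexample (T : CoverTower) : Prop :=
  T.Aspherical ∧ T.Poincare ∧ T.E.L2Acyclic ∧ ∃ k, T.dim = 2 * k + 1 ∧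
    ¬ Tendsto (fun n => Real.log ((T.level n).tors k) / (T.N n).index) atTop
      (𝓝 ((-1) ^ k * T.E.rho))

theorem counterexample_of (T : CoverTower) (h : T.CounterQ1) : T.Counterexample := by
  obtain ⟨h1, h2, k, h3, h4, h5⟩ := h
  exact ⟨h1, h2, T.lueck.mpr h4, k, h3, h5⟩

theorem mainL2 (A N : CoverTower) (k p r : ℕ) [Fact p.Prime] (hAa : A.Aspherical)
    (hAp : A.Poincare) (hNs : N.Aspherical) (hNp : N.Poincare) (hN : Odd N.dim)
    (hNa : N.E.L2Acyclic) (hρ : N.E.rho ≠ 0) (hdim : A.dim = 2 * k + 1) (hg : A.ModGrowth p)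
    (hr : k ≤ r) (hr1 : 1 ≤ r) :
    N.Counterexample ∨ (A.prod (A.prod N)).Counterexample ∨ (A.pow (2 * r)).Counterexample := by
  rcases mainPD A N k p r hAa hAp hNs hNp hN (N.lueck.mp hNa) hρ hdim hg hr hr1 with h | h | h
  · exact Or.inl (counterexample_of _ h)
  · exact Or.inr (Or.inl (counterexample_of _ h))
  · exact Or.inr (Or.inr (counterexample_of _ h))

/-- `T` is a counterexample to Q1 of MP_228c3b_gt (Lück's conjecture): an aspherical Poincaré
complex for which (a) fails in some degree `n` with `2n + 1 ≠ dim`, or whose dimension is odd,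
`2m + 1`, and for which (b) fails: some `L²`-Betti number does not vanish, or
`log |tors H_m(M_i)| / [Γ : Γ_i]` does not converge to `(-1)^m ρ^{(2)}`. -/
def LueckCounterexample (T : CoverTower) : Prop :=
  T.Aspherical ∧ T.Poincare ∧
    ((∃ n : ℕ, 2 * n + 1 ≠ T.dim ∧
      ¬ Tendsto (fun i => Real.log ((T.level i).tors n) / (T.N i).index) atTop (𝓝 0)) ∨
    (∃ m : ℕ, T.dim = 2 * m + 1 ∧ (¬ T.E.L2Acyclic ∨
      ¬ Tendsto (fun i => Real.log ((T.level i).tors m) / (T.N i).index) atTop
        (𝓝 ((-1) ^ m * T.E.rho)))))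

theorem lueckCounterexample_of (T : CoverTower) (h : T.CounterLueck) : T.LueckCounterexample := by
  obtain ⟨h1, h2, h3⟩ := h
  refine ⟨h1, h2, ?_⟩
  rcases h3 with h | ⟨m, hm, h | h⟩
  · exact Or.inl h
  · exact Or.inr ⟨m, hm, Or.inl fun h4 => h (T.lueck.mp h4)⟩
  · exact Or.inr ⟨m, hm, Or.inr h⟩

theorem squareL2 (A : CoverTower) (p : ℕ) [Fact p.Prime] (hAs : A.Aspherical) (hAp : A.Poincare)
    (hA : Odd A.dim) (hg : A.ModGrowth p) :
    A.LueckCounterexample ∨ (A.prod A).LueckCounterexample := by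
  rcases squarePD A p hAs hAp hA hg with h | h
  · exact Or.inl (lueckCounterexample_of _ h)
  · exact Or.inr (lueckCounterexample_of _ h)

end CoverTower

end Pool.Agent.Helper183_TG
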