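import Pool.Agent.Helper183_TG.Ecx

/-!
# Poincaré duality of complexes over group rings and its products
-/

open MonoidAlgebra

set_option linter.unusedSectionVars false

namespace Pool.Agent.Helper183_TG

section

variable {Γ Γ' : Type} [Group Γ] [Group Γ'] {c c' : Type} [Fintype c] [DecidableEq c]
  [Fintype c'] [DecidableEq c']

theorem K_neg_left (P : Matrix c c (MonoidAlgebra ℤ Γ)) (P' : Matrix c' c' (MonoidAlgebra ℤ Γ')) :
    K (-P) P' = -K P P' := by
  refine Matrix.ext fun a b => ?_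
  show i1 (-(P a.1 b.1)) * i2 (P' a.2 b.2) = -(i1 (P a.1 b.1) * i2 (P' a.2 b.2))
  rw [map_neg, neg_mul]

theorem K_neg_right (P : Matrix c c (MonoidAlgebra ℤ Γ)) (P' : Matrix c' c' (MonoidAlgebra ℤ Γ')) :
    K P (-P') = -K P P' := by
  refine Matrix.ext fun a b => ?_
  show i1 (P a.1 b.1) * i2 (-(P' a.2 b.2)) = -(i1 (P a.1 b.1) * i2 (P' a.2 b.2))
  rw [map_neg, mul_neg]

theorem K_ne {P : Matrix c c (MonoidAlgebra ℤ Γ)} {P' : Matrix c' c' (MonoidAlgebra ℤ Γ')}
    {a b : c × c'} (h : K P P' a b ≠ 0) : P a.1 b.1 ≠ 0 ∧ P' a.2 b.2 ≠ 0 := by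
  have h0 : K P P' a b = i1 (P a.1 b.1) * i2 (P' a.2 b.2) := rfl
  rw [h0] at h
  constructor
  · intro h1; apply h; rw [h1, map_zero, zero_mul]
  · intro h1; apply h; rw [h1, map_zero, mul_zero]

end

namespace ECx

variable {Γ Γ' : Type} [Group Γ] [Group Γ']

/-- (Oriented) Poincaré duality over `ℤΓ` in dimension `d`: the cochain complex `C^{d-*}` and the
chain complex `C_*` are chain homotopy equivalent.  `P : C^{d-*} → C_*` and `Q : C_* → C^{d-*}` are
chain maps, `H` and `H'` are homotopies from `PQ` and `QP` to the identities; the coboundary is the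
adjoint matrix of the boundary. -/
def Poincare (E : ECx Γ) (d : ℕ) : Prop :=
  ∃ P Q H H' : Matrix E.cell E.cell (MonoidAlgebra ℤ Γ),
    (∀ a b, P a b ≠ 0 → E.deg a + E.deg b = d) ∧ (∀ a b, Q a b ≠ 0 → E.deg a + E.deg b = d) ∧
    (∀ a b, H a b ≠ 0 → E.deg a = E.deg b + 1) ∧ (∀ a b, H' a b ≠ 0 → E.deg b = E.deg a + 1) ∧
    E.bd * P = P * adj E.bd ∧ adj E.bd * Q = Q * E.bd ∧
    P * Q = 1 + (E.bd * H + H * E.bd) ∧ Q * P = 1 + (adj E.bd * H' + H' * adj E.bd)

theorem eps_mul_apply (E : ECx Γ) (M : Matrix E.cell E.cell (MonoidAlgebra ℤ Γ)) (a b : E.cell) :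
    (E.eps * M) a b = (-1) ^ (E.deg a) * M a b := by
  unfold eps; rw [Matrix.diagonal_mul]

theorem mul_eps_apply (E : ECx Γ) (M : Matrix E.cell E.cell (MonoidAlgebra ℤ Γ)) (a b : E.cell) :
    (M * E.eps) a b = M a b * (-1) ^ (E.deg b) := by
  unfold eps; rw [Matrix.mul_diagonal]

theorem eps_even (E : ECx Γ) (M : Matrix E.cell E.cell (MonoidAlgebra ℤ Γ))
    (h : ∀ a b, M a b ≠ 0 → Even (E.deg a + E.deg b)) : E.eps * M = M * E.eps := by
  refine Matrix.ext fun a b => ?_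
  rw [eps_mul_apply, mul_eps_apply]
  by_cases h0 : M a b = 0
  · rw [h0, zero_mul, mul_zero]
  · have h1 := h a b h0
    rcases Nat.even_or_odd (E.deg a) with h2 | h2
    · have h3 : Even (E.deg b) := by
        rw [Nat.even_add] at h1; exact h1.mp h2
      rw [h2.neg_one_pow, h3.neg_one_pow, one_mul, mul_one]
    · have h3 : Odd (E.deg b) := by
        rw [Nat.even_add] at h1
        rw [← Nat.not_even_iff_odd] at h2 ⊢
        exact fun h4 => h2 (h1.mpr h4)
      rw [h2.neg_one_pow, h3.neg_one_pow, neg_mul, one_mul, mul_neg, mul_one]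

theorem eps_odd (E : ECx Γ) (M : Matrix E.cell E.cell (MonoidAlgebra ℤ Γ))
    (h : ∀ a b, M a b ≠ 0 → Odd (E.deg a + E.deg b)) : E.eps * M = -(M * E.eps) := by
  refine Matrix.ext fun a b => ?_
  rw [eps_mul_apply, Matrix.neg_apply, mul_eps_apply]
  by_cases h0 : M a b = 0
  · rw [h0, zero_mul, mul_zero, neg_zero]
  · have h1 := h a b h0
    rcases Nat.even_or_odd (E.deg a) with h2 | h2
    · have h3 : Odd (E.deg b) := by
        rw [Nat.odd_add] at h1
        rw [← Nat.not_even_iff_odd]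
        intro h4
        rw [← Nat.not_even_iff_odd] at h1
        exact h1.mpr h4 h2
      rw [h2.neg_one_pow, h3.neg_one_pow, one_mul, mul_neg, mul_one, neg_neg]
    · have h3 : Even (E.deg b) := by
        rw [Nat.odd_add] at h1; exact h1.mp h2
      rw [h2.neg_one_pow, h3.neg_one_pow, neg_mul, one_mul, mul_one]

theorem hom_prod (E : ECx Γ) (F : ECx Γ') {δ X H : Matrix E.cell E.cell (MonoidAlgebra ℤ Γ)}
    {δ' X' H2 : Matrix F.cell F.cell (MonoidAlgebra ℤ Γ')}
    (hδ : δ * E.eps + E.eps * δ = 0) (hH : H * E.eps + E.eps * H = 0)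
    (hX : X = 1 + (δ * H + H * δ)) (hX' : X' = 1 + (δ' * H2 + H2 * δ'))
    (hc : X' * δ' = δ' * X') :
    K X X' = 1 + ((K δ 1 + K E.eps δ') * (K H X' + K E.eps H2)
      + (K H X' + K E.eps H2) * (K δ 1 + K E.eps δ')) := by
  have e0 : K X X' = K 1 X' + K (δ * H + H * δ) X' := by
    conv_lhs => rw [hX, K_add_left]
  have e4 : K (1 : Matrix E.cell E.cell (MonoidAlgebra ℤ Γ)) X' = 1 + K 1 (δ' * H2 + H2 * δ') := by
    conv_lhs => rw [hX', K_add_right, K_one]
  have e1 : K (E.eps * H) (δ' * X') + K (H * E.eps) (δ' * X') = 0 := by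
    rw [← K_add_left, add_comm, hH, K_zero_left]
  have e2 : K (δ * E.eps) H2 + K (E.eps * δ) H2 = 0 := by
    rw [← K_add_left, hδ, K_zero_left]
  rw [e0, e4, add_mul, mul_add, mul_add, add_mul, mul_add, mul_add, K_mul, K_mul, K_mul, K_mul,
    K_mul, K_mul, K_mul, K_mul, E.eps_sq, hc, one_mul, one_mul, mul_one, mul_one, K_add_left,
    K_add_right]
  calc _ = 1 + ((K (δ * H) X' + K (H * δ) X') + (K 1 (δ' * H2) + K 1 (H2 * δ'))) + 0 + 0 := by
        abel
    _ = 1 + ((K (δ * H) X' + K (H * δ) X') + (K 1 (δ' * H2) + K 1 (H2 * δ')))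
        + (K (E.eps * H) (δ' * X') + K (H * E.eps) (δ' * X'))
        + (K (δ * E.eps) H2 + K (E.eps * δ) H2) := by rw [e1, e2]
    _ = _ := by abel

theorem adj_prod_bd (E : ECx Γ) (F : ECx Γ') :
    adj (E.prod F).bd = K (adj E.bd) 1 + K E.eps (adj F.bd) := by
  show adj (K E.bd 1 + K E.eps F.bd) = _
  rw [adj_add, adj_K, adj_K, adj_one, E.adj_eps]

/-- The product of two Poincaré complexes is a Poincaré complex. -/
theorem Poincare.prod {E : ECx Γ} {F : ECx Γ'} {d d' : ℕ} (hE : E.Poincare d)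
    (hF : F.Poincare d') : (E.prod F).Poincare (d + d') := by
  obtain ⟨P, Q, H, H', hP, hQ, hH, hH', hPc, hQc, hPQ, hQP⟩ := hE
  obtain ⟨P1, Q1, H1, H1', hP1, hQ1, hH1, hH1', hPc1, hQc1, hPQ1, hQP1⟩ := hF
  -- the sign twist
  obtain ⟨t, ht2, htr, htl, htd, hs1, hs2⟩ : ∃ t : Matrix F.cell F.cell (MonoidAlgebra ℤ Γ'),
      t * t = 1 ∧
      (∀ (M : Matrix F.cell F.cell (MonoidAlgebra ℤ Γ')) (a b : F.cell),
        (M * t) a b ≠ 0 → M a b ≠ 0) ∧
      (∀ (M : Matrix F.cell F.cell (MonoidAlgebra ℤ Γ')) (a b : F.cell),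
        (t * M) a b ≠ 0 → M a b ≠ 0) ∧
      (∀ M : Matrix F.cell F.cell (MonoidAlgebra ℤ Γ'),
        (∀ a b, M a b ≠ 0 → F.deg a = F.deg b) → t * (M * t) = M) ∧
      (K (E.eps * P) (F.bd * (P1 * t)) = K (P * E.eps) (P1 * t * adj F.bd)) ∧
      (K (E.eps * Q) (adj F.bd * (t * Q1)) = K (Q * E.eps) (t * Q1 * F.bd)) := by
    rcases Nat.even_or_odd d with hd | hd
    · refine ⟨1, one_mul _, fun M a b h => by rwa [mul_one] at h,
        fun M a b h => by rwa [one_mul] at h, fun M _ => by rw [mul_one, one_mul], ?_, ?_⟩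
      · rw [E.eps_even P (fun a b h => by rw [hP a b h]; exact hd), mul_one, hPc1]
      · rw [E.eps_even Q (fun a b h => by rw [hQ a b h]; exact hd), one_mul, hQc1]
    · refine ⟨F.eps, F.eps_sq, fun M a b h h0 => h (by rw [mul_eps_apply, h0, zero_mul]),
        fun M a b h h0 => h (by rw [eps_mul_apply, h0, mul_zero]), fun M hM => ?_, ?_, ?_⟩
      · rw [← mul_assoc, F.eps_even M (fun a b h => by rw [hM a b h]; exact ⟨_, rfl⟩), mul_assoc,
          F.eps_sq, mul_one]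
      · rw [E.eps_odd P (fun a b h => by rw [hP a b h]; exact hd), K_neg_left, ← mul_assoc F.bd,
          hPc1, mul_assoc P1, mul_assoc P1,
          show F.eps * adj F.bd = -(adj F.bd * F.eps) from
            eq_neg_of_add_eq_zero_right F.adj_bd_eps, mul_neg, K_neg_right]
      · rw [E.eps_odd Q (fun a b h => by rw [hQ a b h]; exact hd), K_neg_left,
          ← mul_assoc (adj F.bd),
          show adj F.bd * F.eps = -(F.eps * adj F.bd) from
            eq_neg_of_add_eq_zero_left F.adj_bd_eps, neg_mul, mul_assoc F.eps, hQc1, K_neg_right,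
          neg_neg, mul_assoc F.eps]
  have hW : ∀ a b, (P1 * Q1) a b ≠ 0 → F.deg a = F.deg b := by
    intro a b h
    rw [Matrix.mul_apply] at h
    obtain ⟨e, _, he⟩ := Finset.exists_ne_zero_of_sum_ne_zero h
    have h1 := hP1 _ _ (left_ne_zero_of_mul he)
    have h2 := hQ1 _ _ (right_ne_zero_of_mul he)
    omega
  have hV : ∀ a b, (Q1 * P1) a b ≠ 0 → F.deg a = F.deg b := by
    intro a b h
    rw [Matrix.mul_apply] at h
    obtain ⟨e, _, he⟩ := Finset.exists_ne_zero_of_sum_ne_zero h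
    have h1 := hQ1 _ _ (left_ne_zero_of_mul he)
    have h2 := hP1 _ _ (right_ne_zero_of_mul he)
    omega
  have heps : ∀ a b : E.cell, E.eps a b ≠ 0 → a = b := by
    intro a b h
    by_contra h3
    apply h
    unfold eps; rw [Matrix.diagonal_apply, if_neg h3]
  have hHe : H * E.eps + E.eps * H = 0 := by
    rw [E.eps_odd H (fun a b h => by rw [hH a b h]; exact ⟨E.deg b, by ring⟩), add_neg_cancel]
  have hHe' : H' * E.eps + E.eps * H' = 0 := by
    rw [E.eps_odd H' (fun a b h => by rw [hH' a b h]; exact ⟨E.deg a, by ring⟩), add_neg_cancel]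
  refine ⟨K P (P1 * t), K Q (t * Q1), K H (P1 * Q1) + K E.eps H1, K H' (Q1 * P1) + K E.eps H1',
    ?_, ?_, ?_, ?_, ?_, ?_, ?_, ?_⟩
  · rintro a b h
    have h1 := K_ne h
    have h2 := hP _ _ h1.1
    have h3 := hP1 _ _ (htr _ _ _ h1.2)
    show (E.deg a.1 + F.deg a.2) + (E.deg b.1 + F.deg b.2) = d + d'
    omega
  · rintro a b h
    have h1 := K_ne h
    have h2 := hQ _ _ h1.1
    have h3 := hQ1 _ _ (htl _ _ _ h1.2)
    show (E.deg a.1 + F.deg a.2) + (E.deg b.1 + F.deg b.2) = d + d'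
    omega
  · rintro a b h
    show E.deg a.1 + F.deg a.2 = E.deg b.1 + F.deg b.2 + 1
    by_cases h1 : K H (P1 * Q1) a b = 0
    · rw [Matrix.add_apply, h1, zero_add] at h
      have h2 := K_ne h
      have h3 := heps _ _ h2.1
      have h4 := hH1 _ _ h2.2
      rw [h3]; omega
    · have h2 := K_ne h1
      have h3 := hH _ _ h2.1
      have h4 := hW _ _ h2.2
      omega
  · rintro a b h
    show E.deg b.1 + F.deg b.2 = E.deg a.1 + F.deg a.2 + 1
    by_cases h1 : K H' (Q1 * P1) a b = 0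
    · rw [Matrix.add_apply, h1, zero_add] at h
      have h2 := K_ne h
      have h3 := heps _ _ h2.1
      have h4 := hH1' _ _ h2.2
      rw [h3]; omega
    · have h2 := K_ne h1
      have h3 := hH' _ _ h2.1
      have h4 := hV _ _ h2.2
      omega
  · rw [adj_prod_bd]
    show (K E.bd 1 + K E.eps F.bd) * K P (P1 * t) = K P (P1 * t) * (K (adj E.bd) 1 + K E.eps (adj F.bd))
    rw [add_mul, mul_add, K_mul, K_mul, K_mul, K_mul, one_mul, mul_one, hPc, hs1]
  · rw [adj_prod_bd]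
    show (K (adj E.bd) 1 + K E.eps (adj F.bd)) * K Q (t * Q1) = K Q (t * Q1) * (K E.bd 1 + K E.eps F.bd)
    rw [add_mul, mul_add, K_mul, K_mul, K_mul, K_mul, one_mul, mul_one, hQc, hs2]
  · show K P (P1 * t) * K Q (t * Q1) = 1 + ((K E.bd 1 + K E.eps F.bd) * (K H (P1 * Q1) + K E.eps H1)
      + (K H (P1 * Q1) + K E.eps H1) * (K E.bd 1 + K E.eps F.bd))
    rw [K_mul, mul_assoc P1, ← mul_assoc t, ht2, one_mul]
    exact hom_prod E F E.bd_eps hHe hPQ hPQ1 (by rw [mul_assoc, ← hQc1, ← mul_assoc, ← hPc1,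
      mul_assoc])
  · rw [adj_prod_bd, K_mul, mul_assoc t, ← mul_assoc Q1, htd _ hV]
    exact hom_prod E F E.adj_bd_eps hHe' hQP hQP1 (by rw [mul_assoc, ← hPc1, ← mul_assoc, ← hQc1,
      mul_assoc])

end ECx

end Pool.Agent.Helper183_TG
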