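import Pool.Agent.Helper183_TG.PD
import Pool.Agent.Helper183_TG.MainAsph

/-!
# Poincaré duality of the covers
-/

open MonoidAlgebra Matrix

set_option linter.unusedSectionVars false

namespace Pool.Agent.Helper183_TG

section lev

variable {Γ : Type} [Group Γ] {c : Type} [Fintype c] [DecidableEq c] {Q : Type} [Group Q]
  [Fintype Q] [DecidableEq Q]

/-- The integer matrix of a matrix over `ℤΓ` in the finite cover belonging to `π`. -/
noncomputable def lev (π : Γ →* Q) (M : Matrix c c (MonoidAlgebra ℤ Γ)) :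
    Matrix (Q × c) (Q × c) ℤ :=
  fun a b => (mapDomainRingHom ℤ π (M a.2 b.2)).coeff (a.1 * b.1⁻¹)

theorem lev_mul (π : Γ →* Q) (M L : Matrix c c (MonoidAlgebra ℤ Γ)) :
    lev π (M * L) = lev π M * lev π L := by
  refine Matrix.ext fun a b => ?_
  rw [Matrix.mul_apply, Fintype.sum_prod_type, Finset.sum_comm]
  have h1 : ∀ e : c, ∑ y : Q, lev π M a (y, e) * lev π L (y, e) b
      = (mapDomainRingHom ℤ π (M a.2 e) * mapDomainRingHom ℤ π (L e b.2)).coeff
          (a.1 * b.1⁻¹) := by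
    intro e
    rw [coeff_mul_apply_left, Finsupp.sum_fintype _ _ (fun _ => zero_mul _)]
    refine Fintype.sum_equiv ((Equiv.inv Q).trans (Equiv.mulLeft a.1)) _ _ fun y => ?_
    show (mapDomainRingHom ℤ π (M a.2 e)).coeff (a.1 * y⁻¹)
        * (mapDomainRingHom ℤ π (L e b.2)).coeff (y * b.1⁻¹)
      = (mapDomainRingHom ℤ π (M a.2 e)).coeff (a.1 * y⁻¹)
      * (mapDomainRingHom ℤ π (L e b.2)).coeff ((a.1 * y⁻¹)⁻¹ * (a.1 * b.1⁻¹))
    have : (a.1 * y⁻¹)⁻¹ * (a.1 * b.1⁻¹) = y * b.1⁻¹ := by group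
    rw [this]
  rw [Finset.sum_congr rfl (fun e _ => h1 e), ← Finsupp.finsetSum_apply, ← coeff_sum]
  simp_rw [← map_mul]
  rw [← map_sum, ← Matrix.mul_apply]
  rfl

theorem lev_add (π : Γ →* Q) (M L : Matrix c c (MonoidAlgebra ℤ Γ)) :
    lev π (M + L) = lev π M + lev π L := by
  refine Matrix.ext fun a b => ?_
  show (mapDomainRingHom ℤ π (M a.2 b.2 + L a.2 b.2)).coeff (a.1 * b.1⁻¹) = _
  rw [map_add]; rfl

theorem lev_one (π : Γ →* Q) :
    lev π (1 : Matrix c c (MonoidAlgebra ℤ Γ)) = 1 := by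
  refine Matrix.ext fun a b => ?_
  show (mapDomainRingHom ℤ π ((1 : Matrix c c (MonoidAlgebra ℤ Γ)) a.2 b.2)).coeff (a.1 * b.1⁻¹)
    = _
  rw [Matrix.one_apply, Matrix.one_apply]
  by_cases h : a.2 = b.2
  · rw [if_pos h, map_one, one_def, coeff_single, Finsupp.single_apply]
    by_cases h2 : a.1 = b.1
    · rw [if_pos (Prod.ext h2 h), if_pos]
      rw [h2, mul_inv_cancel]
    · rw [if_neg (fun h3 => h2 (congrArg Prod.fst h3)), if_neg]
      intro h3
      exact h2 (mul_inv_eq_one.mp h3.symm)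
  · rw [if_neg h, if_neg (fun h3 => h (congrArg Prod.snd h3)), map_zero]
    rfl

theorem coeff_map_gst (π : Γ →* Q) (x : MonoidAlgebra ℤ Γ) (q : Q) :
    (mapDomainRingHom ℤ π (gst x)).coeff q = (mapDomainRingHom ℤ π x).coeff q⁻¹ := by
  induction x using induction_linear with
  | zero => rw [gst_zero, map_zero]; rfl
  | add a b ha hb =>
    rw [gst_add, map_add, map_add, coeff_add, coeff_add, Finsupp.add_apply, Finsupp.add_apply,
      ha, hb]
  | single g r =>
    rw [gst_single]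
    have h1 : mapDomainRingHom ℤ π (single g⁻¹ r) = single (π g⁻¹) r := mapDomain_single
    have h2 : mapDomainRingHom ℤ π (single g r) = single (π g) r := mapDomain_single
    rw [h1, h2, coeff_single, coeff_single, Finsupp.single_apply, Finsupp.single_apply, map_inv]
    by_cases h : (π g)⁻¹ = q
    · rw [if_pos h, if_pos (by rw [← h, inv_inv])]
    · rw [if_neg h, if_neg (fun h3 => h (by rw [h3, inv_inv]))]

theorem lev_adj (π : Γ →* Q) (M : Matrix c c (MonoidAlgebra ℤ Γ)) :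
    lev π (adj M) = (lev π M)ᵀ := by
  refine Matrix.ext fun a b => ?_
  show (mapDomainRingHom ℤ π (gst (M b.2 a.2))).coeff (a.1 * b.1⁻¹)
    = (mapDomainRingHom ℤ π (M b.2 a.2)).coeff (b.1 * a.1⁻¹)
  rw [coeff_map_gst, _root_.mul_inv_rev, inv_inv]

theorem lev_ne {π : Γ →* Q} {M : Matrix c c (MonoidAlgebra ℤ Γ)} {a b : Q × c}
    (h : lev π M a b ≠ 0) : M a.2 b.2 ≠ 0 := by
  intro h0
  apply h
  show (mapDomainRingHom ℤ π (M a.2 b.2)).coeff (a.1 * b.1⁻¹) = 0
  rw [h0, map_zero]; rfl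

end lev

namespace Cx

/-- Poincaré duality of a finite based complex, with integral coefficients. -/
def PD (X : Cx) (d : ℕ) : Prop :=
  ∃ P Q H H' : Matrix X.cell X.cell ℤ,
    (∀ a b, P a b ≠ 0 → X.deg a + X.deg b = d) ∧ (∀ a b, Q a b ≠ 0 → X.deg a + X.deg b = d) ∧
    (∀ a b, H a b ≠ 0 → X.deg a = X.deg b + 1) ∧ (∀ a b, H' a b ≠ 0 → X.deg b = X.deg a + 1) ∧
    X.inc * P = P * X.incᵀ ∧ X.incᵀ * Q = Q * X.inc ∧
    P * Q = 1 + (X.inc * H + H * X.inc) ∧ Q * P = 1 + (X.incᵀ * H' + H' * X.incᵀ)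

/-- The dual complex `C^{d-*}`. -/
@[reducible] def dual (X : Cx) (d : ℕ) (hd : ∀ c, X.deg c ≤ d) : Cx where
  cell := X.cell
  deg c := d - X.deg c
  inc := X.incᵀ
  hdeg := by
    intro a b h
    have h1 := X.hdeg b a h
    have h2 := hd a
    omega
  hsq := by rw [← Matrix.transpose_mul, X.hsq, Matrix.transpose_zero]

section

variable {X Y : Cx} {R : Type} [CommRing R]

/-- Chain homotopy equivalent complexes have the same Betti numbers. -/
theorem betti_of_hequiv (f : (X.cell → R) →ₗ[R] (Y.cell → R)) (g : (Y.cell → R) →ₗ[R] (X.cell → R))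
    (s : (X.cell → R) →ₗ[R] (X.cell → R)) (s' : (Y.cell → R) →ₗ[R] (Y.cell → R))
    (hf : ∀ (j : ℤ) (x : X.cell → R), x ∈ X.Ch R j → f x ∈ Y.Ch R j)
    (hg : ∀ (j : ℤ) (y : Y.cell → R), y ∈ Y.Ch R j → g y ∈ X.Ch R j)
    (hs : ∀ (j : ℤ) (x : X.cell → R), x ∈ X.Ch R j → s x ∈ X.Ch R (j + 1))
    (hs' : ∀ (j : ℤ) (y : Y.cell → R), y ∈ Y.Ch R j → s' y ∈ Y.Ch R (j + 1))
    (hfD : ∀ x, Y.D R (f x) = f (X.D R x)) (hgD : ∀ y, X.D R (g y) = g (Y.D R y))
    (hgf : ∀ x, g (f x) = x + (X.D R (s x) + s (X.D R x)))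
    (hfg : ∀ y, f (g y) = y + (Y.D R (s' y) + s' (Y.D R y))) (j : ℤ) :
    X.betti R j = Y.betti R j := by
  have key : ∀ (X Y : Cx) (f : (X.cell → R) →ₗ[R] (Y.cell → R))
      (_ : ∀ (j : ℤ) (x : X.cell → R), x ∈ X.Ch R j → f x ∈ Y.Ch R j)
      (_ : ∀ x, Y.D R (f x) = f (X.D R x)),
      ∃ F : X.H R j →ₗ[R] Y.H R j, ∀ (x : X.cell → R) (hx : x ∈ X.Z R j) (hy : f x ∈ Y.Z R j),
        F (Submodule.Quotient.mk ⟨x, hx⟩) = Submodule.Quotient.mk ⟨f x, hy⟩ := by
    intro X Y f hf hfD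
    have hZ : ∀ x ∈ X.Z R j, f x ∈ Y.Z R j := by
      rintro x ⟨h1, h2⟩
      refine ⟨hf j x h1, ?_⟩
      have h3 : X.D R x = 0 := h2
      show Y.D R (f x) = 0
      rw [hfD, h3, map_zero]
    refine ⟨Submodule.mapQ _ _ (f.restrict hZ) ?_, fun x hx hy => rfl⟩
    rintro ⟨x, hx⟩ ⟨w, hw, hwx⟩
    exact ⟨f w, hf _ w hw, (hfD w).trans (congrArg f hwx)⟩
  obtain ⟨F, hF⟩ := key X Y f hf hfD
  obtain ⟨G, hG⟩ := key Y X g hg hgD
  have hZf : ∀ x ∈ X.Z R j, f x ∈ Y.Z R j := by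
    rintro x ⟨h1, h2⟩
    refine ⟨hf j x h1, ?_⟩
    have h3 : X.D R x = 0 := h2
    show Y.D R (f x) = 0
    rw [hfD, h3, map_zero]
  have hZg : ∀ x ∈ Y.Z R j, g x ∈ X.Z R j := by
    rintro x ⟨h1, h2⟩
    refine ⟨hg j x h1, ?_⟩
    have h3 : Y.D R x = 0 := h2
    show X.D R (g x) = 0
    rw [hgD, h3, map_zero]
  have hGF : ∀ z, G (F z) = z := by
    intro z
    obtain ⟨⟨x, hx⟩, rfl⟩ := Submodule.Quotient.mk_surjective _ z
    rw [hF x hx (hZf x hx), hG (f x) (hZf x hx) (hZg _ (hZf x hx)), Submodule.Quotient.eq]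
    refine ⟨s x, hs j x hx.1, ?_⟩
    show X.D R (s x) = g (f x) - x
    have h3 : X.D R x = 0 := hx.2
    rw [hgf, h3, map_zero, add_zero, add_sub_cancel_left]
  have hFG : ∀ z, F (G z) = z := by
    intro z
    obtain ⟨⟨x, hx⟩, rfl⟩ := Submodule.Quotient.mk_surjective _ z
    rw [hG x hx (hZg x hx), hF (g x) (hZg x hx) (hZf _ (hZg x hx)), Submodule.Quotient.eq]
    refine ⟨s' x, hs' j x hx.1, ?_⟩
    show Y.D R (s' x) = f (g x) - x
    have h3 : Y.D R x = 0 := hx.2
    rw [hfg, h3, map_zero, add_zero, add_sub_cancel_left]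
  exact (LinearEquiv.ofLinearMap F G (LinearMap.ext hFG) (LinearMap.ext hGF)).finrank_eq

/-- The block of the boundary matrix with columns of degree `j + 1`. -/
def blk (X : Cx) (R : Type) [CommRing R] (j : ℤ) : Matrix X.cell X.cell R :=
  fun a b => if (X.deg b : ℤ) = j + 1 then (X.inc a b : R) else 0

theorem B_eq_range (j : ℤ) : X.B R j = LinearMap.range (X.blk R j).mulVecLin := by
  ext y
  constructor
  · rintro ⟨x, hx, rfl⟩
    refine ⟨x, ?_⟩
    funext a
    rw [D_apply, Matrix.mulVecLin_apply]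
    refine Finset.sum_congr rfl fun b _ => ?_
    show (if (X.deg b : ℤ) = j + 1 then (X.inc a b : R) else 0) * x b = _
    by_cases h : (X.deg b : ℤ) = j + 1
    · rw [if_pos h]
    · rw [if_neg h, hx b h, mul_zero, mul_zero]
  · rintro ⟨x, rfl⟩
    refine ⟨fun b => if (X.deg b : ℤ) = j + 1 then x b else 0, ?_, ?_⟩
    · intro c hc
      exact if_neg hc
    · funext a
      rw [D_apply, Matrix.mulVecLin_apply]
      refine Finset.sum_congr rfl fun b _ => ?_
      show _ = (if (X.deg b : ℤ) = j + 1 then (X.inc a b : R) else 0) * x b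
      by_cases h : (X.deg b : ℤ) = j + 1
      · rw [if_pos h, if_pos h]
      · rw [if_neg h, if_neg h, zero_mul, mul_zero]

theorem blk_dual (d : ℕ) (hd : ∀ c, X.deg c ≤ d) (j : ℤ) :
    (X.dual d hd).blk R j = (X.blk R (d - j - 1))ᵀ := by
  refine Matrix.ext fun a b => ?_
  show (if ((d - X.deg b : ℕ) : ℤ) = j + 1 then ((X.inc b a : ℤ) : R) else 0)
    = if (X.deg a : ℤ) = d - j - 1 + 1 then ((X.inc b a : ℤ) : R) else 0
  by_cases h : X.inc b a = 0
  · rw [h]; simp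
  · have h1 := X.hdeg b a h
    have h2 := hd a
    by_cases h3 : ((d - X.deg b : ℕ) : ℤ) = j + 1
    · rw [if_pos h3, if_pos (by omega)]
    · rw [if_neg h3, if_neg (by omega)]

/-- Betti numbers of the dual complex. -/
theorem betti_dual [IsDomain R] [IsPrincipalIdealRing R]
    (hT : ∀ M : Matrix X.cell X.cell R, Mᵀ.rank = M.rank) (d : ℕ) (hd : ∀ c, X.deg c ≤ d)
    (j : ℤ) : (X.dual d hd).betti R j = X.betti R (d - j) := by
  have hr : ∀ j : ℤ, (X.dual d hd).rkB R j = X.rkB R (d - j - 1) := by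
    intro j
    unfold rkB
    rw [B_eq_range, B_eq_range, blk_dual]
    exact hT _
  have hn : (X.dual d hd).nc j = X.nc (d - j) := by
    unfold nc
    congr 1
    ext c
    simp only [Finset.mem_filter, Finset.mem_univ, true_and]
    have h2 := hd c
    constructor <;> intro h <;> omega
  have h1 := betti_eq (X := X.dual d hd) R j
  have h2 := betti_eq (X := X) R (d - j)
  rw [hr, hr, hn] at h1
  have e1 : (d : ℤ) - (j - 1) - 1 = d - j := by ring
  rw [e1] at h1
  omega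

end

/-- The rank of an integer matrix is the rank of its transpose. -/
theorem rank_transpose_int {c : Type} [Fintype c] [DecidableEq c] (M : Matrix c c ℤ) :
    Mᵀ.rank = M.rank := by
  have key : ∀ M : Matrix c c ℤ, M.rank ≤ Mᵀ.rank := by
    intro M
    have h1 : (Mᵀ * M).rank = M.rank := by
      have hk : LinearMap.ker (Mᵀ * M).mulVecLin = LinearMap.ker M.mulVecLin := by
        ext x
        rw [LinearMap.mem_ker, LinearMap.mem_ker, Matrix.mulVecLin_apply, Matrix.mulVecLin_apply]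
        constructor
        · intro h
          have h2 : (M *ᵥ x) ⬝ᵥ (M *ᵥ x) = 0 := by
            have h3 : x ⬝ᵥ ((Mᵀ * M) *ᵥ x) = 0 := by rw [h, dotProduct_zero]
            rw [← Matrix.mulVec_mulVec, Matrix.dotProduct_mulVec, Matrix.vecMul_transpose] at h3
            exact h3
          exact dotProduct_self_eq_zero.mp h2
        · intro h
          rw [← Matrix.mulVec_mulVec, h, Matrix.mulVec_zero]
      have h2 := Submodule.finrank_quotient_add_finrank (LinearMap.ker (Mᵀ * M).mulVecLin)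
      have h3 := Submodule.finrank_quotient_add_finrank (LinearMap.ker M.mulVecLin)
      rw [(LinearMap.quotKerEquivRange _).finrank_eq] at h2 h3
      rw [hk] at h2
      unfold Matrix.rank
      omega
    rw [← h1]
    exact Matrix.rank_mul_le_left _ _
  refine le_antisymm ?_ (key M)
  have := key Mᵀ
  rwa [Matrix.transpose_transpose] at this

/-- Poincaré duality for Betti numbers. -/
theorem PD.betti {X : Cx} {d : ℕ} (h : X.PD d) (hd : ∀ c, X.deg c ≤ d) (R : Type) [CommRing R]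
    [IsDomain R] [IsPrincipalIdealRing R] (hT : ∀ M : Matrix X.cell X.cell R, Mᵀ.rank = M.rank)
    (j : ℤ) : X.betti R j = X.betti R (d - j) := by
  obtain ⟨P, Q, H, H', hP, hQ, hH, hH', hPc, hQc, hPQ, hQP⟩ := h
  rw [← betti_dual hT d hd]
  let φ : Matrix X.cell X.cell ℤ →+* Matrix X.cell X.cell R := (Int.castRingHom R).mapMatrix
  have hφ : ∀ (M : Matrix X.cell X.cell ℤ) (a b : X.cell), φ M a b = (M a b : R) := fun _ _ _ => rfl
  have hD : ∀ x : X.cell → R, X.D R x = φ X.inc *ᵥ x := fun x => rfl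
  have hD' : ∀ x : X.cell → R, (X.dual d hd).D R x = φ X.incᵀ *ᵥ x := fun x => rfl
  have deg : ∀ (M : Matrix X.cell X.cell ℤ) (x : X.cell → R) (a : X.cell), (φ M *ᵥ x) a ≠ 0 →
      ∃ b, M a b ≠ 0 ∧ x b ≠ 0 := by
    intro M x a h
    obtain ⟨b, _, hb⟩ := Finset.exists_ne_zero_of_sum_ne_zero h
    refine ⟨b, ?_, right_ne_zero_of_mul hb⟩
    intro h0
    apply hb
    show (M a b : R) * x b = 0
    rw [h0]; simp
  refine betti_of_hequiv (X := X) (Y := X.dual d hd) (R := R) (φ Q).mulVecLin (φ P).mulVecLin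
    (φ H).mulVecLin (φ H').mulVecLin ?_ ?_ ?_ ?_ ?_ ?_ ?_ ?_ j
  · intro j x hx a ha
    by_contra h0
    obtain ⟨b, h1, h2⟩ := deg Q x a h0
    have h3 := hQ _ _ h1
    have h4 : (X.deg b : ℤ) = j := by by_contra h5; exact h2 (hx b h5)
    apply ha
    show ((d - X.deg a : ℕ) : ℤ) = j
    omega
  · intro j x hx a ha
    by_contra h0
    obtain ⟨b, h1, h2⟩ := deg P x a h0
    have h3 := hP _ _ h1
    have h4 : ((d - X.deg b : ℕ) : ℤ) = j := by by_contra h5; exact h2 (hx b h5)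
    apply ha
    omega
  · intro j x hx a ha
    by_contra h0
    obtain ⟨b, h1, h2⟩ := deg H x a h0
    have h3 := hH _ _ h1
    have h4 : (X.deg b : ℤ) = j := by by_contra h5; exact h2 (hx b h5)
    apply ha
    omega
  · intro j x hx a ha
    by_contra h0
    obtain ⟨b, h1, h2⟩ := deg H' x a h0
    have h3 := hH' _ _ h1
    have h4 : ((d - X.deg b : ℕ) : ℤ) = j := by by_contra h5; exact h2 (hx b h5)
    apply ha
    have h6 := hd b
    show ((d - X.deg a : ℕ) : ℤ) = j + 1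
    omega
  · intro x
    rw [hD, hD', Matrix.mulVecLin_apply, Matrix.mulVecLin_apply, Matrix.mulVec_mulVec,
      Matrix.mulVec_mulVec, ← map_mul, ← map_mul, hQc]
  · intro x
    rw [hD, hD', Matrix.mulVecLin_apply, Matrix.mulVecLin_apply, Matrix.mulVec_mulVec,
      Matrix.mulVec_mulVec, ← map_mul, ← map_mul, hPc]
  · intro x
    rw [hD, hD, Matrix.mulVecLin_apply, Matrix.mulVecLin_apply, Matrix.mulVecLin_apply,
      Matrix.mulVecLin_apply, Matrix.mulVec_mulVec,
      Matrix.mulVec_mulVec, Matrix.mulVec_mulVec, ← map_mul, ← map_mul, ← map_mul, hPQ, map_add,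
      map_add, map_one, Matrix.add_mulVec, Matrix.add_mulVec, Matrix.one_mulVec]
  · intro x
    rw [hD', hD', Matrix.mulVecLin_apply, Matrix.mulVecLin_apply, Matrix.mulVecLin_apply,
      Matrix.mulVecLin_apply, Matrix.mulVec_mulVec,
      Matrix.mulVec_mulVec, Matrix.mulVec_mulVec, ← map_mul, ← map_mul, ← map_mul, hQP, map_add,
      map_add, map_one, Matrix.add_mulVec, Matrix.add_mulVec, Matrix.one_mulVec]

end Cx

namespace ECx

theorem Poincare.level {Γ : Type} [Group Γ] {E : ECx Γ} {d : ℕ} (h : E.Poincare d) {Q : Type}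
    [Group Q] [Fintype Q] [DecidableEq Q] (π : Γ →* Q) : (E.level π).PD d := by
  obtain ⟨P, Q, H, H', hP, hQ, hH, hH', hPc, hQc, hPQ, hQP⟩ := h
  have hb : (E.level π).inc = lev π E.bd := rfl
  have hbt : (E.level π).incᵀ = lev π (adj E.bd) := by rw [hb, lev_adj]
  refine ⟨lev π P, lev π Q, lev π H, lev π H', fun a b h => hP _ _ (lev_ne h),
    fun a b h => hQ _ _ (lev_ne h), fun a b h => hH _ _ (lev_ne h),
    fun a b h => hH' _ _ (lev_ne h), ?_, ?_, ?_, ?_⟩
  · rw [hbt, hb, ← lev_mul, ← lev_mul, hPc]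
  · rw [hbt, hb, ← lev_mul, ← lev_mul, hQc]
  · rw [hb, ← lev_mul, ← lev_mul, ← lev_mul, ← lev_add, ← lev_one π, ← lev_add, hPQ]
  · rw [hbt, ← lev_mul, ← lev_mul, ← lev_mul, ← lev_add, ← lev_one π, ← lev_add, hQP]

end ECx

end Pool.Agent.Helper183_TG
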