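import Pool.Agent.Helper183_TG.Rank

/-!
# Dual pairs of integral cycles and cocycles; torsion of a product
-/

open Matrix

namespace Pool.Agent.Helper183_TG

namespace Cx

variable {X Y : Cx}

theorem dl_eq_zero_of_deg {i : ℤ} {ζ : X.cell → ℤ} (hζ : ζ ∈ X.Ch ℤ i) {b : X.cell}
    (hb : (X.deg b : ℤ) ≠ i + 1) : X.dl ζ b = 0 := by
  refine Finset.sum_eq_zero fun a _ => ?_
  by_cases h1 : X.inc a b = 0
  · rw [h1, mul_zero]
  · have h2 := X.hdeg a b h1
    rw [hζ a, zero_mul]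
    intro h3; apply hb; rw [h2]; push_cast; rw [h3]

theorem single_mem {j : ℤ} {c : X.cell} (hc : (X.deg c : ℤ) = j) :
    (Pi.single c 1 : X.cell → ℤ) ∈ X.Ch ℤ j := by
  intro d hd
  rw [Pi.single_apply, if_neg]
  intro h; subst h; exact hd hc

/-- Dual families of integral cycles and cocycles. -/
theorem exists_pairs (X : Cx) (i : ℤ) :
    ∃ (T : Type) (_ : Fintype T) (_ : DecidableEq T) (z ζ : T → X.cell → ℤ),
      Fintype.card T = X.betti ℤ i ∧ (∀ l, z l ∈ X.Z ℤ i) ∧ (∀ l, ζ l ∈ X.Ch ℤ i) ∧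
      (∀ l, X.dl (ζ l) = 0) ∧ ∀ l m, pr (ζ l) (z m) = if l = m then 1 else 0 := by
  classical
  obtain ⟨n, snf⟩ := Submodule.smithNormalForm (Module.finBasis ℤ (X.Z ℤ i))
    ((X.B ℤ i).submoduleOf (X.Z ℤ i))
  obtain ⟨σ, hσ⟩ := exists_section X (i - 1)
  -- the retraction onto cycles
  have hr : ∀ x : X.Ch ℤ i, (x : X.cell → ℤ)
      - σ ⟨X.D ℤ x, ⟨x, by rw [sub_add_cancel]; exact x.2, rfl⟩⟩ ∈ X.Z ℤ i := by
    intro x
    refine ⟨Submodule.sub_mem _ x.2 ?_, ?_⟩
    · have := (hσ ⟨X.D ℤ x, ⟨x, by rw [sub_add_cancel]; exact x.2, rfl⟩⟩).1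
      have e : X.Ch ℤ (i - 1 + 1) = X.Ch ℤ i := by rw [sub_add_cancel]
      exact e.le this
    · show X.D ℤ _ = 0
      rw [map_sub, (hσ _).2, sub_self]
  let r : X.Ch ℤ i →ₗ[ℤ] X.Z ℤ i :=
    { toFun := fun x => ⟨_, hr x⟩
      map_add' := by
        intro x y
        apply Subtype.ext
        show (x + y : X.Ch ℤ i).1 - σ _ = (x.1 - σ _) + (y.1 - σ _)
        have : (⟨X.D ℤ (x + y : X.Ch ℤ i), ⟨(x + y : X.Ch ℤ i), by
            rw [sub_add_cancel]; exact (x + y).2, rfl⟩⟩ : X.B ℤ (i - 1))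
            = ⟨X.D ℤ x, ⟨x, by rw [sub_add_cancel]; exact x.2, rfl⟩⟩
              + ⟨X.D ℤ y, ⟨y, by rw [sub_add_cancel]; exact y.2, rfl⟩⟩ := by
          apply Subtype.ext
          simp
        rw [this, map_add]
        show x.1 + y.1 - _ = _
        abel
      map_smul' := by
        intro c x
        apply Subtype.ext
        show (c • x : X.Ch ℤ i).1 - σ _ = c • (x.1 - σ _)
        have : (⟨X.D ℤ (c • x : X.Ch ℤ i), ⟨(c • x : X.Ch ℤ i), by
            rw [sub_add_cancel]; exact (c • x).2, rfl⟩⟩ : X.B ℤ (i - 1))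
            = c • ⟨X.D ℤ x, ⟨x, by rw [sub_add_cancel]; exact x.2, rfl⟩⟩ := by
          apply Subtype.ext
          show X.D ℤ (c • x.1) = c • X.D ℤ x.1
          exact map_smul _ _ _
        rw [this, map_smul, smul_sub]
        rfl }
  have hrZ : ∀ (x : X.cell → ℤ) (hx : x ∈ X.Z ℤ i), r ⟨x, hx.1⟩ = ⟨x, hx⟩ := by
    intro x hx
    apply Subtype.ext
    show x - σ _ = x
    have : (⟨X.D ℤ x, ⟨x, by rw [sub_add_cancel]; exact hx.1, rfl⟩⟩ : X.B ℤ (i - 1)) = 0 := by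
      apply Subtype.ext
      exact hx.2
    rw [this, map_zero, sub_zero]
  let T := {k : Fin (Module.finrank ℤ (X.Z ℤ i)) // k ∉ Set.range snf.f}
  let ζ : T → X.cell → ℤ := fun l c =>
    if h : (X.deg c : ℤ) = i then snf.bM.coord l.1 (r ⟨Pi.single c 1, single_mem h⟩) else 0
  have hζ : ∀ l, ζ l ∈ X.Ch ℤ i := by
    intro l c hc
    simp only [ζ, hc, dif_neg, not_false_eq_true]
  have hpr : ∀ l (x : X.cell → ℤ) (hx : x ∈ X.Ch ℤ i),
      pr (ζ l) x = snf.bM.coord l.1 (r ⟨x, hx⟩) := by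
    intro l x hx
    have h1 : (⟨x, hx⟩ : X.Ch ℤ i) = ∑ c, x c • (if h : (X.deg c : ℤ) = i then
        (⟨Pi.single c 1, single_mem h⟩ : X.Ch ℤ i) else 0) := by
      apply Subtype.ext
      rw [Submodule.coe_sum]
      funext d
      rw [Finset.sum_apply, Finset.sum_eq_single d]
      · by_cases hd : (X.deg d : ℤ) = i
        · simp [hd]
        · simp [hd, hx d hd]
      · intro c _ hcd
        by_cases hc : (X.deg c : ℤ) = i
        · simp [hc, Ne.symm hcd]
        · simp [hc]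
      · intro h; exact absurd (Finset.mem_univ d) h
    rw [h1, map_sum, map_sum]
    refine Finset.sum_congr rfl fun c _ => ?_
    rw [map_smul, map_smul, smul_eq_mul]
    by_cases hc : (X.deg c : ℤ) = i
    · simp only [ζ, hc, dif_pos]; ring
    · rw [hx c hc]; simp
  have hB : ∀ (l : T) (y : X.cell → ℤ) (hy : y ∈ X.B ℤ i),
      snf.bM.coord l.1 ⟨y, B_le_Z i hy⟩ = 0 := by
    intro l y hy
    have hy' : (⟨y, B_le_Z i hy⟩ : X.Z ℤ i) ∈ (X.B ℤ i).submoduleOf (X.Z ℤ i) := hy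
    have h2 := congrArg Subtype.val (snf.bN.sum_repr ⟨_, hy'⟩)
    simp only [Submodule.coe_sum, Submodule.coe_smul] at h2
    rw [← h2, map_sum]
    refine Finset.sum_eq_zero fun m _ => ?_
    rw [snf.snf m, map_smul, map_smul, Module.Basis.coord_apply, Module.Basis.repr_self,
      Finsupp.single_apply, if_neg (fun h => l.2 ⟨m, h⟩)]
    simp
  refine ⟨T, inferInstance, inferInstance, fun l => (snf.bM l.1 : X.cell → ℤ), ζ, ?_,
    fun l => (snf.bM l.1).2, hζ, ?_, ?_⟩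
  · have h1 := betti_add (X := X) ℤ i
    have h2 : X.rkB ℤ i = n := by
      have h3 := (Submodule.submoduleOfEquivOfLe (B_le_Z (X := X) (R := ℤ) i)).finrank_eq
      rw [Module.finrank_eq_card_basis snf.bN, Fintype.card_fin] at h3
      exact h3.symm
    have h4 : Fintype.card T = Module.finrank ℤ (X.Z ℤ i) - n := by
      have h5 : Fintype.card T = Fintype.card (Fin (Module.finrank ℤ (X.Z ℤ i)))
          - Fintype.card (Set.range snf.f) :=
        Fintype.card_subtype_compl (fun k => k ∈ Set.range snf.f)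
      rw [h5, Fintype.card_fin, Set.card_range_of_injective snf.f.injective, Fintype.card_fin]
    omega
  · intro l
    funext b
    by_cases hb : (X.deg b : ℤ) = i + 1
    · rw [dl_apply_eq]
      have h1 : X.D ℤ (Pi.single b 1) ∈ X.B ℤ i := ⟨Pi.single b 1, single_mem hb, rfl⟩
      rw [hpr l _ (B_le_Z i h1).1, hrZ _ (B_le_Z i h1), hB l _ h1]
      rfl
    · exact dl_eq_zero_of_deg (hζ l) hb
  · intro l m
    rw [hpr l _ (snf.bM m.1).2.1, hrZ _ (snf.bM m.1).2, Module.Basis.coord_apply,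
      Subtype.coe_eta, Module.Basis.repr_self, Finsupp.single_apply]
    by_cases h : l = m
    · subst h; simp
    · rw [if_neg (fun h' => h (Subtype.ext h'.symm)), if_neg h]

/-- Contraction with a cochain in the first variable. -/
def ct (ζ : X.cell → ℤ) (x : (X.prod Y).cell → ℤ) : Y.cell → ℤ := fun c' => ∑ c, ζ c * x (c, c')

theorem ct_D (i : ℕ) {ζ : X.cell → ℤ} (hζ : ζ ∈ X.Ch ℤ i) (hd : X.dl ζ = 0)
    (x : (X.prod Y).cell → ℤ) :
    ct ζ ((X.prod Y).D ℤ x) = (-1 : ℤ) ^ i • Y.D ℤ (ct ζ x) := by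
  funext c'
  show ∑ c, ζ c * (X.prod Y).D ℤ x (c, c') = (-1 : ℤ) ^ i * Y.D ℤ (ct ζ x) c'
  have h1 : ∀ c, ζ c * (X.prod Y).D ℤ x (c, c') = ζ c * X.D ℤ (fun b => x (b, c')) c
      + (-1) ^ i * (ζ c * Y.D ℤ (fun b' => x (c, b')) c') := by
    intro c
    rw [prod_D_apply]
    by_cases h : (X.deg c : ℤ) = i
    · have : X.deg c = i := by exact_mod_cast h
      rw [this]; ring
    · rw [hζ c h]; simp
  simp_rw [h1, Finset.sum_add_distrib]
  have h2 : ∑ c, ζ c * X.D ℤ (fun b => x (b, c')) c = 0 := by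
    have := pr_D ζ (fun b => x (b, c'))
    rw [hd, pr_zero_left] at this
    exact this
  rw [h2, zero_add, ← Finset.mul_sum]
  congr 1
  simp only [D_apply, ct, Finset.mul_sum, Int.cast_id]
  rw [Finset.sum_comm]
  exact Finset.sum_congr rfl fun _ _ => Finset.sum_congr rfl fun _ _ => by ring

theorem ct_mem {i j : ℤ} {ζ : X.cell → ℤ} (hζ : ζ ∈ X.Ch ℤ i) {x : (X.prod Y).cell → ℤ}
    (hx : x ∈ (X.prod Y).Ch ℤ (i + j)) : ct ζ x ∈ Y.Ch ℤ j := by
  intro c' hc'
  refine Finset.sum_eq_zero fun c _ => ?_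
  by_cases h : (X.deg c : ℤ) = i
  · have h1 : (((X.prod Y).deg (c, c') : ℕ) : ℤ) ≠ i + j := by
      intro h2
      apply hc'
      have h3 : ((X.deg c + Y.deg c' : ℕ) : ℤ) = i + j := h2
      push_cast at h3
      linarith
    rw [hx (c, c') h1, mul_zero]
  · rw [hζ c h, zero_mul]

theorem ct_tv (ζ z : X.cell → ℤ) (y : Y.cell → ℤ) : ct ζ (tv z y) = pr ζ z • y := by
  funext c'
  simp [ct, tv, pr, Finset.sum_mul, mul_assoc]

/-- `H_j(Y)^b` embeds into `H_{i+j}(X ⊗ Y)`, `b` the `i`-th Betti number of `X`. -/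
theorem tors_prod_ge (i : ℕ) (j : ℤ) :
    (Y.tors j) ^ (X.betti ℤ i) ≤ (X.prod Y).tors (i + j) := by
  classical
  obtain ⟨T, _, _, z, ζ, hcard, hz, hζ, hd, hpair⟩ := exists_pairs X i
  -- the chain level map
  have hm : ∀ (l : T) (y : Y.Z ℤ j), tv (z l) (y : Y.cell → ℤ) ∈ (X.prod Y).Z ℤ (i + j) := by
    intro l y
    refine ⟨tv_mem (hz l).1 y.2.1, ?_⟩
    show (X.prod Y).D ℤ _ = 0
    have h1 : X.D ℤ (z l) = 0 := (hz l).2
    have h2 : Y.D ℤ (y : Y.cell → ℤ) = 0 := y.2.2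
    rw [D_tv i (hz l).1, h1, h2, tv_zero_left, tv_zero_right, smul_zero, add_zero]
  let L : T → (Y.Z ℤ j →ₗ[ℤ] (X.prod Y).Z ℤ (i + j)) := fun l =>
    { toFun := fun y => ⟨_, hm l y⟩
      map_add' := fun x y => Subtype.ext (tv_add_right _ _ _)
      map_smul' := fun r y => Subtype.ext (tv_smul_right _ _ _) }
  have hL : ∀ l, (Y.B ℤ j).submoduleOf (Y.Z ℤ j)
      ≤ (((X.prod Y).B ℤ (i + j)).submoduleOf ((X.prod Y).Z ℤ (i + j))).comap (L l) := by
    intro l y hy
    obtain ⟨v, hv, hv2⟩ := hy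
    refine ⟨(-1 : ℤ) ^ i • tv (z l) v, ?_, ?_⟩
    · refine Submodule.smul_mem _ _ ?_
      have := tv_mem (hz l).1 hv
      rwa [← add_assoc] at this
    · rw [map_smul, D_tv i (hz l).1]
      have h1 : X.D ℤ (z l) = 0 := (hz l).2
      rw [h1, tv_zero_left, zero_add, smul_smul, hv2]
      have h3 : ((-1 : ℤ) ^ i) * (-1) ^ i = 1 := by
        rw [← pow_add, ← two_mul, pow_mul]; simp
      rw [h3, one_smul]
      rfl
  let F : (T → Y.H ℤ j) →+ (X.prod Y).H ℤ (i + j) :=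
    ∑ l, (Submodule.mapQ _ _ (L l) (hL l)).toAddMonoidHom.comp
      (Pi.evalAddMonoidHom (fun _ => Y.H ℤ j) l)
  have hFa : ∀ h : T → Y.H ℤ j, F h = ∑ l, (Submodule.mapQ _ _ (L l) (hL l)) (h l) := by
    intro h
    simp only [F, AddMonoidHom.finsetSum_apply]
    rfl
  have hF : Function.Injective F := by
    rw [injective_iff_map_eq_zero]
    intro h hh
    choose y hy using fun l => Submodule.Quotient.mk_surjective _ (h l)
    have h1 : F h = Submodule.Quotient.mk (∑ l, L l (y l)) := by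
      have : ∀ l, (Submodule.mapQ _ _ (L l) (hL l)) (h l) = Submodule.Quotient.mk (L l (y l)) := by
        intro l
        rw [← hy l]
        rfl
      rw [hFa]
      simp_rw [this]
      exact (map_sum (Submodule.mkQ _) _ _).symm
    rw [hh] at h1
    have h2 := (mk_eq_zero _).mp h1.symm
    rw [Submodule.coe_sum] at h2
    obtain ⟨x, hx, hx2⟩ := h2
    funext m
    have h3 : ct (ζ m) (∑ l, tv (z l) (y l : Y.cell → ℤ)) = (y m : Y.cell → ℤ) := by
      have h4 : ct (ζ m) (∑ l, tv (z l) (y l : Y.cell → ℤ))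
          = ∑ l, ct (ζ m) (tv (z l) (y l : Y.cell → ℤ)) := by
        funext c'
        simp only [ct, Finset.sum_apply, Finset.mul_sum]
        exact Finset.sum_comm
      rw [h4]
      simp_rw [ct_tv, hpair]
      simp
    have h5 : ct (ζ m) ((X.prod Y).D ℤ x) = (y m : Y.cell → ℤ) := by
      rw [hx2]; exact h3
    rw [ct_D i (hζ m) (hd m)] at h5
    rw [← hy m]
    refine (mk_eq_zero (y m)).mpr ?_
    refine ⟨(-1 : ℤ) ^ i • ct (ζ m) x, ?_, ?_⟩
    · refine Submodule.smul_mem _ _ (ct_mem (hζ m) ?_)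
      rwa [← add_assoc]
    · rw [map_smul]; exact h5
  -- restrict to torsion
  have hF2 : ∀ h : T → Submodule.torsion ℤ (Y.H ℤ j),
      F (fun l => (h l : Y.H ℤ j)) ∈ Submodule.torsion ℤ ((X.prod Y).H ℤ (i + j)) := by
    intro h
    have h1 : F (fun l => (h l : Y.H ℤ j))
        = ∑ l, (Submodule.mapQ _ _ (L l) (hL l)) (h l : Y.H ℤ j) := by
      exact hFa _
    rw [h1]
    refine Submodule.sum_mem _ fun l _ => ?_
    obtain ⟨a, ha⟩ := (Submodule.mem_torsion_iff _).mp (h l).2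
    refine (Submodule.mem_torsion_iff _).mpr ⟨a, ?_⟩
    have : (Submodule.mapQ _ _ (L l) (hL l)) (a • (h l : Y.H ℤ j)) = 0 := by rw [ha, map_zero]
    rw [← this]
    exact ((Submodule.mapQ _ _ (L l) (hL l)).map_smul (a : ℤ) _).symm
  have hinj : Function.Injective (fun h : T → Submodule.torsion ℤ (Y.H ℤ j) =>
      (⟨_, hF2 h⟩ : Submodule.torsion ℤ ((X.prod Y).H ℤ (i + j)))) := by
    intro h h' hh
    have h1 := hF (congrArg Subtype.val hh)
    funext l
    exact Subtype.ext (congrFun h1 l)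
  have h := @Nat.card_le_card_of_injective _ _ (finite_tors (X.prod Y) (i + j)) _ hinj
  rw [Nat.card_fun, Nat.card_eq_fintype_card (α := T), hcard] at h
  exact h

end Cx

end Pool.Agent.Helper183_TG
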