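import Pool.Agent.Helper183_TG.Snf

/-!
# Ranks of homology groups, and the upper bound for Betti numbers of products
-/

open Matrix

namespace Pool.Agent.Helper183_TG

namespace Cx

variable {X Y : Cx}

/-- The number of cells of dimension `j`. -/
def nc (X : Cx) (j : ℤ) : ℕ := (Finset.univ.filter (fun c : X.cell => (X.deg c : ℤ) = j)).card

section rank

variable (R : Type) [CommRing R] [IsDomain R] [IsPrincipalIdealRing R]

theorem finrank_Ch (j : ℤ) : Module.finrank R (X.Ch R j) = X.nc j := by
  classical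
  let e : X.Ch R j ≃ₗ[R] ({c : X.cell // (X.deg c : ℤ) = j} → R) :=
    { toFun := fun x c => (x : X.cell → R) c.1
      map_add' := fun x y => rfl
      map_smul' := fun r x => rfl
      invFun := fun f => ⟨fun c => if h : (X.deg c : ℤ) = j then f ⟨c, h⟩ else 0, by
        intro c hc
        simp [hc]⟩
      left_inv := by
        intro x
        apply Subtype.ext
        funext c
        by_cases hc : (X.deg c : ℤ) = j
        · simp [hc]
        · simp only [hc, dif_neg, not_false_eq_true]
          exact (x.2 c hc).symm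
      right_inv := by
        intro f
        funext c
        simp [c.2] }
  rw [e.finrank_eq, Module.finrank_fintype_fun_eq_card, Fintype.card_subtype]
  rfl

theorem rank_nullity (j : ℤ) :
    X.rkB R (j - 1) + Module.finrank R (X.Z R j) = X.nc j := by
  have h1 := Submodule.finrank_quotient_add_finrank (LinearMap.ker ((X.D R).domRestrict (X.Ch R j)))
  have h2 := (((X.D R).domRestrict (X.Ch R j)).quotKerEquivRange).finrank_eq
  rw [h2, finrank_Ch, LinearMap.range_domRestrict, LinearMap.ker_domRestrict] at h1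
  have h3 := (Submodule.equivMapOfInjective (X.Ch R j).subtype (Submodule.injective_subtype _)
    (Submodule.comap (X.Ch R j).subtype (LinearMap.ker (X.D R)))).finrank_eq
  rw [h3, Submodule.map_comap_subtype] at h1
  have h4 : X.rkB R (j - 1) = Module.finrank R (Submodule.map (X.D R) (X.Ch R j)) := by
    unfold rkB B
    rw [sub_add_cancel]
  rw [h4]
  exact h1

theorem betti_add (j : ℤ) :
    X.betti R j + X.rkB R j = Module.finrank R (X.Z R j) := by
  have h1 := Submodule.finrank_quotient_add_finrank ((X.B R j).submoduleOf (X.Z R j))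
  have h2 := (Submodule.submoduleOfEquivOfLe (B_le_Z (X := X) (R := R) j)).finrank_eq
  rw [h2] at h1
  exact h1

theorem betti_eq (j : ℤ) :
    (X.betti R j : ℤ) = X.nc j - X.rkB R (j - 1) - X.rkB R j := by
  have h1 := rank_nullity (X := X) R j
  have h2 := betti_add (X := X) R j
  omega

end rank

theorem nc_prod (k : ℤ) : (X.prod Y).nc k = ∑ c : X.cell, Y.nc (k - X.deg c) := by
  classical
  have h0 : (X.prod Y).nc k = (Finset.univ.filter (fun c : X.cell × Y.cell =>
      ((X.deg c.1 + Y.deg c.2 : ℕ) : ℤ) = k)).card := rfl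
  rw [h0, Finset.card_filter, Fintype.sum_prod_type]
  refine Finset.sum_congr rfl fun c _ => ?_
  rw [nc, Finset.card_filter]
  refine Finset.sum_congr rfl fun c' _ => ?_
  have : (((X.deg c + Y.deg c' : ℕ) : ℤ) = k) ↔ ((Y.deg c' : ℤ) = k - X.deg c) := by
    push_cast; constructor <;> intro h <;> linarith
  simp only [this]

/-- A section of the boundary operator. -/
theorem exists_section (Y : Cx) (j : ℤ) : ∃ σ : Y.B ℤ j →ₗ[ℤ] (Y.cell → ℤ),
    ∀ β : Y.B ℤ j, σ β ∈ Y.Ch ℤ (j + 1) ∧ Y.D ℤ (σ β) = β := by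
  let f : Y.Ch ℤ (j + 1) →ₗ[ℤ] Y.B ℤ j :=
    LinearMap.restrict (Y.D ℤ) (p := Y.Ch ℤ (j + 1)) (q := Y.B ℤ j)
      (fun x hx => Submodule.mem_map_of_mem hx)
  have hf : Function.Surjective f := by
    rintro ⟨_, x, hx, rfl⟩
    exact ⟨⟨x, hx⟩, rfl⟩
  obtain ⟨h, hh⟩ := Module.projective_lifting_property f LinearMap.id hf
  refine ⟨(Y.Ch ℤ (j + 1)).subtype ∘ₗ h, fun β => ⟨(h β).2, ?_⟩⟩
  have := LinearMap.congr_fun hh β
  exact congrArg Subtype.val this

theorem rkB_prod_ge (k : ℤ) :
    ∑ c : X.cell, Y.rkB ℤ (k - X.deg c) ≤ (X.prod Y).rkB ℤ k := by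
  classical
  choose σ hσ using exists_section Y
  let Φ₀ : ((c : X.cell) → Y.B ℤ (k - X.deg c)) →ₗ[ℤ] ((X.prod Y).cell → ℤ) :=
    { toFun := fun β c => σ (k - X.deg c.1) (β c.1) c.2
      map_add' := by intro β β'; ext c; simp
      map_smul' := by intro r β; ext c; simp }
  have hmem : ∀ β, (X.prod Y).D ℤ (Φ₀ β) ∈ (X.prod Y).B ℤ k := by
    intro β
    refine ⟨Φ₀ β, ?_, rfl⟩
    rintro ⟨c, c'⟩ hc
    show σ (k - X.deg c) (β c) c' = 0
    apply (hσ (k - X.deg c) (β c)).1
    intro h
    apply hc
    show ((X.deg c + Y.deg c' : ℕ) : ℤ) = k + 1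
    push_cast; rw [h]; ring
  let Φ : ((c : X.cell) → Y.B ℤ (k - X.deg c)) →ₗ[ℤ] (X.prod Y).B ℤ k :=
    LinearMap.codRestrict _ ((X.prod Y).D ℤ ∘ₗ Φ₀) hmem
  have hinj : Function.Injective Φ := by
    rw [injective_iff_map_eq_zero]
    intro β hβ
    have h0 : (X.prod Y).D ℤ (Φ₀ β) = 0 := congrArg Subtype.val hβ
    let M : ℕ := Finset.univ.sup X.deg
    have key : ∀ m : ℕ, ∀ c : X.cell, M - X.deg c = m → β c = 0 := by
      intro m
      induction m using Nat.strong_induction_on with
      | _ m ih =>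
        intro c hc
        have hcM : ∀ b, X.deg b ≤ M := fun b => Finset.le_sup (Finset.mem_univ b)
        have h1 : ∀ a', X.D ℤ (fun b => Φ₀ β (b, a')) c = 0 := by
          intro a'
          rw [D_apply]
          refine Finset.sum_eq_zero fun b _ => ?_
          by_cases h2 : X.inc c b = 0
          · simp [h2]
          · have h3 := X.hdeg c b h2
            have h4 : β b = 0 := by
              refine ih (M - X.deg b) ?_ b rfl
              have := hcM b
              omega
            have h5 : Φ₀ β (b, a') = 0 := by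
              show σ (k - X.deg b) (β b) a' = 0
              rw [h4, map_zero]; rfl
            rw [h5, mul_zero]
        apply Subtype.ext
        rw [← (hσ (k - X.deg c) (β c)).2]
        funext a'
        have h6 := congrFun h0 (c, a')
        rw [prod_D_apply, h1, zero_add] at h6
        have h7 : ((-1 : ℤ) ^ (X.deg c)) ≠ 0 := pow_ne_zero _ (by norm_num)
        exact (mul_eq_zero.mp h6).resolve_left h7
    funext c
    exact key _ c rfl
  have h := LinearMap.finrank_le_finrank_of_injective hinj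
  rw [Module.finrank_pi_fintype] at h
  exact h

theorem betti_prod_le (k : ℤ) :
    (X.prod Y).betti ℤ k ≤ ∑ c : X.cell, Y.betti ℤ (k - X.deg c) := by
  have h1 := betti_eq (X := X.prod Y) ℤ k
  have h2 := rkB_prod_ge (X := X) (Y := Y) k
  have h3 := rkB_prod_ge (X := X) (Y := Y) (k - 1)
  have h4 := nc_prod (X := X) (Y := Y) k
  have h5 : ∑ c : X.cell, ((Y.betti ℤ (k - X.deg c) : ℕ) : ℤ)
      = ∑ c : X.cell, (Y.nc (k - X.deg c) : ℤ) - ∑ c : X.cell, (Y.rkB ℤ (k - 1 - X.deg c) : ℤ)
        - ∑ c : X.cell, (Y.rkB ℤ (k - X.deg c) : ℤ) := by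
    rw [← Finset.sum_sub_distrib, ← Finset.sum_sub_distrib]
    refine Finset.sum_congr rfl fun c _ => ?_
    rw [betti_eq]
    have : k - (X.deg c : ℤ) - 1 = k - 1 - X.deg c := by ring
    rw [this]
  zify at h2 h3 h4 ⊢
  rw [h5]
  linarith

end Cx

end Pool.Agent.Helper183_TG
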