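import Pool.Agent.Helper183_TG.Sys

/-!
# Torsion in homology and Smith systems
-/

open Matrix

namespace Pool.Agent.Helper183_TG

namespace Cx

variable {X Y : Cx}

instance finite_tors (X : Cx) (j : ℤ) : Finite (Submodule.torsion ℤ (X.H ℤ j)) := by
  have : Module.Finite ℤ (Submodule.torsion ℤ (X.H ℤ j)) := inferInstance
  refine Module.finite_of_fg_torsion _ ?_
  exact Submodule.torsion_isTorsion (R := ℤ) (M := X.H ℤ j)

theorem mk_eq_zero {j : ℤ} (x : X.Z ℤ j) :
    (Submodule.Quotient.mk x : X.H ℤ j) = 0 ↔ (x : X.cell → ℤ) ∈ X.B ℤ j := by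
  rw [Submodule.Quotient.mk_eq_zero]; rfl

theorem dl_apply_eq (ζ : X.cell → ℤ) (b : X.cell) :
    X.dl ζ b = pr ζ (X.D ℤ (Pi.single b 1)) := by
  rw [pr_D]; simp [pr, Pi.single_apply]

theorem Sys.pow_le {p i : ℕ} {T : Type} [DecidableEq T] [Fintype T] (s : Sys X p i T)
    (hp : 0 < p) : p ^ (Fintype.card T) ≤ X.tors i := by
  classical
  have hp0 : (p : ℤ) ≠ 0 := by exact_mod_cast hp.ne'
  choose b hb using s.hp
  have hb0 : ∀ l, b l ≠ 0 := by
    intro l h
    apply s.ha l
    rw [hb, h, mul_zero]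
  have hcyc : ∀ c : T → Fin p, (∑ l, ((c l : ℕ) : ℤ) • (b l • s.z l)) ∈ X.Z ℤ i := by
    intro c
    refine ⟨Submodule.sum_mem _ fun l _ => Submodule.smul_mem _ _ (Submodule.smul_mem _ _ (s.hz l)),
      ?_⟩
    show X.D ℤ _ = 0
    rw [map_sum]
    refine Finset.sum_eq_zero fun l _ => ?_
    rw [map_smul, map_smul, s.Dz, smul_zero, smul_zero]
  let g : (T → Fin p) → X.H ℤ i := fun c => Submodule.Quotient.mk ⟨_, hcyc c⟩
  have hg : ∀ c, g c ∈ Submodule.torsion ℤ (X.H ℤ i) := by
    intro c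
    rw [Submodule.mem_torsion_iff]
    refine ⟨⟨(p : ℤ), mem_nonZeroDivisors_of_ne_zero hp0⟩, ?_⟩
    show (p : ℤ) • g c = 0
    rw [← Submodule.Quotient.mk_smul, mk_eq_zero]
    refine ⟨∑ l, ((c l : ℕ) : ℤ) • s.w l, ?_, ?_⟩
    · exact Submodule.sum_mem _ fun l _ => Submodule.smul_mem _ _ (by
        have := s.hw l
        push_cast at this
        exact this)
    · rw [map_sum]
      show _ = (p : ℤ) • ∑ l, ((c l : ℕ) : ℤ) • (b l • s.z l)
      rw [Finset.smul_sum]
      refine Finset.sum_congr rfl fun l _ => ?_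
      rw [map_smul, s.Dw, hb, smul_smul, smul_smul, smul_smul]
      congr 1; ring
  have hinj : Function.Injective (fun c => (⟨g c, hg c⟩ : Submodule.torsion ℤ (X.H ℤ i))) := by
    intro c c' h
    have h1 : g c = g c' := congrArg Subtype.val h
    have h2 : (Submodule.Quotient.mk (⟨_, hcyc c⟩ - ⟨_, hcyc c'⟩ : X.Z ℤ i) : X.H ℤ i) = 0 := by
      rw [Submodule.Quotient.mk_sub]
      exact sub_eq_zero.mpr h1
    rw [mk_eq_zero] at h2
    obtain ⟨y, hy, hy2⟩ := h2
    have h3 : ∀ c : T → Fin p, ∀ m,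
        pr (s.ζ m) (∑ l, ((c l : ℕ) : ℤ) • (b l • s.z l)) = ((c m : ℕ) : ℤ) * b m := by
      intro c m
      rw [pr_sum_right]
      simp only [pr_smul_right, s.pair]
      simp
    funext m
    have h4 : pr (s.ζ m) (X.D ℤ y) = ((c m : ℕ) : ℤ) * b m - ((c' m : ℕ) : ℤ) * b m := by
      rw [hy2, ← h3 c m, ← h3 c' m]
      show pr (s.ζ m) ((∑ l, ((c l : ℕ) : ℤ) • (b l • s.z l))
        - ∑ l, ((c' l : ℕ) : ℤ) • (b l • s.z l)) = _
      rw [sub_eq_add_neg, pr_add_right, ← neg_one_smul ℤ, pr_smul_right]; ring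
    rw [pr_D, s.dζ, pr_smul_left, hb] at h4
    have h5 : ((c m : ℕ) : ℤ) - ((c' m : ℕ) : ℤ) = p * pr (s.ω m) y := by
      apply mul_right_cancel₀ (hb0 m)
      linear_combination -h4
    have h6 := (c m).2
    have h7 := (c' m).2
    have h8 : (p : ℤ) ∣ ((c m : ℕ) : ℤ) - ((c' m : ℕ) : ℤ) := ⟨_, h5⟩
    have h9 : ((c m : ℕ) : ℤ) - ((c' m : ℕ) : ℤ) = 0 := by
      apply Int.eq_zero_of_abs_lt_dvd h8
      rw [abs_lt]; constructor <;> omega
    apply Fin.ext
    omega
  have := Nat.card_le_card_of_injective _ hinj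
  rw [Nat.card_eq_fintype_card, Fintype.card_fun, Fintype.card_fin] at this
  exact this

/-- There is a Smith system with `t` members. -/
def HasSys (X : Cx) (p i t : ℕ) : Prop :=
  ∃ (T : Type) (_ : Fintype T) (_ : DecidableEq T), Fintype.card T = t ∧ Nonempty (Sys X p i T)

theorem HasSys.mul₀ {p i j t t' : ℕ} (h : HasSys X p i t) (h' : HasSys Y p j t') :
    HasSys (X.prod Y) p (i + j) (t * t') := by
  obtain ⟨T, _, _, h1, ⟨s⟩⟩ := h
  obtain ⟨T', _, _, h1', ⟨s'⟩⟩ := h'
  exact ⟨T × T', inferInstance, inferInstance, by rw [Fintype.card_prod, h1, h1'], ⟨s.mul₀ s'⟩⟩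

theorem HasSys.mul₁ {p i j t t' : ℕ} (h : HasSys X p i t) (h' : HasSys Y p j t') :
    HasSys (X.prod Y) p (i + j + 1) (t * t') := by
  obtain ⟨T, _, _, h1, ⟨s⟩⟩ := h
  obtain ⟨T', _, _, h1', ⟨s'⟩⟩ := h'
  exact ⟨T × T', inferInstance, inferInstance, by rw [Fintype.card_prod, h1, h1'], ⟨s.mul₁ s'⟩⟩

theorem HasSys.pow_le {p i t : ℕ} (h : HasSys X p i t) (hp : 0 < p) : p ^ t ≤ X.tors i := by
  obtain ⟨T, _, _, h1, ⟨s⟩⟩ := h
  rw [← h1]
  exact s.pow_le hp

/-- The rank of the boundary map into degree `j`. -/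
noncomputable def rkB (X : Cx) (R : Type) [CommRing R] (j : ℤ) : ℕ := Module.finrank R (X.B R j)

/-- Reduction modulo `p`. -/
def red (p : ℕ) (x : X.cell → ℤ) : X.cell → ZMod p := fun c => (x c : ZMod p)

theorem D_red (p : ℕ) (x : X.cell → ℤ) : X.D (ZMod p) (red p x) = red p (X.D ℤ x) := by
  ext c; simp [D_apply, red]

theorem exists_sys (X : Cx) (p : ℕ) [hp : Fact p.Prime] (i : ℕ) :
    ∃ t, HasSys X p i t ∧ X.rkB ℤ i ≤ X.rkB (ZMod p) i + t := by
  classical
  obtain ⟨n, snf⟩ := Submodule.smithNormalForm (Pi.basisFun ℤ X.cell) (X.B ℤ i)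
  have ha : ∀ l, snf.a l ≠ 0 := by
    intro l h
    have h1 := snf.snf l
    rw [h, zero_smul] at h1
    exact snf.bN.ne_zero l (Subtype.ext h1)
  have hmem : ∀ l, snf.a l • snf.bM (snf.f l) ∈ X.B ℤ i := by
    intro l
    rw [← snf.snf l]; exact (snf.bN l).2
  choose w hw hDw using hmem
  have hz : ∀ l, snf.bM (snf.f l) ∈ X.Ch ℤ i := by
    intro l c hc
    have h1 : X.D ℤ (w l) ∈ X.Ch ℤ (i : ℤ) := D_mem (hw l)
    rw [hDw] at h1
    have h2 := h1 c hc
    exact (mul_eq_zero.mp h2).resolve_left (ha l)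
  let ζ : Fin n → X.cell → ℤ := fun l c =>
    if (X.deg c : ℤ) = i then snf.bM.coord (snf.f l) (Pi.single c 1) else 0
  have hζ : ∀ l, ζ l ∈ X.Ch ℤ i := by
    intro l c hc
    simp only [ζ, hc, if_false]
  have hpr : ∀ l (x : X.cell → ℤ), x ∈ X.Ch ℤ i → pr (ζ l) x = snf.bM.coord (snf.f l) x := by
    intro l x hx
    have h1 : x = ∑ c, x c • (Pi.single c 1 : X.cell → ℤ) := by
      ext d
      simp [Finset.sum_apply, Pi.single_apply]
    conv_rhs => rw [h1, map_sum]
    refine Finset.sum_congr rfl fun c _ => ?_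
    rw [map_smul, smul_eq_mul]
    by_cases hc : (X.deg c : ℤ) = i
    · simp only [ζ, hc, if_true]; ring
    · rw [hx c hc]; simp
  have hcoord : ∀ l (y : X.cell → ℤ), y ∈ X.B ℤ i → snf.a l ∣ snf.bM.coord (snf.f l) y := by
    intro l y hy
    have h1 : y = ∑ m, snf.bN.repr ⟨y, hy⟩ m • (snf.a m • snf.bM (snf.f m)) := by
      have h2 := congrArg Subtype.val (snf.bN.sum_repr ⟨y, hy⟩)
      simp only [Submodule.coe_sum, Submodule.coe_smul] at h2
      exact h2.symm.trans (Finset.sum_congr rfl fun m _ => by rw [snf.snf m])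
    rw [h1, map_sum]
    refine Finset.dvd_sum fun m _ => ?_
    rw [map_smul, map_smul, Module.Basis.coord_apply, Module.Basis.repr_self]
    by_cases hm : m = l
    · subst hm
      simp only [Finsupp.single_eq_same, smul_eq_mul, mul_one]
      exact Dvd.intro_left _ rfl
    · have : snf.f m ≠ snf.f l := fun h => hm (snf.f.injective h)
      rw [Finsupp.single_apply, if_neg this]
      simp
  have hdl : ∀ l b, snf.a l ∣ X.dl (ζ l) b := by
    intro l b
    by_cases hb : (X.deg b : ℤ) = i + 1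
    · have h1 : X.D ℤ (Pi.single b 1) ∈ X.B ℤ i := by
        refine ⟨Pi.single b 1, ?_, rfl⟩
        intro c hc
        rw [Pi.single_apply, if_neg]
        intro h; subst h; exact hc hb
      rw [dl_apply_eq, hpr l _ ((B_le_Z (i : ℤ)) h1).1]
      exact hcoord l _ h1
    · have : X.dl (ζ l) b = 0 := by
        refine Finset.sum_eq_zero fun a _ => ?_
        by_cases h1 : X.inc a b = 0
        · rw [h1, mul_zero]
        · have h2 := X.hdeg a b h1
          rw [hζ l a, zero_mul]
          intro h3; apply hb; rw [h2]; push_cast; rw [h3]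
      rw [this]; exact dvd_zero _
  have hω : ∀ l, (fun b => X.dl (ζ l) b / snf.a l) ∈ X.Ch ℤ (i + 1 : ℕ) := by
    intro l b hb
    have : X.dl (ζ l) b = 0 := by
      refine Finset.sum_eq_zero fun a _ => ?_
      by_cases h1 : X.inc a b = 0
      · rw [h1, mul_zero]
      · have h2 := X.hdeg a b h1
        rw [hζ l a, zero_mul]
        intro h3; apply hb; rw [h2]; push_cast; rw [h3]
    show X.dl (ζ l) b / snf.a l = 0
    rw [this, Int.zero_ediv]
  have hpair : ∀ l m, pr (ζ l) (snf.bM (snf.f m)) = if l = m then 1 else 0 := by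
    intro l m
    rw [hpr l _ (hz m), Module.Basis.coord_apply, Module.Basis.repr_self, Finsupp.single_apply]
    by_cases h : l = m
    · subst h; simp
    · have : snf.f m ≠ snf.f l := fun h' => h (snf.f.injective h').symm
      rw [if_neg this, if_neg h]
  let T := {l : Fin n // (p : ℤ) ∣ snf.a l}
  refine ⟨Fintype.card T, ⟨T, inferInstance, inferInstance, rfl, ⟨{
    z := fun l => snf.bM (snf.f l.1)
    w := fun l => w l.1
    ζ := fun l => ζ l.1
    ω := fun l b => X.dl (ζ l.1) b / snf.a l.1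
    a := fun l => snf.a l.1
    ha := fun l => ha l.1
    hp := fun l => l.2
    hz := fun l => hz l.1
    hw := fun l => by push_cast; exact hw l.1
    hζ := fun l => hζ l.1
    hω := fun l => hω l.1
    Dw := fun l => hDw l.1
    dζ := fun l => by
      ext b
      show X.dl (ζ l.1) b = snf.a l.1 * (X.dl (ζ l.1) b / snf.a l.1)
      rw [Int.mul_ediv_cancel' (hdl l.1 b)]
    pair := fun l m => by
      rw [hpair]
      by_cases h : l = m
      · subst h; simp
      · rw [if_neg h, if_neg (fun h' => h (Subtype.ext h'))] }⟩⟩, ?_⟩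
  -- the rank estimate
  have hn : X.rkB ℤ i = n := by
    rw [rkB, Module.finrank_eq_card_basis snf.bN, Fintype.card_fin]
  let U := {l : Fin n // ¬ (p : ℤ) ∣ snf.a l}
  have hsum : Fintype.card T + Fintype.card U = n := by
    have := Fintype.card_subtype_compl (fun l : Fin n => (p : ℤ) ∣ snf.a l)
    have h2 : Fintype.card T ≤ Fintype.card (Fin n) := Fintype.card_subtype_le _
    rw [Fintype.card_fin] at this h2
    have h3 : Fintype.card U = n - Fintype.card T := this
    omega
  have hDr : ∀ l, X.D (ZMod p) (red p (w l)) ∈ X.B (ZMod p) i := by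
    intro l
    refine ⟨red p (w l), ?_, rfl⟩
    intro c hc
    show ((w l c : ℤ) : ZMod p) = 0
    rw [hw l c hc]; simp
  have hU : Fintype.card U ≤ X.rkB (ZMod p) i := by
    have hli : LinearIndependent (ZMod p)
        (fun l : U => (⟨X.D (ZMod p) (red p (w l.1)), hDr l.1⟩ : X.B (ZMod p) i)) := by
      rw [Fintype.linearIndependent_iff]
      intro g hg m
      have h1 := congrArg Subtype.val hg
      simp only [Submodule.coe_sum, Submodule.coe_smul, ZeroMemClass.coe_zero] at h1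
      have h2 : ∑ c, (ζ m.1 c : ZMod p) * (∑ l, g l • X.D (ZMod p) (red p (w l.1))) c = 0 := by
        rw [h1]; simp
      have h3 : ∀ l : U, ∑ c, (ζ m.1 c : ZMod p) * (X.D (ZMod p) (red p (w l.1))) c
          = if l = m then (snf.a m.1 : ZMod p) else 0 := by
        intro l
        rw [D_red]
        have h4 : ((pr (ζ m.1) (X.D ℤ (w l.1)) : ℤ) : ZMod p)
            = ∑ c, (ζ m.1 c : ZMod p) * (red p (X.D ℤ (w l.1))) c := by
          simp [pr, red]
        rw [← h4, hDw, pr_smul_right, hpair]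
        by_cases h5 : l = m
        · subst h5; simp
        · rw [if_neg h5, if_neg (fun h' => h5 (Subtype.ext h'.symm))]; simp
      have h6 : ∑ c, (ζ m.1 c : ZMod p) * (∑ l, g l • X.D (ZMod p) (red p (w l.1))) c
          = ∑ l, g l * ∑ c, (ζ m.1 c : ZMod p) * (X.D (ZMod p) (red p (w l.1))) c := by
        simp only [Finset.sum_apply, Pi.smul_apply, smul_eq_mul, Finset.mul_sum]
        rw [Finset.sum_comm]
        exact Finset.sum_congr rfl fun _ _ => Finset.sum_congr rfl fun _ _ => by ring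
      rw [h6] at h2
      simp_rw [h3] at h2
      rw [Finset.sum_eq_single m (fun l _ hl => by rw [if_neg hl, mul_zero])
        (fun h => absurd (Finset.mem_univ m) h), if_pos rfl] at h2
      have h7 : (snf.a m.1 : ZMod p) ≠ 0 := by
        intro h8
        exact m.2 ((ZMod.intCast_zmod_eq_zero_iff_dvd _ _).mp h8)
      exact (mul_eq_zero.mp h2).resolve_right h7
    exact hli.fintype_card_le_finrank
  omega

end Cx

end Pool.Agent.Helper183_TG
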