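import Pool.Agent.Helper183_TG.Main

/-!
# Mod `p` homology growth and the square of a tower
-/

open Filter Topology

namespace Pool.Agent.Helper183_TG

namespace Tower

/-- If `A` is `L²`-acyclic and the torsion homology growth of `A × A` vanishes in all degrees, then
the mod `p` homology growth of `A` vanishes. -/
theorem square (A : Tower) (p : ℕ) [Fact p.Prime] (hA : A.Acyclic)
    (hP : ∀ m : ℕ, Tendsto (fun n => Real.log (((A.prod A).C n).tors m) / (A.prod A).idx n) atTop
      (𝓝 0)) (j : ℤ) :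
    Tendsto (fun n => ((A.C n).betti (ZMod p) j : ℝ) / A.idx n) atTop (𝓝 0) := by
  have hp : p.Prime := Fact.out
  have hs : ∀ a : ℤ, Tendsto (fun n => ((max ((A.C n).sd p a) 0 : ℤ) : ℝ) / A.idx n) atTop
      (𝓝 0) := by
    intro a
    by_cases ha : 0 ≤ a
    swap
    · have h0 : ∀ n, (A.C n).sd p a = 0 := fun n => Cx.sd_neg p (not_le.mp ha)
      simp only [h0]
      simp
    obtain ⟨i, rfl⟩ := Int.eq_ofNat_of_zero_le ha
    have hz : Tendsto (fun n => Real.log (((A.prod A).C n).tors ((i + i : ℕ) : ℤ))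
        / (A.idx n : ℝ) ^ 2) atTop (𝓝 0) := by
      refine (hP (i + i)).congr fun n => ?_
      have : (((A.prod A).idx n : ℕ) : ℝ) = (A.idx n : ℝ) ^ 2 := by
        show ((A.idx n * A.idx n : ℕ) : ℝ) = _
        push_cast; ring
      rw [this]
    have key : ∀ n, ((max ((A.C n).sd p i) 0 : ℤ) : ℝ) ^ 2 * Real.log p
        ≤ Real.log (((A.prod A).C n).tors ((i + i : ℕ) : ℤ)) := by
      intro n
      obtain ⟨t, ht, ht'⟩ := Cx.exists_sys (A.C n) p i
      have h1 : (A.C n).sd p i ≤ t := by unfold Cx.sd; omega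
      have h3 := (ht.mul₀ ht).pow_le hp.pos
      have h4 : Real.log ((p : ℝ) ^ (t * t))
          ≤ Real.log (((A.prod A).C n).tors ((i + i : ℕ) : ℤ)) := by
        apply Real.log_le_log
        · have : (0 : ℝ) < p := by exact_mod_cast hp.pos
          positivity
        · exact_mod_cast h3
      rw [Real.log_pow] at h4
      refine le_trans ?_ h4
      have hlog : 0 ≤ Real.log p := Real.log_natCast_nonneg _
      apply mul_le_mul_of_nonneg_right _ hlog
      have h5 : ((max ((A.C n).sd p i) 0 : ℤ) : ℝ) ≤ t := by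
        exact_mod_cast max_le h1 (Int.natCast_nonneg t)
      have h7 : (0 : ℝ) ≤ ((max ((A.C n).sd p i) 0 : ℤ) : ℝ) := by
        exact_mod_cast le_max_right _ _
      rw [pow_two]
      push_cast at h5 h7 ⊢
      exact mul_le_mul h5 h5 h7 (by positivity)
    refine tendsto_zero_of_pow (fun n => ?_) 2 (by omega) ?_
    · have h7 : (0 : ℝ) ≤ ((max ((A.C n).sd p i) 0 : ℤ) : ℝ) := by
        exact_mod_cast le_max_right _ _
      have := A.idx_pos' n
      positivity
    · have hlog : 0 < Real.log p := Real.log_pos (by exact_mod_cast hp.one_lt)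
      have h1 := hz.div_const (Real.log p)
      rw [zero_div] at h1
      refine squeeze_zero (fun n => ?_) (fun n => ?_) h1
      · have h7 : (0 : ℝ) ≤ ((max ((A.C n).sd p i) 0 : ℤ) : ℝ) := by
          exact_mod_cast le_max_right _ _
        have := A.idx_pos' n
        positivity
      · have h2 := A.idx_pos' n
        rw [div_pow, div_div, div_le_div_iff₀ (by positivity) (by positivity)]
        have h3 := mul_le_mul_of_nonneg_right (key n)
          (show (0 : ℝ) ≤ (A.idx n : ℝ) ^ 2 by positivity)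
        linarith [h3]
  have hlim : Tendsto (fun n => ((A.C n).betti ℤ j : ℝ) / A.idx n
      + ((max ((A.C n).sd p (j - 1)) 0 : ℤ) : ℝ) / A.idx n
      + ((max ((A.C n).sd p j) 0 : ℤ) : ℝ) / A.idx n) atTop (𝓝 0) := by
    have := ((hA j).add (hs (j - 1))).add (hs j)
    simpa using this
  refine squeeze_zero (fun n => by positivity) (fun n => ?_) hlim
  have h2 := A.idx_pos' n
  rw [← add_div, ← add_div]
  apply div_le_div_of_nonneg_right _ h2.le
  have h1 := Cx.modp_eq (X := A.C n) p j
  have h3 : ((A.C n).betti (ZMod p) j : ℤ) ≤ (A.C n).betti ℤ j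
      + max ((A.C n).sd p (j - 1)) 0 + max ((A.C n).sd p j) 0 := by
    have h4 := le_max_left ((A.C n).sd p (j - 1)) 0
    have h5 := le_max_left ((A.C n).sd p j) 0
    omega
  exact_mod_cast h3

end Tower

namespace CoverTower

/-- `T` violates Lück's conjecture: either (a) fails in some degree `n` with `2n + 1 ≠ dim`, or the
dimension is odd, `2m + 1`, and (b) fails: some `L²`-Betti number does not vanish, or
`log |tors H_m(M_i)| / [Γ : Γ_i]` does not converge to `(-1)^m ρ^{(2)}`. -/
def Violates (T : CoverTower) : Prop :=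
  (∃ n : ℕ, 2 * n + 1 ≠ T.dim ∧
    ¬ Tendsto (fun i => Real.log ((T.level i).tors n) / (T.N i).index) atTop (𝓝 0)) ∨
  (∃ m : ℕ, T.dim = 2 * m + 1 ∧ (¬ T.Acyclic ∨
    ¬ Tendsto (fun i => Real.log ((T.level i).tors m) / (T.N i).index) atTop
      (𝓝 ((-1) ^ m * T.E.rho))))

theorem square (A : CoverTower) (p : ℕ) [Fact p.Prime] (hA : Odd A.dim) (hg : A.ModGrowth p) :
    A.Violates ∨ (A.prod A).Violates := by
  by_contra hcon
  rw [not_or] at hcon
  obtain ⟨h1, h2⟩ := hcon
  obtain ⟨m, hm⟩ := hA
  have hAc : A.Acyclic := by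
    by_contra h
    exact h1 (Or.inr ⟨m, hm, Or.inl h⟩)
  obtain ⟨j, hj⟩ := hg
  have hcorr := corr_prod A.corr_self A.corr_self
  have ht : ∀ n : ℕ, Tendsto (fun i => Real.log (((A.toTower.prod A.toTower).C i).tors n)
      / (A.toTower.prod A.toTower).idx i) atTop (𝓝 0) := by
    intro n
    have h3 : Tendsto (fun i => Real.log (((A.prod A).level i).tors n)
        / ((A.prod A).N i).index) atTop (𝓝 0) := by
      by_contra h
      refine h2 (Or.inl ⟨n, ?_, h⟩)
      show 2 * n + 1 ≠ A.dim + A.dim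
      omega
    refine h3.congr fun i => ?_
    obtain ⟨f⟩ := hcorr.2.2 i
    rw [f.tors_eq, hcorr.2.1 i]
  exact hj (Tower.square A.toTower p (acyclic_of_corr A.corr_self hAc) ht j)

end CoverTower

end Pool.Agent.Helper183_TG
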