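import Pool.Agent.Helper183_TG.Cx

/-!
# Smith systems and their products

A Smith system is a family of cycles `z`, chains `w` with `∂w = a z`, cochains `ζ, ω` with
`δζ = a ω` and `⟨ζ_l, z_m⟩ = δ_{lm}`: it exhibits a direct sum of cyclic groups `ℤ/a_l` in homology.
-/

open Matrix

namespace Pool.Agent.Helper183_TG

namespace Cx

variable {X Y : Cx}

/-- The coboundary of an integral cochain. -/
def dl (X : Cx) (ζ : X.cell → ℤ) : X.cell → ℤ := fun b => ∑ a, ζ a * X.inc a b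

/-- The pairing of cochains and chains. -/
def pr {ι : Type} [Fintype ι] (ζ x : ι → ℤ) : ℤ := ∑ c, ζ c * x c

theorem pr_D (ζ x : X.cell → ℤ) : pr ζ (X.D ℤ x) = pr (X.dl ζ) x := by
  simp only [pr, dl, D_apply, Int.cast_id, Finset.mul_sum, Finset.sum_mul]
  rw [Finset.sum_comm]
  refine Finset.sum_congr rfl fun b _ => Finset.sum_congr rfl fun a _ => ?_
  ring

section pr
variable {ι : Type} [Fintype ι]
theorem pr_add_left (a b x : ι → ℤ) : pr (a + b) x = pr a x + pr b x := by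
  simp [pr, add_mul, Finset.sum_add_distrib]
theorem pr_add_right (a x y : ι → ℤ) : pr a (x + y) = pr a x + pr a y := by
  simp [pr, mul_add, Finset.sum_add_distrib]
theorem pr_smul_left (r : ℤ) (a x : ι → ℤ) : pr (r • a) x = r * pr a x := by
  simp [pr, Finset.mul_sum, mul_assoc]
theorem pr_smul_right (r : ℤ) (a x : ι → ℤ) : pr a (r • x) = r * pr a x := by
  simp only [pr, Finset.mul_sum, Pi.smul_apply, smul_eq_mul]
  refine Finset.sum_congr rfl fun b _ => by ring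
theorem pr_zero_right (a : ι → ℤ) : pr a 0 = 0 := by simp [pr]
theorem pr_zero_left (a : ι → ℤ) : pr 0 a = 0 := by simp [pr]
theorem pr_sum_right {κ : Type} (s : Finset κ) (a : ι → ℤ) (f : κ → ι → ℤ) :
    pr a (∑ k ∈ s, f k) = ∑ k ∈ s, pr a (f k) := by
  classical
  induction s using Finset.induction_on with
  | empty => simp [pr]
  | insert k s hk ih => rw [Finset.sum_insert hk, Finset.sum_insert hk, pr_add_right, ih]
end pr

theorem pr_deg {i j : ℤ} (h : i ≠ j) {ζ x : X.cell → ℤ} (hζ : ζ ∈ X.Ch ℤ i)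
    (hx : x ∈ X.Ch ℤ j) : pr ζ x = 0 := by
  refine Finset.sum_eq_zero fun c _ => ?_
  by_cases hc : (X.deg c : ℤ) = i
  · rw [hx c (by rw [hc]; exact h), mul_zero]
  · rw [hζ c hc, zero_mul]

/-- External product of vectors. -/
def tv (x : X.cell → ℤ) (y : Y.cell → ℤ) : (X.prod Y).cell → ℤ := fun c => x c.1 * y c.2

theorem tv_add_left (x x' : X.cell → ℤ) (y : Y.cell → ℤ) : tv (x + x') y = tv x y + tv x' y := by
  ext c; simp [tv, add_mul]
theorem tv_add_right (x : X.cell → ℤ) (y y' : Y.cell → ℤ) : tv x (y + y') = tv x y + tv x y' := by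
  ext c; simp [tv, mul_add]
theorem tv_smul_left (r : ℤ) (x : X.cell → ℤ) (y : Y.cell → ℤ) : tv (r • x) y = r • tv x y := by
  ext c; simp [tv, mul_assoc]
theorem tv_smul_right (r : ℤ) (x : X.cell → ℤ) (y : Y.cell → ℤ) : tv x (r • y) = r • tv x y := by
  ext c; simp only [tv, Pi.smul_apply, smul_eq_mul]; ring
theorem tv_zero_left (y : Y.cell → ℤ) : tv (0 : X.cell → ℤ) y = 0 := by
  ext c; simp [tv]
theorem tv_zero_right (x : X.cell → ℤ) : tv x (0 : Y.cell → ℤ) = 0 := by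
  ext c; simp [tv]

theorem tv_mem {i j : ℤ} {x : X.cell → ℤ} {y : Y.cell → ℤ} (hx : x ∈ X.Ch ℤ i)
    (hy : y ∈ Y.Ch ℤ j) : tv x y ∈ (X.prod Y).Ch ℤ (i + j) := by
  rintro ⟨c, c'⟩ h
  by_cases h1 : (X.deg c : ℤ) = i
  · have h2 : (Y.deg c' : ℤ) ≠ j := by
      intro h3; apply h
      show ((X.deg c + Y.deg c' : ℕ) : ℤ) = i + j
      push_cast; rw [h1, h3]
    show x c * y c' = 0
    rw [hy c' h2, mul_zero]
  · show x c * y c' = 0
    rw [hx c h1, zero_mul]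

theorem D_tv (i : ℕ) {x : X.cell → ℤ} (hx : x ∈ X.Ch ℤ i) (y : Y.cell → ℤ) :
    (X.prod Y).D ℤ (tv x y) = tv (X.D ℤ x) y + (-1 : ℤ) ^ i • tv x (Y.D ℤ y) := by
  ext ⟨a, a'⟩
  rw [prod_D_apply]
  show X.D ℤ (fun b => x b * y a') a + (-1) ^ (X.deg a) * Y.D ℤ (fun b' => x a * y b') a'
    = X.D ℤ x a * y a' + (-1) ^ i * (x a * Y.D ℤ y a')
  have h1 : X.D ℤ (fun b => x b * y a') a = X.D ℤ x a * y a' := by
    simp only [D_apply, Finset.sum_mul, mul_assoc]
  have h2 : Y.D ℤ (fun b' => x a * y b') a' = x a * Y.D ℤ y a' := by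
    simp only [D_apply, Finset.mul_sum]
    exact Finset.sum_congr rfl fun b _ => by ring
  rw [h1, h2]
  congr 1
  by_cases h : (X.deg a : ℤ) = i
  · have : X.deg a = i := by exact_mod_cast h
    rw [this]
  · rw [hx a h]; simp

theorem dl_tv (i : ℕ) {ζ : X.cell → ℤ} (hζ : ζ ∈ X.Ch ℤ i) (η : Y.cell → ℤ) :
    (X.prod Y).dl (tv ζ η) = tv (X.dl ζ) η + (-1 : ℤ) ^ i • tv ζ (Y.dl η) := by
  ext ⟨b, b'⟩
  show ∑ a : X.cell × Y.cell, (ζ a.1 * η a.2) * prodInc X Y a (b, b')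
    = (∑ a, ζ a * X.inc a b) * η b' + (-1) ^ i * (ζ b * ∑ a', η a' * Y.inc a' b')
  rw [Fintype.sum_prod_type]
  have h1 : ∀ a a', (ζ a * η a') * prodInc X Y (a, a') (b, b')
      = (if a' = b' then ζ a * X.inc a b * η a' else 0)
        + (if a = b then (-1) ^ i * (ζ a * (η a' * Y.inc a' b')) else 0) := by
    intro a a'
    unfold prodInc
    have h3 : (-1 : ℤ) ^ (X.deg a) * ζ a = (-1) ^ i * ζ a := by
      by_cases h : (X.deg a : ℤ) = i
      · have : X.deg a = i := by exact_mod_cast h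
        rw [this]
      · rw [hζ a h]; simp
    by_cases h4 : a' = b' <;> by_cases h5 : a = b
    · simp only [h4, h5, if_true]
      rw [h5] at h3
      linear_combination (η b' * Y.inc b' b') * h3
    · simp [h4, h5]; ring
    · simp only [h4, h5, if_true, if_false]
      rw [h5] at h3
      linear_combination (η a' * Y.inc a' b') * h3
    · simp [h4, h5]
  simp_rw [h1, Finset.sum_add_distrib]
  congr 1
  · rw [Finset.sum_mul]
    exact Finset.sum_congr rfl fun a _ => by simp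
  · rw [Finset.sum_comm]
    simp only [Finset.sum_ite_eq', Finset.mem_univ, if_true, Finset.mul_sum]

theorem pr_tv (ζ x : X.cell → ℤ) (η y : Y.cell → ℤ) :
    pr (tv ζ η) (tv x y) = pr ζ x * pr η y := by
  show ∑ c : X.cell × Y.cell, (ζ c.1 * η c.2) * (x c.1 * y c.2) = _
  rw [Fintype.sum_prod_type, pr, pr, Finset.sum_mul_sum]
  exact Finset.sum_congr rfl fun a _ => Finset.sum_congr rfl fun b _ => by ring

/-- A Smith system for the prime `p` in degree `i` (see the file header). -/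
structure Sys (X : Cx) (p : ℕ) (i : ℕ) (T : Type) [DecidableEq T] where
  z : T → X.cell → ℤ
  w : T → X.cell → ℤ
  ζ : T → X.cell → ℤ
  ω : T → X.cell → ℤ
  a : T → ℤ
  ha : ∀ l, a l ≠ 0
  hp : ∀ l, (p : ℤ) ∣ a l
  hz : ∀ l, z l ∈ X.Ch ℤ i
  hw : ∀ l, w l ∈ X.Ch ℤ (i + 1 : ℕ)
  hζ : ∀ l, ζ l ∈ X.Ch ℤ i
  hω : ∀ l, ω l ∈ X.Ch ℤ (i + 1 : ℕ)
  Dw : ∀ l, X.D ℤ (w l) = a l • z l
  dζ : ∀ l, X.dl (ζ l) = a l • ω l
  pair : ∀ l m, pr (ζ l) (z m) = if l = m then 1 else 0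

namespace Sys

variable {p i j : ℕ} {T T' : Type} [DecidableEq T] [DecidableEq T']

theorem Dz (s : Sys X p i T) (l : T) : X.D ℤ (s.z l) = 0 := by
  have h : s.a l • X.D ℤ (s.z l) = 0 := by
    rw [← map_smul, ← s.Dw, D_D]
  exact (smul_eq_zero.mp h).resolve_left (s.ha l)

theorem dl_add (a b : X.cell → ℤ) : X.dl (a + b) = X.dl a + X.dl b := by
  ext c; simp [dl, add_mul, Finset.sum_add_distrib]

theorem dl_smul (r : ℤ) (a : X.cell → ℤ) : X.dl (r • a) = r • X.dl a := by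
  ext c; simp [dl, Finset.mul_sum, mul_assoc]

theorem dl_dl (a : X.cell → ℤ) : X.dl (X.dl a) = 0 := by
  ext c
  have h : pr (X.dl (X.dl a)) (Pi.single c 1) = 0 := by
    rw [← pr_D, ← pr_D, D_D, pr_zero_right]
  have h2 : pr (X.dl (X.dl a)) (Pi.single c 1) = X.dl (X.dl a) c := by
    simp [pr, Pi.single_apply]
  rw [← h2, h]; rfl

theorem dω (s : Sys X p i T) (l : T) : X.dl (s.ω l) = 0 := by
  have h : s.a l • X.dl (s.ω l) = 0 := by
    rw [← dl_smul, ← s.dζ, dl_dl]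
  exact (smul_eq_zero.mp h).resolve_left (s.ha l)

theorem pair' (s : Sys X p i T) (l m : T) : pr (s.ω l) (s.w m) = if l = m then 1 else 0 := by
  have h : s.a l * pr (s.ω l) (s.w m) = s.a m * pr (s.ζ l) (s.z m) := by
    rw [← pr_smul_left, ← s.dζ, ← pr_D, s.Dw, pr_smul_right]
  rw [s.pair] at h
  by_cases h1 : l = m
  · subst h1
    simp only [if_true, mul_one] at h ⊢
    exact mul_left_cancel₀ (s.ha l) (by rw [h, mul_one])
  · simp only [h1, if_false, mul_zero] at h ⊢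
    exact (mul_eq_zero.mp h).resolve_left (s.ha l)

/-- The product of two Smith systems in degree `i + j`. -/
noncomputable def mul₀ (s : Sys X p i T) (t : Sys Y p j T') :
    Sys (X.prod Y) p (i + j) (T × T') where
  z l := tv (s.z l.1) (t.z l.2)
  w l := Int.gcdA (s.a l.1) (t.a l.2) • tv (s.w l.1) (t.z l.2)
    + ((-1 : ℤ) ^ i * Int.gcdB (s.a l.1) (t.a l.2)) • tv (s.z l.1) (t.w l.2)
  ζ l := tv (s.ζ l.1) (t.ζ l.2)
  ω l := (s.a l.1 / (Int.gcd (s.a l.1) (t.a l.2) : ℤ)) • tv (s.ω l.1) (t.ζ l.2)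
    + ((-1 : ℤ) ^ i * (t.a l.2 / (Int.gcd (s.a l.1) (t.a l.2) : ℤ))) • tv (s.ζ l.1) (t.ω l.2)
  a l := (Int.gcd (s.a l.1) (t.a l.2) : ℤ)
  ha l := by
    have := s.ha l.1
    intro h
    rw [Int.natCast_eq_zero, Int.gcd_eq_zero_iff] at h
    exact this h.1
  hp l := Int.dvd_coe_gcd (s.hp l.1) (t.hp l.2)
  hz l := by
    have := tv_mem (s.hz l.1) (t.hz l.2)
    push_cast; exact this
  hw l := by
    have h1 := tv_mem (s.hw l.1) (t.hz l.2)
    have h2 := tv_mem (s.hz l.1) (t.hw l.2)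
    have e1 : (((i + 1 : ℕ) : ℤ) + (j : ℤ)) = ((i + j + 1 : ℕ) : ℤ) := by push_cast; ring
    have e2 : ((i : ℤ) + ((j + 1 : ℕ) : ℤ)) = ((i + j + 1 : ℕ) : ℤ) := by push_cast; ring
    rw [e1] at h1; rw [e2] at h2
    exact Submodule.add_mem _ (Submodule.smul_mem _ _ h1) (Submodule.smul_mem _ _ h2)
  hζ l := by
    have := tv_mem (s.hζ l.1) (t.hζ l.2)
    push_cast; exact this
  hω l := by
    have h1 := tv_mem (s.hω l.1) (t.hζ l.2)
    have h2 := tv_mem (s.hζ l.1) (t.hω l.2)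
    have e1 : (((i + 1 : ℕ) : ℤ) + (j : ℤ)) = ((i + j + 1 : ℕ) : ℤ) := by push_cast; ring
    have e2 : ((i : ℤ) + ((j + 1 : ℕ) : ℤ)) = ((i + j + 1 : ℕ) : ℤ) := by push_cast; ring
    rw [e1] at h1; rw [e2] at h2
    exact Submodule.add_mem _ (Submodule.smul_mem _ _ h1) (Submodule.smul_mem _ _ h2)
  Dw l := by
    rw [map_add, map_smul, map_smul, D_tv (i + 1) (s.hw l.1), D_tv i (s.hz l.1), s.Dw, t.Dw,
      s.Dz, t.Dz, tv_zero_left, tv_zero_right, tv_smul_left, tv_smul_right, smul_zero, add_zero,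
      zero_add, smul_smul, smul_smul, smul_smul, ← add_smul]
    congr 1
    have h := Int.gcd_eq_gcd_ab (s.a l.1) (t.a l.2)
    have h1 : ((-1 : ℤ) ^ i) * (-1) ^ i = 1 := by
      rw [← pow_add, ← two_mul, pow_mul]; simp
    rw [h]
    linear_combination (Int.gcdB (s.a l.1) (t.a l.2) * t.a l.2) * h1
  dζ l := by
    rw [dl_tv i (s.hζ l.1), s.dζ, t.dζ, tv_smul_left, tv_smul_right, smul_add, smul_smul,
      smul_smul, smul_smul]
    have h1 : (Int.gcd (s.a l.1) (t.a l.2) : ℤ) * (s.a l.1 / (Int.gcd (s.a l.1) (t.a l.2) : ℤ))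
        = s.a l.1 := Int.mul_ediv_cancel' (Int.gcd_dvd_left ..)
    have h2 : (Int.gcd (s.a l.1) (t.a l.2) : ℤ) * (t.a l.2 / (Int.gcd (s.a l.1) (t.a l.2) : ℤ))
        = t.a l.2 := Int.mul_ediv_cancel' (Int.gcd_dvd_right ..)
    congr 1
    · rw [h1]
    · rw [mul_left_comm, h2]
  pair l m := by
    rw [pr_tv, s.pair, t.pair]
    by_cases h1 : l.1 = m.1 <;> by_cases h2 : l.2 = m.2
    · have : l = m := Prod.ext h1 h2
      simp [this]
    · have : l ≠ m := fun h => h2 (by rw [h])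
      simp [h2, this]
    · have : l ≠ m := fun h => h1 (by rw [h])
      simp [h1, this]
    · have : l ≠ m := fun h => h1 (by rw [h])
      simp [h1, this]

/-- The product of two Smith systems in degree `i + j + 1`. -/
noncomputable def mul₁ (s : Sys X p i T) (t : Sys Y p j T') :
    Sys (X.prod Y) p (i + j + 1) (T × T') where
  z l := (t.a l.2 / (Int.gcd (s.a l.1) (t.a l.2) : ℤ)) • tv (s.w l.1) (t.z l.2)
    + (-(-1 : ℤ) ^ i * (s.a l.1 / (Int.gcd (s.a l.1) (t.a l.2) : ℤ))) • tv (s.z l.1) (t.w l.2)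
  w l := ((-1 : ℤ) ^ (i + 1)) • tv (s.w l.1) (t.w l.2)
  ζ l := Int.gcdB (s.a l.1) (t.a l.2) • tv (s.ω l.1) (t.ζ l.2)
    + (-(-1 : ℤ) ^ i * Int.gcdA (s.a l.1) (t.a l.2)) • tv (s.ζ l.1) (t.ω l.2)
  ω l := ((-1 : ℤ) ^ (i + 1)) • tv (s.ω l.1) (t.ω l.2)
  a l := (Int.gcd (s.a l.1) (t.a l.2) : ℤ)
  ha l := by
    have := s.ha l.1
    intro h
    rw [Int.natCast_eq_zero, Int.gcd_eq_zero_iff] at h
    exact this h.1
  hp l := Int.dvd_coe_gcd (s.hp l.1) (t.hp l.2)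
  hz l := by
    have h1 := tv_mem (s.hw l.1) (t.hz l.2)
    have h2 := tv_mem (s.hz l.1) (t.hw l.2)
    have e1 : (((i + 1 : ℕ) : ℤ) + (j : ℤ)) = ((i + j + 1 : ℕ) : ℤ) := by push_cast; ring
    have e2 : ((i : ℤ) + ((j + 1 : ℕ) : ℤ)) = ((i + j + 1 : ℕ) : ℤ) := by push_cast; ring
    rw [e1] at h1; rw [e2] at h2
    exact Submodule.add_mem _ (Submodule.smul_mem _ _ h1) (Submodule.smul_mem _ _ h2)
  hw l := by
    have h1 := tv_mem (s.hw l.1) (t.hw l.2)
    have e1 : (((i + 1 : ℕ) : ℤ) + ((j + 1 : ℕ) : ℤ)) = ((i + j + 1 + 1 : ℕ) : ℤ) := by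
      push_cast; ring
    rw [e1] at h1
    exact Submodule.smul_mem _ _ h1
  hζ l := by
    have h1 := tv_mem (s.hω l.1) (t.hζ l.2)
    have h2 := tv_mem (s.hζ l.1) (t.hω l.2)
    have e1 : (((i + 1 : ℕ) : ℤ) + (j : ℤ)) = ((i + j + 1 : ℕ) : ℤ) := by push_cast; ring
    have e2 : ((i : ℤ) + ((j + 1 : ℕ) : ℤ)) = ((i + j + 1 : ℕ) : ℤ) := by push_cast; ring
    rw [e1] at h1; rw [e2] at h2
    exact Submodule.add_mem _ (Submodule.smul_mem _ _ h1) (Submodule.smul_mem _ _ h2)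
  hω l := by
    have h1 := tv_mem (s.hω l.1) (t.hω l.2)
    have e1 : (((i + 1 : ℕ) : ℤ) + ((j + 1 : ℕ) : ℤ)) = ((i + j + 1 + 1 : ℕ) : ℤ) := by
      push_cast; ring
    rw [e1] at h1
    exact Submodule.smul_mem _ _ h1
  Dw l := by
    rw [map_smul, D_tv (i + 1) (s.hw l.1), s.Dw, t.Dw, tv_smul_left, tv_smul_right, smul_add,
      smul_add, smul_smul, smul_smul, smul_smul, smul_smul, smul_smul]
    have h1 : (Int.gcd (s.a l.1) (t.a l.2) : ℤ) * (s.a l.1 / (Int.gcd (s.a l.1) (t.a l.2) : ℤ))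
        = s.a l.1 := Int.mul_ediv_cancel' (Int.gcd_dvd_left ..)
    have h2 : (Int.gcd (s.a l.1) (t.a l.2) : ℤ) * (t.a l.2 / (Int.gcd (s.a l.1) (t.a l.2) : ℤ))
        = t.a l.2 := Int.mul_ediv_cancel' (Int.gcd_dvd_right ..)
    have h3 : ((-1 : ℤ) ^ (i + 1)) * (-1) ^ (i + 1) = 1 := by
      rw [← pow_add, ← two_mul, pow_mul]; simp
    rw [add_comm]
    congr 1
    · rw [h2]
      congr 1
      linear_combination (t.a l.2) * h3
    · congr 1
      rw [pow_succ]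
      linear_combination ((-1 : ℤ) ^ i) * h1
  dζ l := by
    rw [dl_add, dl_smul, dl_smul, dl_tv (i + 1) (s.hω l.1), dl_tv i (s.hζ l.1), s.dω, t.dω,
      s.dζ, t.dζ, tv_zero_left, tv_zero_right, tv_smul_left, tv_smul_right, smul_zero, add_zero,
      zero_add, smul_smul, smul_smul, smul_smul, smul_smul, ← add_smul]
    congr 1
    have h := Int.gcd_eq_gcd_ab (s.a l.1) (t.a l.2)
    rw [h, pow_succ]
    ring
  pair l m := by
    rw [pr_add_left, pr_add_right, pr_add_right, pr_smul_left, pr_smul_left, pr_smul_left,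
      pr_smul_left, pr_smul_right, pr_smul_right, pr_smul_right, pr_smul_right, pr_tv, pr_tv,
      pr_tv, pr_tv, s.pair, t.pair, s.pair', t.pair']
    have h0 : pr (s.ω l.1) (s.z m.1) = 0 := pr_deg (by push_cast; omega) (s.hω l.1) (s.hz m.1)
    have h0' : pr (s.ζ l.1) (s.w m.1) = 0 := pr_deg (by push_cast; omega) (s.hζ l.1) (s.hw m.1)
    rw [h0, h0']
    by_cases hlm : l = m
    · subst hlm
      simp only [if_true, mul_one, zero_mul, mul_zero, add_zero, zero_add]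
      have hg : (Int.gcd (s.a l.1) (t.a l.2) : ℤ) ≠ 0 := by
        intro h
        rw [Int.natCast_eq_zero, Int.gcd_eq_zero_iff] at h
        exact (s.ha l.1) h.1
      have h1 : (Int.gcd (s.a l.1) (t.a l.2) : ℤ)
          * (s.a l.1 / (Int.gcd (s.a l.1) (t.a l.2) : ℤ)) = s.a l.1 :=
        Int.mul_ediv_cancel' (Int.gcd_dvd_left ..)
      have h2 : (Int.gcd (s.a l.1) (t.a l.2) : ℤ)
          * (t.a l.2 / (Int.gcd (s.a l.1) (t.a l.2) : ℤ)) = t.a l.2 :=
        Int.mul_ediv_cancel' (Int.gcd_dvd_right ..)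
      have h3 : ((-1 : ℤ) ^ i) * (-1) ^ i = 1 := by
        rw [← pow_add, ← two_mul, pow_mul]; simp
      have h := Int.gcd_eq_gcd_ab (s.a l.1) (t.a l.2)
      apply mul_left_cancel₀ hg
      generalize Int.gcdA (s.a l.1) (t.a l.2) = u at *
      generalize Int.gcdB (s.a l.1) (t.a l.2) = v at *
      generalize (s.a l.1 / (Int.gcd (s.a l.1) (t.a l.2) : ℤ)) = x at *
      generalize (t.a l.2 / (Int.gcd (s.a l.1) (t.a l.2) : ℤ)) = y at *
      generalize (Int.gcd (s.a l.1) (t.a l.2) : ℤ) = g at *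
      linear_combination v * h2 + u * h1 - h + g * u * x * h3
    · have hne : ¬ (l.1 = m.1 ∧ l.2 = m.2) := fun h => hlm (Prod.ext h.1 h.2)
      by_cases h1 : l.1 = m.1 <;> by_cases h2 : l.2 = m.2
      · exact absurd ⟨h1, h2⟩ hne
      · simp [h2, hlm]
      · simp [h1, hlm]
      · simp [h1, hlm]

end Sys

end Cx

end Pool.Agent.Helper183_TG
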