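import Pool.Agent.Helper183_TG.Pairs

/-!
# Towers of finite chain complexes and their products
-/

open Filter Topology

namespace Pool.Agent.Helper183_TG

/-- A tower: for each `n` a finite based chain complex `C n` (of `M_n`) and a positive integer
`idx n` (the degree of `M_n → M`), with cells in degrees at most `dim` and a number of cells bounded
by a constant times `idx n`. -/
structure Tower where
  dim : ℕ
  idx : ℕ → ℕ
  C : ℕ → Cx
  size : ℕ
  idx_pos : ∀ n, 0 < idx n
  card_le : ∀ n, Fintype.card (C n).cell ≤ size * idx n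
  deg_le : ∀ n c, (C n).deg c ≤ dim

namespace Tower

/-- The product of two towers. -/
def prod (S T : Tower) : Tower where
  dim := S.dim + T.dim
  idx n := S.idx n * T.idx n
  C n := (S.C n).prod (T.C n)
  size := S.size * T.size
  idx_pos n := Nat.mul_pos (S.idx_pos n) (T.idx_pos n)
  card_le n := by
    have h : Fintype.card ((S.C n).prod (T.C n)).cell
        = Fintype.card (S.C n).cell * Fintype.card (T.C n).cell := Fintype.card_prod _ _
    rw [h]
    calc _ ≤ (S.size * S.idx n) * (T.size * T.idx n) := Nat.mul_le_mul (S.card_le n) (T.card_le n)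
      _ = _ := by ring
  deg_le n c := Nat.add_le_add (S.deg_le n c.1) (T.deg_le n c.2)

/-- `pw A m` is the product of `m + 1` copies of `A`. -/
def pw (A : Tower) : ℕ → Tower
  | 0 => A
  | m + 1 => A.prod (pw A m)

/-- All `L²`-Betti numbers vanish (in the form given by Lück's approximation theorem). -/
def Acyclic (T : Tower) : Prop :=
  ∀ j : ℤ, Tendsto (fun n => ((T.C n).betti ℤ j : ℝ) / T.idx n) atTop (𝓝 0)

/-- The approximation of `ρ` by the torsion growth in degree `k`. -/
def Law (T : Tower) (k : ℕ) (ρ : ℝ) : Prop :=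
  Tendsto (fun n => Real.log ((T.C n).tors k) / T.idx n) atTop (𝓝 ((-1) ^ k * ρ))

theorem idx_pos' (T : Tower) (n : ℕ) : (0 : ℝ) < T.idx n := by exact_mod_cast T.idx_pos n

theorem acyclic_prod (S T : Tower) (hT : T.Acyclic) : (S.prod T).Acyclic := by
  intro j
  have hb : ∀ n, ((S.prod T).C n).betti ℤ j
      ≤ (S.size * S.idx n) * ∑ i ∈ Finset.range (S.dim + 1), (T.C n).betti ℤ (j - i) := by
    intro n
    have h1 := Cx.betti_prod_le (X := S.C n) (Y := T.C n) j
    refine h1.trans ?_
    have h2 : ∀ c : (S.C n).cell, (T.C n).betti ℤ (j - (S.C n).deg c)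
        ≤ ∑ i ∈ Finset.range (S.dim + 1), (T.C n).betti ℤ (j - i) := by
      intro c
      exact Finset.single_le_sum (f := fun i : ℕ => (T.C n).betti ℤ (j - i))
        (fun i _ => Nat.zero_le _)
        (Finset.mem_range.mpr (Nat.lt_succ_of_le (S.deg_le n c)))
    refine (Finset.sum_le_sum fun c _ => h2 c).trans ?_
    rw [Finset.sum_const, smul_eq_mul]
    exact Nat.mul_le_mul_right _ (by simpa using S.card_le n)
  have hlim : Tendsto (fun n => (S.size : ℝ) * ∑ i ∈ Finset.range (S.dim + 1),
      ((T.C n).betti ℤ (j - i) : ℝ) / T.idx n) atTop (𝓝 0) := by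
    have h1 : Tendsto (fun n => ∑ i ∈ Finset.range (S.dim + 1),
        ((T.C n).betti ℤ (j - i) : ℝ) / T.idx n) atTop (𝓝 (∑ _i ∈ Finset.range (S.dim + 1), 0)) :=
      tendsto_finsetSum _ fun i _ => hT (j - i)
    have h2 := h1.const_mul (S.size : ℝ)
    simpa using h2
  refine squeeze_zero (fun n => by positivity) (fun n => ?_) hlim
  have h3 := S.idx_pos' n
  have h4 := T.idx_pos' n
  have h5 : ((((S.prod T).C n).betti ℤ j : ℕ) : ℝ)
      ≤ (S.size * S.idx n) * ∑ i ∈ Finset.range (S.dim + 1), ((T.C n).betti ℤ (j - i) : ℝ) := by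
    exact_mod_cast hb n
  have h6 : (((S.prod T).idx n : ℕ) : ℝ) = S.idx n * T.idx n := by
    show ((S.idx n * T.idx n : ℕ) : ℝ) = _
    push_cast; ring
  rw [h6, div_le_iff₀ (mul_pos h3 h4), ← Finset.sum_div]
  refine h5.trans (le_of_eq ?_)
  field_simp

theorem acyclic_pw (A : Tower) (hA : A.Acyclic) (m : ℕ) : (A.pw m).Acyclic := by
  induction m with
  | zero => exact hA
  | succ m ih => exact acyclic_prod A _ ih

theorem dim_pw (A : Tower) (m : ℕ) : (A.pw m).dim = (m + 1) * A.dim := by
  induction m with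
  | zero => simp [pw]
  | succ m ih => show A.dim + (A.pw m).dim = _; rw [ih]; ring

theorem idx_pw (A : Tower) (m n : ℕ) : (A.pw m).idx n = (A.idx n) ^ (m + 1) := by
  induction m with
  | zero => simp [pw]
  | succ m ih => show A.idx n * (A.pw m).idx n = _; rw [ih, pow_succ (A.idx n) (m + 1)]; ring

/-- Smith systems on odd powers. -/
theorem sys_pw (A : Tower) (n p a a' t t' k : ℕ) (haa : a + a' = 2 * k)
    (h : (A.C n).HasSys p a t) (h' : (A.C n).HasSys p a' t') (r : ℕ) :
    ∀ e ≤ 2 * r, ((A.pw (2 * r)).C n).HasSys p (2 * k * r + a + e) (t ^ (r + 1) * t' ^ r) := by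
  induction r with
  | zero =>
    intro e he
    have : e = 0 := by omega
    subst this
    simpa [pw] using h
  | succ r ih =>
    intro e he
    have key : ∃ e0 e1 e2 : ℕ, e0 ≤ 2 * r ∧ e1 ≤ 1 ∧ e2 ≤ 1 ∧ e = e0 + e1 + e2 := by
      by_cases h1 : e ≤ 2 * r
      · exact ⟨e, 0, 0, h1, by omega, by omega, by omega⟩
      · by_cases h2 : e ≤ 2 * r + 1
        · exact ⟨2 * r, 1, 0, le_refl _, by omega, by omega, by omega⟩
        · exact ⟨2 * r, 1, 1, le_refl _, by omega, by omega, by omega⟩
    obtain ⟨e0, e1, e2, h0, h1, h2, rfl⟩ := key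
    have step : ∀ (X Y : Cx) (i j s s' e : ℕ), e ≤ 1 → X.HasSys p i s → Y.HasSys p j s' →
        (X.prod Y).HasSys p (i + j + e) (s * s') := by
      intro X Y i j s s' e he hX hY
      interval_cases e
      · exact hX.mul₀ hY
      · exact hX.mul₁ hY
    have s1 := step _ _ _ _ _ _ e1 h1 h' (ih e0 h0)
    have s2 := step _ _ _ _ _ _ e2 h2 h s1
    have e3 : a + (a' + (2 * k * r + a + e0) + e1) + e2
        = 2 * k * (r + 1) + a + (e0 + e1 + e2) := by
      have : 2 * k * (r + 1) = 2 * k * r + (a + a') := by rw [haa]; ring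
      rw [this]; ring
    have e4 : t * (t' * (t ^ (r + 1) * t' ^ r)) = t ^ (r + 1 + 1) * t' ^ (r + 1) := by ring
    rw [e3, e4] at s2
    exact s2

end Tower

end Pool.Agent.Helper183_TG
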